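import Pool.Agent.Helper81.QF.Run.Sizes
import Pool.Agent.Helper58.QF.Frozen
import Pool.Agent.Helper84.PD.Mean

/-!
# QF-R10: progress of one RUN step in the mean

* `frozenR`: `frozen` (Helper58.QF.Frozen) with `M = 1.5 y^5` (so `2M = 3 y^5`, `M/2 = 0.75 y^5`), `Y₀ = YD ∘ B₀`, `Y₁ = YD ∘ B`,
  `H₀ = HHl ∘ B₀`, `H₁ = HHl ∘ B` (`T_L6`; on the disc `HHl = Hh`: `re_LL, re_L1`, `Hl = log hD`; continuity `cont_Hh`, `cont_comp`),
  `hfar`: `hotH` and `j/y^50 ≤ 1`, `p = (C₃ + 1)/log y` (`markov_log`, `St.Elog`),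
  `E = 3 (tau b d - tau b₀ d₀) + 3 (mean log YD∘B - mean log YD∘B₀)` (`mean_Hh` twice), `tau b d - tau b₀ d₀ ≤ j log y ≤ y^4 log y`
  (`dlge`), `log YD∘B ≤ log (2 y^128)` (`Rn.Ybd`), `log YD∘B₀ ≥ log 0.8 ≥ -1`. Result
  `(E + 39 M p + 19 y + 9)/(M/4 - 4) ≤ C/log y` with `C` depending on `C₃` only, for `y ≥ y₀(C₃)`.
* `tau_step`: `tau b' d' - tau b d = mean (log dl - log dl')`, the integrand is `≥ 0` (`dlR`) and `≥ log (y/3)` where
  `YD B ≤ 0.75 y^5` (`progR`), so the mean is `≥ log (y/3) (1 - mean (ind (YD∘B) (0.75 y^5))) ≥ (log y - log 3)(1 - C/log y) ≥ log y - C - 2`.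
-/

set_option autoImplicit false

namespace Pool.Agent.Helper81.QF

open Polynomial Metric Complex
open Pool.Agent.Helper84.Lam Pool.Agent.Helper29.QF

/-- `(log y)^2 ≤ 4 y` -/
theorem log_sq_le {y : ℝ} (hy : 1 ≤ y) : Real.log y ^ 2 ≤ 4 * y := by
  have h0 : 0 < Real.sqrt y := Real.sqrt_pos.2 (by linarith)
  have h1 : Real.log y = 2 * Real.log (Real.sqrt y) := by
    rw [Real.log_sqrt (by linarith)]; ring
  have h2 : Real.log (Real.sqrt y) ≤ Real.sqrt y := by
    linarith [Real.log_le_sub_one_of_pos h0]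
  have h3 : 0 ≤ Real.log (Real.sqrt y) := Real.log_nonneg (by
    rw [Real.le_sqrt' one_pos]; linarith)
  have h4 : Real.sqrt y ^ 2 = y := Real.sq_sqrt (by linarith)
  rw [h1]
  nlinarith

theorem one_le_log {y : ℝ} (hy : 30 ≤ y) : 1 ≤ Real.log y := by
  have h1 : Real.exp 1 ≤ y := by linarith [Real.exp_one_lt_three]
  rw [← Real.log_exp 1]
  exact Real.log_le_log (Real.exp_pos 1) h1

theorem one_le_cR {y : ℝ} (hy : 1 ≤ y) : 1 ≤ cR y := by
  unfold cR
  have h1 : (2 : ℝ) ≤ (pR y : ℝ) := by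
    unfold pR
    push_cast
    have := Nat.cast_nonneg (α := ℝ) ⌈1000 * Real.log y⌉₊
    linarith
  nlinarith

theorem one_le_X {y : ℝ} (hy : 1 ≤ y) (j : ℕ) : 1 ≤ X0 y * cR y ^ j := by
  unfold X0
  have h1 : 1 ≤ Real.exp (y ^ 16) := Real.one_le_exp (by positivity)
  have h2 : 1 ≤ y ^ 720 := one_le_pow₀ hy
  have h3 : 1 ≤ cR y ^ j := one_le_pow₀ (one_le_cR hy)
  have h4 : 1 ≤ Real.exp (y ^ 16) * y ^ 720 := one_le_mul_of_one_le_of_one_le h1 h2
  exact one_le_mul_of_one_le_of_one_le h4 h3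

theorem HHl_eq_Hh {v : ℂ} (h : ‖v‖ < 1) : HHl v = Hh v := by
  unfold HHl Hh Hl hD
  rw [re_LL h, re_L1 h]

/-- `mean Hh` -/
theorem mean_HHl {m : ℕ} {b d : ℂ[X]} (h : Pair m b d) (hb0 : b.eval 0 = 0) :
    Real.circleAverage (fun z => HHl (Bq b d z)) 0 1 = 3 * tau b d +
      3 * Real.circleAverage (fun z => Real.log (YD (Bq b d z))) 0 1 +
      (3 * Pool.Agent.Helper84.PD.cst + 2 * Real.log 2) := by
  rw [← Pool.Agent.Helper84.PD.mean_Hh h hb0]
  refine Real.circleAverage_congr_sphere (fun z hz => ?_)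
  have hz1 : ‖z‖ = 1 := by simpa using hz
  exact HHl_eq_Hh (Pool.Agent.Helper84.PD.norm_Bq h hz1.le)

theorem frozenR (l : ℕ) (C₃ : ℝ) : ∃ y₀ C : ℝ, 30 ≤ y₀ ∧ 0 ≤ C ∧ ∀ y : ℝ, y₀ ≤ y →
    ∀ (m₀ : ℕ) (b₀ d₀ : ℂ[X]) (f₀ P₀ : ℂ → ℂ), St l C₃ y m₀ b₀ d₀ f₀ P₀ →
    ∀ (j m : ℕ) (b d : ℂ[X]) (f P : ℂ → ℂ), (j : ℝ) ≤ y ^ 4 → Rn l y b₀ d₀ f₀ P₀ j m b d f P →
      Real.circleAverage (Pool.Agent.Helper58.QF.ind (fun z => YD (Bq b d z)) (0.75 * y ^ 5)) 0 1 ≤
        C / Real.log y := by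
  refine ⟨30, 5500 + 200 * (|C₃| + 1), le_rfl, by positivity, ?_⟩
  intro y hy m₀ b₀ d₀ f₀ P₀ h₀ j m b d f P hj h
  have hy1 : 1 ≤ y := by linarith
  have hL := one_le_log hy
  have hL2 := log_sq_le hy1
  have hLy : Real.log y ≤ y := by linarith [Real.log_le_sub_one_of_pos (show 0 < y by linarith)]
  have p := h.core.pair
  have p₀ := h₀.core.pair
  have hY₀ : ContinuousOn (fun z => YD (Bq b₀ d₀ z)) (closedBall 0 1) :=
    Pool.Agent.Helper84.PD.cont_comp p₀ Pool.Agent.Helper84.PD.continuousOn_YD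
  have hY₁ : ContinuousOn (fun z => YD (Bq b d z)) (closedBall 0 1) :=
    Pool.Agent.Helper84.PD.cont_comp p Pool.Agent.Helper84.PD.continuousOn_YD
  have hcH : ∀ (m : ℕ) (b d : ℂ[X]), Pair m b d →
      ContinuousOn (fun z => HHl (Bq b d z)) (closedBall 0 1) := by
    intro m b d p
    refine (Pool.Agent.Helper84.PD.cont_Hh p).congr (fun z hz => ?_)
    exact HHl_eq_Hh (Pool.Agent.Helper84.PD.norm_Bq p (by simpa using hz))
  have hsub : sphere (0 : ℂ) 1 ⊆ closedBall 0 1 := sphere_subset_closedBall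
  have hb : ∀ z : ℂ, ‖z‖ = 1 → ‖Bq b d z‖ < 1 := fun z hz => Pool.Agent.Helper84.PD.norm_Bq p hz.le
  have hb₀ : ∀ z : ℂ, ‖z‖ = 1 → ‖Bq b₀ d₀ z‖ < 1 :=
    fun z hz => Pool.Agent.Helper84.PD.norm_Bq p₀ hz.le
  have h8 : ∀ z : ℂ, ‖z‖ = 1 → 4 / 5 ≤ YD (Bq b d z) := by
    intro z hz
    have := YD_lower (hb z hz)
    norm_num at this ⊢
    linarith
  have h8₀ : ∀ z : ℂ, ‖z‖ = 1 → 4 / 5 ≤ YD (Bq b₀ d₀ z) := by
    intro z hz
    have := YD_lower (hb₀ z hz)
    norm_num at this ⊢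
    linarith
  have hmk := Pool.Agent.Helper58.QF.markov_log (Y := fun z => YD (Bq b₀ d₀ z))
    (hY₀.mono hsub) h8₀ (y := y) (by linarith) h₀.Elog
  -- the difference of the means
  have i1 := Pool.Agent.Helper84.PD.ci (Pool.Agent.Helper84.PD.cont_log_dl p)
  have i0 := Pool.Agent.Helper84.PD.ci (Pool.Agent.Helper84.PD.cont_log_dl p₀)
  have hpos : ∀ z : ℂ, ‖z‖ = 1 → 0 < dl b d z := fun z hz => Pool.Agent.Helper84.PD.dl_pos p hz.le
  have hpos₀ : ∀ z : ℂ, ‖z‖ = 1 → 0 < dl b₀ d₀ z :=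
    fun z hz => Pool.Agent.Helper84.PD.dl_pos p₀ hz.le
  have htau : tau b d - tau b₀ d₀ ≤ y ^ 4 * Real.log y := by
    unfold tau
    have i1n : CircleIntegrable (fun z => -Real.log (dl b d z)) 0 1 := i1.neg
    have i0n : CircleIntegrable (fun z => -Real.log (dl b₀ d₀ z)) 0 1 := i0.neg
    rw [← Real.circleAverage_fun_sub i1n i0n]
    refine (Real.circleAverage_mono (i1n.sub i0n) (circleIntegrable_const
      (y ^ 4 * Real.log y) 0 1) (fun z hz => ?_)).trans
      (Real.circleAverage_const (y ^ 4 * Real.log y) 0 1).le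
    have hz1 : ‖z‖ = 1 := by simpa using hz
    have h1 := h.dlge z hz1
    have h2 : Real.log (dl b₀ d₀ z) ≤ j * Real.log y + Real.log (dl b d z) := by
      rw [← Real.log_pow, ← Real.log_mul (by positivity) (hpos z hz1).ne']
      exact Real.log_le_log (hpos₀ z hz1) h1
    have h3 : (j : ℝ) * Real.log y ≤ y ^ 4 * Real.log y :=
      mul_le_mul_of_nonneg_right hj (by linarith)
    show -Real.log (dl b d z) - -Real.log (dl b₀ d₀ z) ≤ y ^ 4 * Real.log y
    linarith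
  have iY := Pool.Agent.Helper84.PD.ci (Pool.Agent.Helper84.PD.cont_log_YD p)
  have iY₀ := Pool.Agent.Helper84.PD.ci (Pool.Agent.Helper84.PD.cont_log_YD p₀)
  have hlY : Real.circleAverage (fun z => Real.log (YD (Bq b d z))) 0 1 ≤
      1 + 128 * Real.log y := by
    refine (Real.circleAverage_mono iY (circleIntegrable_const
      (1 + 128 * Real.log y) 0 1) (fun z hz => ?_)).trans
      (Real.circleAverage_const (1 + 128 * Real.log y) 0 1).le
    have hz1 : ‖z‖ = 1 := by simpa using hz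
    have h1 := h.Ybd hy h₀ hj hz1
    have h2 : Real.log (YD (Bq b d z)) ≤ Real.log (2 * y ^ 128) :=
      Real.log_le_log (by linarith [h8 z hz1]) h1
    have h3 : Real.log (2 * y ^ 128) = Real.log 2 + 128 * Real.log y := by
      rw [Real.log_mul (by norm_num) (by positivity), Real.log_pow]
      norm_num
    have h4 := Real.log_two_lt_d9
    linarith
  have hlY₀ : -1 ≤ Real.circleAverage (fun z => Real.log (YD (Bq b₀ d₀ z))) 0 1 := by
    refine (Real.circleAverage_const (-1 : ℝ) 0 1).ge.trans (Real.circleAverage_mono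
      (circleIntegrable_const (-1 : ℝ) 0 1) iY₀ (fun z hz => ?_))
    have hz1 : ‖z‖ = 1 := by simpa using hz
    have h1 := h8₀ z hz1
    have h2 : Real.log (4 / 5) ≤ Real.log (YD (Bq b₀ d₀ z)) := Real.log_le_log (by norm_num) h1
    have h3 := Real.one_sub_inv_le_log_of_pos (show (0 : ℝ) < 4 / 5 by norm_num)
    norm_num at h3
    linarith
  have hE : Real.circleAverage (fun z => HHl (Bq b d z)) 0 1 -
      Real.circleAverage (fun z => HHl (Bq b₀ d₀ z)) 0 1 ≤
      3 * (y ^ 4 * Real.log y) + 3 * (1 + 128 * Real.log y) + 3 := by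
    rw [mean_HHl p h.core.b0, mean_HHl p₀ h₀.core.b0]
    linarith
  have hM : 16 < 1.5 * y ^ 5 := by
    have : (30 : ℝ) ^ 5 ≤ y ^ 5 := pow_le_pow_left₀ (by norm_num) hy 5
    norm_num at this ⊢
    linarith
  have key := Pool.Agent.Helper58.QF.frozen (Y₀ := fun z => YD (Bq b₀ d₀ z))
    (Y₁ := fun z => YD (Bq b d z)) (H₀ := fun z => HHl (Bq b₀ d₀ z))
    (H₁ := fun z => HHl (Bq b d z)) (hY₀.mono hsub) (hY₁.mono hsub)
    ((hcH _ _ _ p₀).mono hsub) ((hcH _ _ _ p).mono hsub) h8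
    (fun z hz => (T_L6 (hb z hz)).1) (fun z hz => (T_L6 (hb₀ z hz)).2) hM hy1
    (fun z hz h2 => by
      have h3 := h.hotH z hz (by norm_num at h2 ⊢; linarith)
      have h4 : |HHl (Bq b d z) - HHl (Bq b₀ d₀ z)| ≤ 1 := by
        have h5 : (1 : ℝ) ≤ y ^ 46 := one_le_pow₀ hy1
        have h6 : |HHl (Bq b d z) - HHl (Bq b₀ d₀ z)| * y ^ 50 ≤ 1 * y ^ 50 := by
          calc _ ≤ (j : ℝ) := h3
            _ ≤ y ^ 4 := hj
            _ ≤ 1 * y ^ 50 := by
              rw [one_mul]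
              exact pow_le_pow_right₀ hy1 (by norm_num)
        exact le_of_mul_le_mul_right h6 (by positivity)
      have := (abs_le.1 h4).1
      linarith) hE hmk
  have hhalf : (1.5 * y ^ 5 / 2 : ℝ) = 0.75 * y ^ 5 := by ring
  rw [hhalf] at key
  refine key.trans ?_
  have hL0 : 0 < Real.log y := by linarith
  have hden : 0.3 * y ^ 5 ≤ 1.5 * y ^ 5 / 4 - 4 := by
    have : (30 : ℝ) ^ 5 ≤ y ^ 5 := pow_le_pow_left₀ (by norm_num) hy 5
    norm_num at this ⊢
    linarith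
  have hy5 : 0 < y ^ 5 := by positivity
  rw [div_le_div_iff₀ (by linarith) hL0]
  have hnum : (3 * (y ^ 4 * Real.log y) + 3 * (1 + 128 * Real.log y) + 3 +
      39 * (1.5 * y ^ 5) * ((C₃ + 1) / Real.log y) + 19 * y + 9) * Real.log y ≤
      (1650 + 58.5 * (|C₃| + 1)) * y ^ 5 := by
    have e1 : 39 * (1.5 * y ^ 5) * ((C₃ + 1) / Real.log y) * Real.log y =
        58.5 * y ^ 5 * (C₃ + 1) := by
      field_simp
      norm_num
      ring
    have e2 : 58.5 * y ^ 5 * (C₃ + 1) ≤ 58.5 * (|C₃| + 1) * y ^ 5 := by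
      have := le_abs_self C₃
      nlinarith
    have e3 : 3 * (y ^ 4 * Real.log y) * Real.log y ≤ 12 * y ^ 5 := by
      have : y ^ 4 * Real.log y ^ 2 ≤ y ^ 4 * (4 * y) := mul_le_mul_of_nonneg_left hL2 (by positivity)
      nlinarith
    have hyy : y ≤ y ^ 5 := le_self_pow₀ hy1 (by norm_num)
    have hy2 : y ^ 2 ≤ y ^ 5 := pow_le_pow_right₀ hy1 (by norm_num)
    have e4 : 3 * (1 + 128 * Real.log y) * Real.log y ≤ 1548 * y := by nlinarith
    have e5 : 19 * y * Real.log y ≤ 19 * y ^ 2 := by nlinarith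
    nlinarith
  calc _ ≤ (1650 + 58.5 * (|C₃| + 1)) * y ^ 5 := hnum
    _ ≤ (5500 + 200 * (|C₃| + 1)) * (0.3 * y ^ 5) := by
      have := abs_nonneg C₃
      nlinarith
    _ ≤ _ := mul_le_mul_of_nonneg_left hden (by positivity)

theorem tau_step (l : ℕ) (C₃ : ℝ) : ∃ y₀ C : ℝ, 30 ≤ y₀ ∧ 0 ≤ C ∧ ∀ y : ℝ, y₀ ≤ y →
    ∀ (m₀ : ℕ) (b₀ d₀ : ℂ[X]) (f₀ P₀ : ℂ → ℂ), St l C₃ y m₀ b₀ d₀ f₀ P₀ →
    ∀ (j m : ℕ) (b d : ℂ[X]) (f P : ℂ → ℂ), (j : ℝ) ≤ y ^ 4 → Rn l y b₀ d₀ f₀ P₀ j m b d f P →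
      Real.log y - C ≤ tau (bR y (X0 y * cR y ^ j) m b d) (dR y (X0 y * cR y ^ j) m b d) -
        tau b d := by
  obtain ⟨y₀, C, hy₀, hC, H⟩ := frozenR l C₃
  refine ⟨y₀, C + 2, hy₀, by linarith, ?_⟩
  intro y hy m₀ b₀ d₀ f₀ P₀ h₀ j m b d f P hj h
  have hy30 : 30 ≤ y := hy₀.trans hy
  have hy1 : 1 ≤ y := by linarith
  have hF := H y hy m₀ b₀ d₀ f₀ P₀ h₀ j m b d f P hj h
  have hL := one_le_log hy30
  have p := h.core.pair
  have hX := one_le_X hy1 j
  set X := X0 y * cR y ^ j with hXd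
  have p' := pairR p hy1 hX
  have i1 := Pool.Agent.Helper84.PD.ci (Pool.Agent.Helper84.PD.cont_log_dl p)
  have i' := Pool.Agent.Helper84.PD.ci (Pool.Agent.Helper84.PD.cont_log_dl p')
  have hY₁ : ContinuousOn (fun z => YD (Bq b d z)) (sphere 0 1) :=
    (Pool.Agent.Helper84.PD.cont_comp p Pool.Agent.Helper84.PD.continuousOn_YD).mono
      sphere_subset_closedBall
  have iI := Pool.Agent.Helper58.QF.ind_integrable hY₁ (0.75 * y ^ 5)
  set I := Pool.Agent.Helper58.QF.ind (fun z => YD (Bq b d z)) (0.75 * y ^ 5) with hI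
  have hlog3 : 0 ≤ Real.log (y / 3) := Real.log_nonneg (by
    rw [le_div_iff₀ (by norm_num)]; linarith)
  -- pointwise
  have hpt : ∀ z ∈ sphere (0 : ℂ) |1|, Real.log (y / 3) - Real.log (y / 3) * I z ≤
      -Real.log (dl (bR y X m b d) (dR y X m b d) z) - -Real.log (dl b d z) := by
    intro z hz
    have hz1 : ‖z‖ = 1 := by simpa using hz
    have q1 := Pool.Agent.Helper84.PD.dl_pos p hz1.le
    have q2 := Pool.Agent.Helper84.PD.dl_pos p' hz1.le
    by_cases hc : 0.75 * y ^ 5 < YD (Bq b d z)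
    · have e1 : I z = 1 := by rw [hI]; unfold Pool.Agent.Helper58.QF.ind; rw [if_pos hc]
      rw [e1, mul_one, sub_self]
      have h1 := dlR p hy1 hX hz1
      have h2 : dl (bR y X m b d) (dR y X m b d) z ≤ dl b d z := by
        rw [h1]
        have := sq_nonneg (cfR y X b d z)
        nlinarith
      have := Real.log_le_log q2 h2
      linarith
    · have e1 : I z = 0 := by rw [hI]; unfold Pool.Agent.Helper58.QF.ind; rw [if_neg hc]
      rw [e1, mul_zero, sub_zero]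
      rw [not_lt] at hc
      have hy5 : 0 < y ^ 5 := by positivity
      have h1 := progR p hy30 hX h.core.speed hz1 (by
        norm_num at hc ⊢
        linarith)
      have h2 := Real.log_le_log q2 h1
      rw [Real.log_mul (by positivity) q1.ne'] at h2
      have h3 : Real.log (3 / y) = -Real.log (y / 3) := by
        rw [← Real.log_inv, inv_div]
      rw [h3] at h2
      linarith
  have iL : CircleIntegrable (fun z => Real.log (y / 3) * I z) 0 1 := by
    have := iI.const_smul (a := Real.log (y / 3))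
    simpa [Pi.smul_def, smul_eq_mul] using this
  have iC : CircleIntegrable (fun _ : ℂ => Real.log (y / 3)) 0 1 := circleIntegrable_const _ 0 1
  have hm := Real.circleAverage_mono (iC.sub iL) (i'.neg.sub i1.neg) hpt
  have e2 : Real.circleAverage (fun z => Real.log (y / 3) - Real.log (y / 3) * I z) 0 1 =
      Real.log (y / 3) - Real.log (y / 3) * Real.circleAverage I 0 1 := by
    rw [Real.circleAverage_fun_sub iC iL, Real.circleAverage_const]
    congr 1
    have := Real.circleAverage_fun_smul (a := Real.log (y / 3)) (f := I) (c := (0 : ℂ)) (R := 1)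
    simpa [smul_eq_mul] using this
  have e3 : Real.circleAverage (fun z => -Real.log (dl (bR y X m b d) (dR y X m b d) z) -
      -Real.log (dl b d z)) 0 1 =
      tau (bR y X m b d) (dR y X m b d) - tau b d := by
    unfold tau
    have i1n : CircleIntegrable (fun z => -Real.log (dl b d z)) 0 1 := i1.neg
    have i'n : CircleIntegrable (fun z =>
      -Real.log (dl (bR y X m b d) (dR y X m b d) z)) 0 1 := i'.neg
    rw [← Real.circleAverage_fun_sub i'n i1n]
  have hm2 : Real.log (y / 3) - Real.log (y / 3) * Real.circleAverage I 0 1 ≤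
      tau (bR y X m b d) (dR y X m b d) - tau b d := by
    rw [← e2, ← e3]
    exact hm
  have hF' : Real.circleAverage I 0 1 * Real.log y ≤ C := by
    rwa [le_div_iff₀ (by linarith)] at hF
  have hI0 : 0 ≤ Real.circleAverage I 0 1 := by
    refine (Real.circleAverage_const (0 : ℝ) 0 1).ge.trans (Real.circleAverage_mono
      (circleIntegrable_const (0 : ℝ) 0 1) iI (fun z _ => ?_))
    exact Pool.Agent.Helper58.QF.ind_nonneg _ _ _
  have hl3 : Real.log (y / 3) = Real.log y - Real.log 3 := Real.log_div (by linarith) (by norm_num)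
  have h33 : Real.log 3 ≤ 2 := by
    have := Real.log_le_sub_one_of_pos (show (0 : ℝ) < 3 by norm_num)
    linarith
  have h30 : 0 ≤ Real.log 3 := Real.log_nonneg (by norm_num)
  rw [hl3] at hm2
  nlinarith

end Pool.Agent.Helper81.QF
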