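import Pool.Agent.Helper81.QF.Run.RunStep
import Pool.Agent.Helper81.QF.Run.Tau

/-!
# QF-R11: iteration of the RUN steps

Induction on `N` with `rn_zero`, `run_step`, `tau_step` (`y₀` the maximum of the three).
-/

set_option autoImplicit false

namespace Pool.Agent.Helper81.QF

open Polynomial Metric Complex
open Pool.Agent.Helper84.Lam Pool.Agent.Helper29.QF

theorem run_iter {l : ℕ} (hl : 1 ≤ l) (C₃ : ℝ) : ∃ y₀ C : ℝ, 30 ≤ y₀ ∧ 0 ≤ C ∧ ∀ y : ℝ, y₀ ≤ y →
    ∀ (m₀ : ℕ) (b₀ d₀ : ℂ[X]) (f₀ P₀ : ℂ → ℂ), St l C₃ y m₀ b₀ d₀ f₀ P₀ →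
    ∀ N : ℕ, (N : ℝ) ≤ y ^ 4 → ∃ (m : ℕ) (b d : ℂ[X]) (f P : ℂ → ℂ),
      Rn l y b₀ d₀ f₀ P₀ N m b d f P ∧ N * (Real.log y - C) ≤ tau b d - tau b₀ d₀ := by
  obtain ⟨y₁, hy₁, H₁⟩ := run_step hl
  obtain ⟨y₂, C, hy₂, hC, H₂⟩ := tau_step l C₃
  refine ⟨max y₁ y₂, C, hy₁.trans (le_max_left _ _), hC, ?_⟩
  intro y hy m₀ b₀ d₀ f₀ P₀ h₀ N
  have h1 : y₁ ≤ y := (le_max_left _ _).trans hy
  have h2 : y₂ ≤ y := (le_max_right _ _).trans hy
  have h30 : 30 ≤ y := hy₁.trans h1
  induction N with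
  | zero =>
    intro _
    refine ⟨m₀, b₀, d₀, f₀, P₀, rn_zero (by linarith) h₀, ?_⟩
    simp
  | succ N ih =>
    intro hN
    push_cast at hN
    obtain ⟨m, b, d, f, P, hR, ht⟩ := ih (by linarith)
    obtain ⟨f', P', hR'⟩ := H₁ y h1 C₃ m₀ b₀ d₀ f₀ P₀ h₀ N m b d f P hN hR
    have ht' := H₂ y h2 m₀ b₀ d₀ f₀ P₀ h₀ N m b d f P (by linarith) hR
    refine ⟨_, _, _, f', P', hR', ?_⟩
    push_cast
    linarith

private theorem log_cR_le {y : ℝ} (hy : 30 ≤ y) :
    Real.log (cR y) ≤ Real.log y + 26 + 2 * Real.sqrt (Real.log y) := by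
  have hL := one_le_log hy
  set L := Real.log y with hLd
  have hp : (pR y : ℝ) ≤ 1003 * L := by
    unfold pR
    push_cast
    have := (Nat.ceil_lt_add_one (show 0 ≤ 1000 * Real.log y by rw [← hLd]; linarith)).le
    rw [← hLd] at this ⊢
    linarith
  have hp0 : 0 < (pR y : ℝ) := by
    unfold pR
    positivity
  have hs0 : 0 < Real.sqrt L := Real.sqrt_pos.2 (by linarith)
  have h1 : Real.log L ≤ 2 * Real.sqrt L := by
    have e : Real.log L = 2 * Real.log (Real.sqrt L) := by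
      rw [Real.log_sqrt (by linarith)]; ring
    have := Real.log_le_sub_one_of_pos hs0
    rw [e]
    linarith
  have h2 : Real.log (pR y : ℝ) ≤ Real.log 1003 + Real.log L := by
    rw [← Real.log_mul (by norm_num) (by linarith)]
    exact Real.log_le_log hp0 hp
  have h3 : Real.log (cR y) = Real.log 40000000 + Real.log (pR y : ℝ) + L := by
    unfold cR
    rw [Real.log_mul (by positivity) (by linarith), Real.log_mul (by norm_num) hp0.ne']
  have h4 : Real.log 40000000 + Real.log 1003 ≤ 26 := by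
    rw [← Real.log_mul (by norm_num) (by norm_num), ← Real.log_exp 26]
    refine Real.log_le_log (by norm_num) ?_
    have h5 : (2.7 : ℝ) ≤ Real.exp 1 := by
      have := Real.exp_one_gt_d9
      linarith
    have h6 : Real.exp 26 = Real.exp 1 ^ 26 := by
      rw [← Real.exp_nat_mul]
      norm_num
    rw [h6]
    refine le_trans ?_ (pow_le_pow_left₀ (by norm_num) h5 26)
    norm_num
  rw [h3]
  linarith

private theorem one_le_log_cR {y : ℝ} (hy : 30 ≤ y) : 1 ≤ Real.log (cR y) := by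
  have h1 : (2 : ℝ) ≤ (pR y : ℝ) := by
    unfold pR
    push_cast
    have := Nat.cast_nonneg (α := ℝ) ⌈1000 * Real.log y⌉₊
    linarith
  have h2 : y ≤ cR y := by
    unfold cR
    nlinarith
  have h3 : Real.log y ≤ Real.log (cR y) := Real.log_le_log (by linarith) h2
  exact (one_le_log hy).trans h3

private theorem log_X_eq {y : ℝ} (hy : 30 ≤ y) (N : ℕ) :
    Real.log (X0 y * cR y ^ N) = y ^ 16 + (720 * Real.log y + N * Real.log (cR y)) := by
  have hc : 0 < cR y := by linarith [one_le_cR (show 1 ≤ y by linarith)]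
  have hy0 : 0 < y := by linarith
  unfold X0
  rw [Real.log_mul (by positivity) (by positivity), Real.log_mul (by positivity) (by positivity),
    Real.log_exp, Real.log_pow, Real.log_pow]
  push_cast
  ring

/-- the frequencies after `⌈y^3⌉` steps -/
theorem freq_num : ∃ y₀ : ℝ, 30 ≤ y₀ ∧ ∀ y : ℝ, y₀ ≤ y → ∀ N : ℕ, N = ⌈y ^ 3⌉₊ →
    (N : ℝ) ≤ y ^ 4 ∧ y ^ 16 + y ^ 3 ≤ Real.log (X0 y * cR y ^ N) ∧
      Real.log (X0 y * cR y ^ N) ≤ y ^ 16 + y ^ 4 := by
  refine ⟨10000, by norm_num, ?_⟩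
  intro y hy N hN
  have hy30 : 30 ≤ y := by linarith
  have hy0 : 0 < y := by linarith
  have hN1 : y ^ 3 ≤ (N : ℝ) := by rw [hN]; exact Nat.le_ceil _
  have hN2 : (N : ℝ) ≤ y ^ 3 + 1 := by
    rw [hN]
    exact (Nat.ceil_lt_add_one (by positivity)).le
  have hL := one_le_log hy30
  have hc1 := one_le_log_cR hy30
  have hc2 := log_cR_le hy30
  have hs : Real.sqrt (Real.log y) ≤ Real.log y := by
    rw [Real.sqrt_le_left (by linarith)]
    nlinarith
  have hL2 := log_sq_le (show 1 ≤ y by linarith)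
  have hLy : 50 * Real.log y ≤ y := by
    have h1 : (50 * Real.log y) ^ 2 ≤ y ^ 2 := by nlinarith
    exact le_of_sq_le_sq h1 hy0.le
  have h1 : (1 : ℝ) ≤ y ^ 3 := one_le_pow₀ (by linarith)
  have hy4 : y ^ 4 = y * y ^ 3 := by ring
  refine ⟨?_, ?_, ?_⟩
  · rw [hy4]
    nlinarith
  · rw [log_X_eq hy30]
    nlinarith
  · rw [log_X_eq hy30]
    have e1 : Real.log (cR y) ≤ 29 * Real.log y := by linarith
    have e2 : (N : ℝ) * Real.log (cR y) ≤ (y ^ 3 + 1) * (29 / 50 * y) :=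
      mul_le_mul hN2 (by linarith) (by linarith) (by linarith)
    have e3 : (100 : ℝ) ≤ y ^ 3 := by
      have : (30 : ℝ) ^ 3 ≤ y ^ 3 := pow_le_pow_left₀ (by norm_num) hy30 3
      norm_num at this ⊢
      linarith
    have e4 : 100 * y ≤ y * y ^ 3 := by nlinarith
    rw [hy4]
    linarith

/-- `N (log y - C) ≥ (1 - C'/√log y) (log X - y^16)` -/
theorem ratio_num (C : ℝ) : ∃ y₀ C' : ℝ, 30 ≤ y₀ ∧ 0 ≤ C' ∧ ∀ y : ℝ, y₀ ≤ y → ∀ N : ℕ, N = ⌈y ^ 3⌉₊ →
    (1 - C' / Real.sqrt (Real.log y)) * (Real.log (X0 y * cR y ^ N) - y ^ 16) ≤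
      N * (Real.log y - C) := by
  refine ⟨max 30 (Real.exp C), 29 + |C|, le_max_left _ _, by positivity, ?_⟩
  intro y hy N hN
  have hy30 : 30 ≤ y := (le_max_left _ _).trans hy
  have hyC : Real.exp C ≤ y := (le_max_right _ _).trans hy
  have hy0 : 0 < y := by linarith
  have hL := one_le_log hy30
  have hc1 := one_le_log_cR hy30
  have hc2 := log_cR_le hy30
  have hLC : C ≤ Real.log y := by
    rw [← Real.log_exp C]
    exact Real.log_le_log (Real.exp_pos _) hyC
  rw [log_X_eq hy30, add_sub_cancel_left]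
  have hN1 : y ^ 3 ≤ (N : ℝ) := by rw [hN]; exact Nat.le_ceil _
  have h720 : 720 * Real.log y ≤ (N : ℝ) := by
    have h1 : Real.log y ≤ y := by linarith [Real.log_le_sub_one_of_pos hy0]
    have h2 : 900 * y ≤ y ^ 3 := by
      have : y ^ 3 = y * y * y := by ring
      rw [this]
      nlinarith
    linarith
  have hN0 : 0 ≤ (N : ℝ) := Nat.cast_nonneg _
  set L := Real.log y with hLd
  set s := Real.sqrt L with hsd
  have hs1 : 1 ≤ s := by
    rw [hsd, Real.le_sqrt' one_pos]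
    linarith
  have hss : s * s = L := Real.mul_self_sqrt (by linarith)
  have hT0 : 0 ≤ 720 * L + N * Real.log (cR y) := by positivity
  have hT : 720 * L + N * Real.log (cR y) ≤ N * (L + 27 + 2 * s) := by nlinarith
  rcases le_or_gt (1 - (29 + |C|) / s) 0 with hc | hc
  · have : 0 ≤ (N : ℝ) * (L - C) := mul_nonneg hN0 (by linarith)
    exact (mul_nonpos_of_nonpos_of_nonneg hc hT0).trans this
  · refine (mul_le_mul_of_nonneg_left hT hc.le).trans ?_
    have e1 : (1 - (29 + |C|) / s) * (L + 27 + 2 * s) ≤ L - C := by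
      have hs0 : 0 < s := by linarith
      have e2 : (1 - (29 + |C|) / s) * (L + 27 + 2 * s) =
          L + 27 + 2 * s - (29 + |C|) * s - 27 * ((29 + |C|) / s) - 2 * (29 + |C|) := by
        field_simp
        rw [← hss]
        ring
      rw [e2]
      have e3 : 0 ≤ (29 + |C|) / s := by positivity
      have e4 := neg_abs_le C
      have e5 := abs_nonneg C
      have e6 := le_abs_self C
      nlinarith
    calc (1 - (29 + |C|) / s) * (N * (L + 27 + 2 * s)) =
          N * ((1 - (29 + |C|) / s) * (L + 27 + 2 * s)) := by ring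
      _ ≤ N * (L - C) := mul_le_mul_of_nonneg_left e1 hN0

end Pool.Agent.Helper81.QF
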