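import Pool.Agent.Helper84.PD.Mean
import Pool.Agent.Helper29.QF.JJ
import Pool.Agent.Helper58.LD.MaxP

/-!
# QF-R7: divisibility by `z^K` of differences

`Dv K F`: `F = z^K h` on the closed disc with `h` analytic near it.
* `Dv.of_isBigO`: `F` analytic near the closed disc and `F = O(z^K)` at `0`: `natCast_le_analyticOrderAt` (or induction on
  `K` with `dslope`) gives `F = z^K h₀` near `0`; put `h z = F z / z^K` for `z ≠ 0` and `h = h₀` near `0`.
  (A clean way: induction on `K`; `F 0 = 0`, `F = z * dslope F 0 z`, `dslope` is analytic near the closed disc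
  (`AnalyticOnNhd`/`DifferentiableOn.dslope`), and `dslope F 0 = O(z^(K-1))`.)
* `Dv.schwarz`: maximum principle for `h` (`norm_le_of_circle`).
* `Dv.schwarz_w`: with a zero-free weight `f`: maximum principle for `h / f`.
* `div_comp`: `G (B z) - G (B₀ z)`, `G` differentiable on the unit disc: near `0` one has
  `|G (B z) - G (B₀ z)| ≤ C |B z - B₀ z|` (`G` is locally Lipschitz at `B₀ 0`, `B 0 = B₀ 0` when `K ≥ 1`; for `K = 0` the statement is
  trivial), and `B - B₀ = ((b - b₀) d₀ - b₀ (d - d₀))/(d d₀) = z^K (..)`.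
* `div_jj`: `jj = (thD(B))^l d^(-2l) (1 - λ(B))⁻¹`; use `div_comp` for the three factors and
  `x y - x₀ y₀ = (x - x₀) y + x₀ (y - y₀)`.
-/

set_option autoImplicit false

namespace Pool.Agent.Helper81.QF

open Polynomial Metric Complex Filter Topology Asymptotics
open Pool.Agent.Helper84.Lam Pool.Agent.Helper29.QF

/-- divisibility by `z^K` on the closed disc -/
def Dv (K : ℕ) (F : ℂ → ℂ) : Prop :=
  ∃ h : ℂ → ℂ, AnalyticOnNhd ℂ h (closedBall 0 1) ∧ ∀ z : ℂ, ‖z‖ ≤ 1 → F z = z ^ K * h z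

theorem Dv.of_isBigO {K : ℕ} {F : ℂ → ℂ} (hF : AnalyticOnNhd ℂ F (closedBall 0 1))
    (h : F =O[𝓝 0] fun z => z ^ K) : Dv K F := by
  have h0 : AnalyticAt ℂ F 0 := hF 0 (by simp)
  have hord : (K : ℕ∞) ≤ analyticOrderAt F 0 := by
    by_contra hlt
    rw [not_le] at hlt
    obtain ⟨n, hn⟩ : ∃ n : ℕ, analyticOrderAt F 0 = n :=
      (ENat.ne_top_iff_exists.1 (ne_top_of_lt hlt)).imp fun _ e => e.symm
    rw [hn] at hlt
    have hnK : n < K := by exact_mod_cast hlt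
    obtain ⟨g, hg, hg0, hFg⟩ := h0.analyticOrderAt_eq_natCast.1 hn
    have h1 : (fun z : ℂ => z ^ n * g z) =O[𝓝[≠] 0] fun z => z ^ K := by
      refine (h.mono nhdsWithin_le_nhds).congr' ?_ EventuallyEq.rfl
      filter_upwards [hFg.filter_mono nhdsWithin_le_nhds] with z hz
      rw [hz, sub_zero, smul_eq_mul]
    have h2 : g =O[𝓝[≠] 0] fun z => z ^ (K - n) := by
      rw [isBigO_iff] at h1 ⊢
      obtain ⟨c, hc⟩ := h1
      refine ⟨c, ?_⟩
      filter_upwards [hc, self_mem_nhdsWithin] with z hz hz0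
      have hz1 : 0 < ‖z‖ := norm_pos_iff.2 hz0
      rw [norm_mul, norm_pow, norm_pow] at hz
      rw [norm_pow]
      have e : ‖z‖ ^ K = ‖z‖ ^ n * ‖z‖ ^ (K - n) := by
        rw [← pow_add]; congr 1; omega
      rw [e] at hz
      have h3 : 0 < ‖z‖ ^ n := by positivity
      have h4 : ‖z‖ ^ n * ‖g z‖ ≤ ‖z‖ ^ n * (c * ‖z‖ ^ (K - n)) := by linarith
      exact le_of_mul_le_mul_left h4 h3
    have h5 : Tendsto (fun z : ℂ => z ^ (K - n)) (𝓝[≠] 0) (𝓝 0) := by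
      have : Tendsto (fun z : ℂ => z ^ (K - n)) (𝓝 0) (𝓝 (0 ^ (K - n))) :=
        (continuous_pow (K - n)).tendsto 0
      rw [zero_pow (by omega)] at this
      exact this.mono_left nhdsWithin_le_nhds
    have h6 := h2.trans_tendsto h5
    have h7 : Tendsto g (𝓝[≠] 0) (𝓝 (g 0)) := hg.continuousAt.tendsto.mono_left nhdsWithin_le_nhds
    exact hg0 (tendsto_nhds_unique h7 h6)
  obtain ⟨g, hg, hFg⟩ := (natCast_le_analyticOrderAt h0).1 hord
  refine ⟨fun z => if z = 0 then g 0 else F z / z ^ K, ?_, ?_⟩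
  · intro z hz
    rcases eq_or_ne z 0 with rfl | hz0
    · refine hg.congr ?_
      filter_upwards [hFg] with z hz
      by_cases h1 : z = 0
      · rw [if_pos h1, h1]
      · rw [if_neg h1, hz, sub_zero, smul_eq_mul, mul_div_cancel_left₀ _ (pow_ne_zero _ h1)]
    · have h1 : AnalyticAt ℂ (fun z => F z / z ^ K) z :=
        (hF z hz).div (analyticAt_id.pow K) (pow_ne_zero _ hz0)
      refine h1.congr ?_
      filter_upwards [isOpen_ne.mem_nhds hz0] with w hw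
      rw [if_neg hw]
  · intro z hz
    show F z = z ^ K * (if z = 0 then g 0 else F z / z ^ K)
    by_cases h1 : z = 0
    · have h2 := hFg.self_of_nhds
      rw [sub_zero, smul_eq_mul] at h2
      rw [if_pos h1, h1, h2]
    · rw [if_neg h1, mul_div_cancel₀ _ (pow_ne_zero _ h1)]

private theorem near0 {p : ℂ → Prop} (h : ∀ z : ℂ, ‖z‖ ≤ 1 → p z) : ∀ᶠ z in 𝓝 (0 : ℂ), p z := by
  filter_upwards [ball_mem_nhds (0 : ℂ) one_pos] with z hz
  exact h z (by simpa using (mem_ball_zero_iff.1 hz).le)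

theorem Dv.isBigO {K : ℕ} {F : ℂ → ℂ} (h : Dv K F) : F =O[𝓝 0] fun z => z ^ K := by
  obtain ⟨h, ha, he⟩ := h
  have h1 : h =O[𝓝 0] fun _ => (1 : ℂ) := (ha 0 (by simp)).continuousAt.isBigO_one ℂ
  have h2 := (isBigO_refl (fun z : ℂ => z ^ K) (𝓝 0)).mul h1
  refine h2.congr' ?_ ?_
  · filter_upwards [near0 he] with z hz
    rw [hz]
  · filter_upwards with z
    rw [mul_one]

theorem Dv.mul {K : ℕ} {F G : ℂ → ℂ} (h : Dv K F) (hG : AnalyticOnNhd ℂ G (closedBall 0 1)) :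
    Dv K (fun z => F z * G z) := by
  obtain ⟨h, ha, he⟩ := h
  refine ⟨fun z => h z * G z, ha.mul hG, fun z hz => ?_⟩
  show F z * G z = z ^ K * (h z * G z)
  rw [he z hz, mul_assoc]

theorem Dv.add {K : ℕ} {F G : ℂ → ℂ} (h : Dv K F) (hG : Dv K G) : Dv K (fun z => F z + G z) := by
  obtain ⟨h, ha, he⟩ := h
  obtain ⟨g, ga, ge⟩ := hG
  refine ⟨fun z => h z + g z, ha.add ga, fun z hz => ?_⟩
  show F z + G z = z ^ K * (h z + g z)
  rw [he z hz, ge z hz, mul_add]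

theorem Dv.mono {K K' : ℕ} {F : ℂ → ℂ} (h : Dv K F) (hK : K' ≤ K) : Dv K' F := by
  obtain ⟨h, ha, he⟩ := h
  refine ⟨fun z => z ^ (K - K') * h z, fun z hz => (analyticAt_id.pow _).mul (ha z hz),
    fun z hz => ?_⟩
  show F z = z ^ K' * (z ^ (K - K') * h z)
  rw [he z hz, ← mul_assoc, ← pow_add]
  congr 2
  omega

theorem Dv.congr {K : ℕ} {F G : ℂ → ℂ} (h : Dv K F) (hG : ∀ z : ℂ, ‖z‖ ≤ 1 → G z = F z) :
    Dv K G := by
  obtain ⟨h, ha, he⟩ := h
  exact ⟨h, ha, fun z hz => by rw [hG z hz, he z hz]⟩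

theorem Dv.schwarz {K : ℕ} {F : ℂ → ℂ} (h : Dv K F) {M : ℝ} (hM : ∀ z : ℂ, ‖z‖ = 1 → ‖F z‖ ≤ M)
    {z : ℂ} (hz : ‖z‖ ≤ 1) : ‖F z‖ ≤ M * ‖z‖ ^ K := by
  obtain ⟨h, ha, he⟩ := h
  have h1 := Pool.Agent.Helper58.LD.norm_le_of_circle ha (M := M) (fun w hw => by
    have h2 := hM w hw
    rwa [he w hw.le, norm_mul, norm_pow, hw, one_pow, one_mul] at h2) hz
  rw [he z hz, norm_mul, norm_pow, mul_comm]
  exact mul_le_mul_of_nonneg_right h1 (by positivity)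

theorem Dv.schwarz_w {K : ℕ} {F f : ℂ → ℂ} (h : Dv K F) (hf : AnalyticOnNhd ℂ f (closedBall 0 1))
    (fne : ∀ z : ℂ, ‖z‖ ≤ 1 → f z ≠ 0) {M : ℝ} (hM : ∀ z : ℂ, ‖z‖ = 1 → ‖F z‖ ≤ M * ‖f z‖)
    {z : ℂ} (hz : ‖z‖ ≤ 1) : ‖F z‖ ≤ M * ‖f z‖ * ‖z‖ ^ K := by
  have ha : AnalyticOnNhd ℂ (fun z => (f z)⁻¹) (closedBall 0 1) := fun w hw =>
    (hf w hw).inv (fne w (by simpa using hw))
  have h1 := (h.mul ha).schwarz (M := M) (fun w hw => by
    have h2 : 0 < ‖f w‖ := norm_pos_iff.2 (fne w hw.le)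
    rw [norm_mul, norm_inv, ← div_eq_mul_inv, div_le_iff₀ h2]
    exact hM w hw) hz
  have h2 : 0 < ‖f z‖ := norm_pos_iff.2 (fne z hz)
  rw [norm_mul, norm_inv, ← div_eq_mul_inv, div_le_iff₀ h2] at h1
  linarith [mul_right_comm M (‖z‖ ^ K) ‖f z‖]

variable {K m m₀ : ℕ} {b d b₀ d₀ : ℂ[X]}

private theorem eval_dvd {p q : ℂ[X]} (h : (X ^ K : ℂ[X]) ∣ p - q) :
    ∃ r : ℂ[X], ∀ z : ℂ, p.eval z - q.eval z = z ^ K * r.eval z := by
  obtain ⟨r, hr⟩ := h
  refine ⟨r, fun z => ?_⟩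
  rw [← eval_sub, hr, eval_mul, eval_pow, eval_X]

theorem div_Bq (h : Pair m b d) (h₀ : Pair m₀ b₀ d₀) (hb : (X ^ K : ℂ[X]) ∣ b - b₀)
    (hd : (X ^ K : ℂ[X]) ∣ d - d₀) : Dv K (fun z => Bq b d z - Bq b₀ d₀ z) := by
  obtain ⟨q, hq⟩ := eval_dvd hb
  obtain ⟨r, hr⟩ := eval_dvd hd
  refine ⟨fun z => (q * d₀ - b₀ * r).eval z / (d * d₀).eval z, ?_, fun z hz => ?_⟩
  · refine quot_an fun z hz => ?_
    rw [eval_mul]
    exact mul_ne_zero (h.ne z hz) (h₀.ne z hz)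
  · have e1 := h.ne z hz
    have e2 := h₀.ne z hz
    show b.eval z / d.eval z - b₀.eval z / d₀.eval z =
      z ^ K * ((q * d₀ - b₀ * r).eval z / (d * d₀).eval z)
    rw [eval_mul, eval_sub, eval_mul, eval_mul, div_sub_div _ _ e1 e2, ← mul_div_assoc]
    congr 1
    have a1 := hq z
    have a2 := hr z
    linear_combination (d₀.eval z) * a1 - (b₀.eval z) * a2

/-- general composition lemma -/
private theorem div_gen {u v G : ℂ → ℂ} (hu : AnalyticOnNhd ℂ u (closedBall 0 1))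
    (hv : AnalyticOnNhd ℂ v (closedBall 0 1)) (hD : Dv K (fun z => u z - v z))
    (hGu : AnalyticOnNhd ℂ (fun z => G (u z)) (closedBall 0 1))
    (hGv : AnalyticOnNhd ℂ (fun z => G (v z)) (closedBall 0 1))
    (hG : AnalyticAt ℂ G (u 0)) : Dv K (fun z => G (u z) - G (v z)) := by
  have hA : AnalyticOnNhd ℂ (fun z => G (u z) - G (v z)) (closedBall 0 1) := hGu.sub hGv
  rcases Nat.eq_zero_or_pos K with rfl | hK
  · refine Dv.of_isBigO hA ?_
    simp only [pow_zero]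
    exact (hA 0 (by simp)).continuousAt.isBigO_one ℂ
  · refine Dv.of_isBigO hA ?_
    have h0 : u 0 = v 0 := by
      obtain ⟨g, -, hg⟩ := hD
      have := hg 0 (by simp)
      rw [zero_pow hK.ne', zero_mul] at this
      exact sub_eq_zero.1 this
    have h1 := hG.hasStrictDerivAt.hasStrictFDerivAt.isBigO_sub
    have h2 : Tendsto (fun z => (u z, v z)) (𝓝 0) (𝓝 (u 0, u 0)) := by
      refine Tendsto.prodMk_nhds (hu 0 (by simp)).continuousAt.tendsto ?_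
      rw [h0]
      exact (hv 0 (by simp)).continuousAt.tendsto
    exact (h1.comp_tendsto h2).trans hD.isBigO

theorem div_comp (h : Pair m b d) (h₀ : Pair m₀ b₀ d₀) (hb : (X ^ K : ℂ[X]) ∣ b - b₀)
    (hd : (X ^ K : ℂ[X]) ∣ d - d₀) {G : ℂ → ℂ} (hG : ∀ w : ℂ, ‖w‖ < 1 → DifferentiableAt ℂ G w) :
    Dv K (fun z => G (Bq b d z) - G (Bq b₀ d₀ z)) := by
  refine div_gen (Bq_an h) (Bq_an h₀) (div_Bq h h₀ hb hd) (comp_an h hG) (comp_an h₀ hG) ?_
  have h2 : DifferentiableOn ℂ G (ball 0 1) := fun w hw =>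
    (hG w (by simpa using hw)).differentiableWithinAt
  exact h2.analyticAt (isOpen_ball.mem_nhds (by simpa using Bq_lt h (z := 0) (by simp)))

theorem div_jj (l : ℕ) (h : Pair m b d) (h₀ : Pair m₀ b₀ d₀) (hb : (X ^ K : ℂ[X]) ∣ b - b₀)
    (hd : (X ^ K : ℂ[X]) ∣ d - d₀) : Dv K (fun z => jj l b d z - jj l b₀ d₀ z) := by
  have hG : ∀ w : ℂ, ‖w‖ < 1 → DifferentiableAt ℂ (fun w => thD w ^ l / (1 - lamD w)) w :=
    fun w hw => ((Pool.Agent.Helper84.Lam.diff_thD hw).pow l).div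
      ((differentiableAt_const 1).sub (diff_lamD hw)) (one_sub_lamD_ne hw)
  have h1 := div_comp h h₀ hb hd hG
  have hd1 : Dv K (fun z => d.eval z - d₀.eval z) := by
    obtain ⟨r, hr⟩ := eval_dvd hd
    exact ⟨fun z => r.eval z, poly_an r _, fun z _ => hr z⟩
  have hi : ∀ {e : ℂ[X]}, (∀ z : ℂ, ‖z‖ ≤ 1 → e.eval z ≠ 0) →
      AnalyticOnNhd ℂ (fun z => ((e.eval z ^ 2)⁻¹) ^ l) (closedBall 0 1) := fun {e} he z hz =>
    (((poly_an e _ z hz).pow 2).inv (pow_ne_zero _ (he z (by simpa using hz)))).pow l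
  have h2 : Dv K (fun z => ((d.eval z ^ 2)⁻¹) ^ l - ((d₀.eval z ^ 2)⁻¹) ^ l) :=
    div_gen (G := fun w => ((w ^ 2)⁻¹) ^ l) (poly_an d _) (poly_an d₀ _) hd1 (hi h.ne) (hi h₀.ne)
      (((analyticAt_id.pow 2).inv (pow_ne_zero _ (h.ne 0 (by simp)))).pow l)
  have h3 := (h1.mul (hi h.ne)).add (h2.mul (comp_an h₀ hG))
  refine h3.congr fun z hz => ?_
  unfold jj
  simp only [div_pow, inv_pow]
  have e1 := h.ne z hz
  have e2 := h₀.ne z hz
  have e3 := one_sub_lamD_ne (Bq_lt h hz)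
  have e4 := one_sub_lamD_ne (Bq_lt h₀ hz)
  field_simp
  ring

end Pool.Agent.Helper81.QF
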