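import Pool.Agent.Helper81.QF.Run.Rn
import Pool.Agent.Helper81.QF.Run.Div
import Pool.Agent.Helper29.QF.JJ
import Pool.Agent.Helper29.QF.EE

/-!
# QF-R12: the state after the RUN phase is a `Mid`

`X = X0 y * cR y ^ j`, `exp (y^16) y^720 ≤ X ≤ exp (2 y^16)` (hypothesis).
* `core`: `Rn.core`.   * `wlow`: `X dl ≥ X0 y (cR y/y)^j dl₀ ≥ exp (y^16) dl₀ ≥ 1` (`dlge`, `cR y ≥ y`).   * `Ysup`: `Rn.Ybd`.
* `V`: `|P| ee(B) = |P₀| ee(B₀) (YD B/YD B₀)^l (dl₀/dl)^l ≤ (exp(y^16) 2.5 y^128 y^j)^l |f₀| ≤ X^l |f|` (as in Sizes; `jj_norm`, `Pj`;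
  `2.5 y^128 2 ≤ y^720`).
* `flog`: `Rn.fj`: `|log|f| - log|f₀|| ≤ 2 j/y^50 ≤ 1` (`flog_diff`), `y^160 + 1 ≤ 2 y^160`.
* `Yend`: cold: `≤ 24 y^6 + y^4 ≤ y^112`; hot: `≤ YD B₀ + 1`.
* `xi_diff`: `xi l b d f z - xi l b₀ d₀ f₀ z = log|f/f₀| + log|jj/jj₀|`, `log_jj` twice: hot: each of `l |log YD - log YD₀|`
  (`|YD - YD₀| ≤ 1 ≤ YD₀`, so `≤ l`), `l (log dl₀ - log dl) ≤ l`, `|log ee - log ee₀| ≤ 1`; cold: `l log (..) ≤ l 7 log y ..`,
  `l j log y ≤ l y^4 log y`, `|log ee| ≤ (7 + 9 l) YD ≤ (7 + 9 l) 25 y^6`. Total `≤ y^7` for `y ≥ y₀(l)`.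
* `closeR`: `K = K0 y ≥ X0 y` (`kd_ge`). `B`: `div_Bq`, `Dv.schwarz` with `M = 2`. `f`: `fj`. `P`: `P - P₀ = P₀ (jj - jj₀)/jj₀` is divisible by
  `z^K` (`div_jj`, `Dv.mul`, `jj_an`, `jj_ne`), on the circle `|P| ≤ X^l |f|/ee(B) ≤ exp(2 l y^16 + 2 y^160 + (7 + 9l) 2 y^128)` and the same for
  `P₀`: `≤ exp (y^300)/2`.
-/

set_option autoImplicit false

namespace Pool.Agent.Helper81.QF

open Polynomial Metric Complex
open Pool.Agent.Helper84.Lam Pool.Agent.Helper29.QF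

private lemma re_le_one {y t : ℝ} {j : ℕ} (hy : 30 ≤ y) (hj : (j : ℝ) ≤ y ^ 4)
    (h : t * y ^ 50 ≤ j) : t ≤ 1 := by
  have hy1 : 1 ≤ y := by linarith
  have h4 : y ^ 4 ≤ y ^ 50 := pow_le_pow_right₀ hy1 (by norm_num)
  have h50 : 0 < y ^ 50 := by positivity
  by_contra hcon
  push Not at hcon
  have : y ^ 50 < t * y ^ 50 := by nlinarith
  linarith

private lemma re_y_le_cR {y : ℝ} (hy : 30 ≤ y) : y ≤ cR y := by
  unfold cR
  have h2 : (2 : ℝ) ≤ pR y := by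
    unfold pR
    push_cast
    have : (0 : ℝ) ≤ (⌈1000 * Real.log y⌉₊ : ℝ) := Nat.cast_nonneg _
    linarith
  nlinarith

private lemma re_log_abs {a b : ℝ} (ha : 0 < a) (hb : 0 < b) (h1 : a ≤ 2 * b) (h2 : b ≤ 2 * a) :
    |Real.log a - Real.log b| ≤ 1 := by
  have hl2 : Real.log 2 ≤ 1 := by
    have := Real.log_two_lt_d9
    linarith
  have e1 : Real.log a ≤ Real.log 2 + Real.log b := by
    rw [← Real.log_mul (by norm_num) hb.ne']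
    exact Real.log_le_log ha h1
  have e2 : Real.log b ≤ Real.log 2 + Real.log a := by
    rw [← Real.log_mul (by norm_num) ha.ne']
    exact Real.log_le_log hb h2
  rw [abs_le]
  constructor <;> linarith

private lemma re_flog {l : ℕ} {C₃ y : ℝ} (hy : 30 ≤ y) {m₀ : ℕ} {b₀ d₀ : ℂ[X]} {f₀ P₀ : ℂ → ℂ}
    (h₀ : St l C₃ y m₀ b₀ d₀ f₀ P₀) {j m : ℕ} {b d : ℂ[X]} {f P : ℂ → ℂ} (hj : (j : ℝ) ≤ y ^ 4)
    (h : Rn l y b₀ d₀ f₀ P₀ j m b d f P) {z : ℂ} (hz : ‖z‖ ≤ 1) :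
    |Real.log ‖f z‖ - Real.log ‖f₀ z‖| ≤ 1 := by
  have h1 := h.fbd hy hj hz
  exact re_log_abs (norm_pos_iff.2 (h.core.fne z hz)) (norm_pos_iff.2 (h₀.core.fne z hz)) h1.1 h1.2

private lemma re_Vnum {l : ℕ} (hl : 1 ≤ l) {y E Y Y₀ w w₀ p₀ F F₀ J₀ yj X : ℝ}
    (hy : 30 ≤ y) (hE : 0 ≤ E) (hY0 : 0 ≤ Y) (hY : Y ≤ 2 * y ^ 128) (hY₀ : 0.8 ≤ Y₀) (hw : 0 < w)
    (hw₀ : 0 ≤ w₀) (hww : w₀ ≤ yj * w) (hp₀ : 0 ≤ p₀) (hF : 0 ≤ F) (hFF : F₀ ≤ 2 * F) (hF₀ : 0 ≤ F₀)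
    (hJ₀ : 0 ≤ J₀) (hyj : 0 ≤ yj) (hX : E * y ^ 720 * yj ≤ X)
    (hV : p₀ * (2 * Real.pi * Y₀) ^ l ≤ E ^ l * (F₀ * J₀ * w₀ ^ l)) :
    p₀ * (2 * Real.pi * Y) ^ l ≤ X ^ l * (F * J₀ * w ^ l) := by
  have hpi := Real.pi_pos
  have hy1 : 1 ≤ y := by linarith
  have h1 : (2 * Real.pi * Y) ^ l ≤ (2 * Real.pi * Y₀) ^ l * (2.5 * y ^ 128) ^ l := by
    rw [← mul_pow]
    refine pow_le_pow_left₀ (by positivity) ?_ l
    have h2 : Y ≤ Y₀ * (2.5 * y ^ 128) := by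
      have h3 : 0 ≤ y ^ 128 := by positivity
      nlinarith
    calc 2 * Real.pi * Y ≤ 2 * Real.pi * (Y₀ * (2.5 * y ^ 128)) :=
          mul_le_mul_of_nonneg_left h2 (by positivity)
      _ = _ := by ring
  have h2 : w₀ ^ l ≤ yj ^ l * w ^ l := by
    rw [← mul_pow]
    exact pow_le_pow_left₀ hw₀ hww l
  have h3 : 2 * (2.5 * y ^ 128) ^ l ≤ (y ^ 720) ^ l := by
    have h4 : (2 : ℝ) ≤ 2 ^ l := by
      calc (2 : ℝ) = 2 ^ 1 := by norm_num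
        _ ≤ 2 ^ l := pow_le_pow_right₀ (by norm_num) hl
    calc 2 * (2.5 * y ^ 128) ^ l ≤ 2 ^ l * (2.5 * y ^ 128) ^ l :=
          mul_le_mul_of_nonneg_right h4 (by positivity)
      _ = (5 * y ^ 128) ^ l := by rw [← mul_pow]; congr 1; ring
      _ ≤ (y ^ 720) ^ l := by
          refine pow_le_pow_left₀ (by positivity) ?_ l
          have e : y ^ 720 = y ^ 592 * y ^ 128 := by rw [← pow_add]
          rw [e]
          refine mul_le_mul_of_nonneg_right ?_ (by positivity)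
          calc (5 : ℝ) ≤ y := by linarith
            _ = y ^ 1 := (pow_one y).symm
            _ ≤ y ^ 592 := pow_le_pow_right₀ hy1 (by norm_num)
  calc p₀ * (2 * Real.pi * Y) ^ l ≤ p₀ * ((2 * Real.pi * Y₀) ^ l * (2.5 * y ^ 128) ^ l) :=
        mul_le_mul_of_nonneg_left h1 hp₀
    _ = (p₀ * (2 * Real.pi * Y₀) ^ l) * (2.5 * y ^ 128) ^ l := by ring
    _ ≤ (E ^ l * (F₀ * J₀ * w₀ ^ l)) * (2.5 * y ^ 128) ^ l :=
        mul_le_mul_of_nonneg_right hV (by positivity)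
    _ = (E ^ l * (2.5 * y ^ 128) ^ l * J₀) * (F₀ * w₀ ^ l) := by ring
    _ ≤ (E ^ l * (2.5 * y ^ 128) ^ l * J₀) * ((2 * F) * (yj ^ l * w ^ l)) := by
        refine mul_le_mul_of_nonneg_left ?_ (by positivity)
        exact mul_le_mul hFF h2 (by positivity) (by positivity)
    _ = (2 * (2.5 * y ^ 128) ^ l) * (E ^ l * yj ^ l * (F * J₀ * w ^ l)) := by ring
    _ ≤ (y ^ 720) ^ l * (E ^ l * yj ^ l * (F * J₀ * w ^ l)) :=
        mul_le_mul_of_nonneg_right h3 (by positivity)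
    _ = (E * y ^ 720 * yj) ^ l * (F * J₀ * w ^ l) := by
        rw [mul_pow, mul_pow]; ring
    _ ≤ X ^ l * (F * J₀ * w ^ l) :=
        mul_le_mul_of_nonneg_right (pow_le_pow_left₀ (by positivity) hX l) (by positivity)

private lemma re_V {l : ℕ} (hl : 1 ≤ l) {C₃ y : ℝ} (hy : 30 ≤ y) {m₀ : ℕ} {b₀ d₀ : ℂ[X]}
    {f₀ P₀ : ℂ → ℂ} (h₀ : St l C₃ y m₀ b₀ d₀ f₀ P₀) {j m : ℕ} {b d : ℂ[X]} {f P : ℂ → ℂ}
    (hj : (j : ℝ) ≤ y ^ 4) (h : Rn l y b₀ d₀ f₀ P₀ j m b d f P) {z : ℂ} (hz : ‖z‖ = 1) :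
    ‖P z‖ * ee l (Bq b d z) ≤ (X0 y * cR y ^ j) ^ l * ‖f z‖ := by
  have hy0 : 0 ≤ y := by linarith
  have hz1 := hz.le
  have hJ : 0 < ‖jj l b d z‖ := norm_pos_iff.2 (jj_ne h.core.pair l hz1)
  have hJ₀ : 0 < ‖jj l b₀ d₀ z‖ := norm_pos_iff.2 (jj_ne h₀.core.pair l hz1)
  have hP : ‖P z‖ * ‖jj l b₀ d₀ z‖ = ‖P₀ z‖ * ‖jj l b d z‖ := by
    rw [← norm_mul, ← norm_mul, h.Pj z hz1]
  have hV := (V_iff h₀.core.pair l hz1 _ _ _).1 (h₀.V z hz)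
  have hfb := h.fbd hy hj hz1
  have hXle : Real.exp (y ^ 16) * y ^ 720 * y ^ j ≤ X0 y * cR y ^ j := by
    unfold X0
    exact mul_le_mul_of_nonneg_left (pow_le_pow_left₀ hy0 (re_y_le_cR hy) j) (by positivity)
  have hYl := YD_lower (Bq_lt h.core.pair hz1)
  have hYl₀ := YD_lower (Bq_lt h₀.core.pair hz1)
  have key := re_Vnum (X := X0 y * cR y ^ j) hl hy (Real.exp_pos _).le (by linarith)
    (h.Ybd hy h₀ hj hz) hYl₀ (dl_pos h.core.pair hz1) (dl_pos h₀.core.pair hz1).le (h.dlge z hz)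
    (norm_nonneg (P₀ z)) (norm_nonneg (f z)) hfb.2 (norm_nonneg (f₀ z)) (norm_nonneg (jj l b₀ d₀ z))
    (by positivity) hXle hV
  rw [V_iff h.core.pair l hz1]
  have h5 := mul_le_mul_of_nonneg_left key hJ.le
  have h6 : (‖P z‖ * (2 * Real.pi * YD (Bq b d z)) ^ l) * ‖jj l b₀ d₀ z‖ ≤
      ((X0 y * cR y ^ j) ^ l * (‖f z‖ * ‖jj l b d z‖ * dl b d z ^ l)) * ‖jj l b₀ d₀ z‖ := by
    calc (‖P z‖ * (2 * Real.pi * YD (Bq b d z)) ^ l) * ‖jj l b₀ d₀ z‖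
        = (‖P z‖ * ‖jj l b₀ d₀ z‖) * (2 * Real.pi * YD (Bq b d z)) ^ l := by ring
      _ = ‖jj l b d z‖ * (‖P₀ z‖ * (2 * Real.pi * YD (Bq b d z)) ^ l) := by rw [hP]; ring
      _ ≤ ‖jj l b d z‖ * ((X0 y * cR y ^ j) ^ l *
          (‖f z‖ * ‖jj l b₀ d₀ z‖ * dl b d z ^ l)) := h5
      _ = _ := by ring
  exact le_of_mul_le_mul_right h6 hJ₀

private lemma re_mid {l : ℕ} (hl : 1 ≤ l) {C₃ y : ℝ} (hy : 30 ≤ y) {m₀ : ℕ} {b₀ d₀ : ℂ[X]}
    {f₀ P₀ : ℂ → ℂ} (h₀ : St l C₃ y m₀ b₀ d₀ f₀ P₀) {j m : ℕ} {b d : ℂ[X]} {f P : ℂ → ℂ}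
    (hj : (j : ℝ) ≤ y ^ 4) (h : Rn l y b₀ d₀ f₀ P₀ j m b d f P)
    (hX : X0 y * cR y ^ j ≤ Real.exp (2 * y ^ 16)) : Mid l y (X0 y * cR y ^ j) m b d f P := by
  have hy0 : 0 ≤ y := by linarith
  have hy1 : 1 ≤ y := by linarith
  have hc1 : 1 ≤ cR y := hy1.trans (re_y_le_cR hy)
  have hE := Real.exp_pos (y ^ 16)
  have h720 : 1 ≤ y ^ 720 := one_le_pow₀ hy1
  refine ⟨h.core, ?_, hX, fun z hz => ?_, fun z hz => h.Ybd hy h₀ hj hz,
    fun z hz => re_V hl hy h₀ hj h hz, fun z hz => ?_⟩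
  · unfold X0
    have h1 : 1 ≤ cR y ^ j := one_le_pow₀ hc1
    have h2 : 1 ≤ y ^ 720 * cR y ^ j := by nlinarith
    calc Real.exp (y ^ 16) = Real.exp (y ^ 16) * 1 := by ring
      _ ≤ Real.exp (y ^ 16) * (y ^ 720 * cR y ^ j) := mul_le_mul_of_nonneg_left h2 hE.le
      _ = _ := by ring
  · have h1 := h₀.wlow z hz
    have h2 := h.dlge z hz
    have h3 := dl_pos h.core.pair hz.le
    have h4 : y ^ j ≤ cR y ^ j := pow_le_pow_left₀ hy0 (re_y_le_cR hy) j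
    unfold X0
    calc 1 ≤ Real.exp (y ^ 16) * dl b₀ d₀ z := h1
      _ ≤ Real.exp (y ^ 16) * (y ^ j * dl b d z) := mul_le_mul_of_nonneg_left h2 hE.le
      _ ≤ Real.exp (y ^ 16) * ((y ^ 720 * cR y ^ j) * dl b d z) := by
          refine mul_le_mul_of_nonneg_left (mul_le_mul_of_nonneg_right ?_ h3.le) hE.le
          have h5 : 0 ≤ cR y ^ j := by positivity
          nlinarith
      _ = _ := by ring
  · have h1 := re_flog hy h₀ hj h hz.le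
    have h2 := h₀.flog z hz
    have h3 : 1 ≤ y ^ 160 := one_le_pow₀ hy1
    have h4 := abs_sub_abs_le_abs_sub (Real.log ‖f z‖) (Real.log ‖f₀ z‖)
    linarith

private lemma re_Pbd {l : ℕ} {v : ℂ} (hv : ‖v‖ < 1) {p f X A F U : ℝ} (hX0 : 0 ≤ X) (hp : 0 ≤ p)
    (hf : 0 < f)
    (hV : p * ee l v ≤ X ^ l * f) (hX : X ≤ Real.exp A) (hF : |Real.log f| ≤ F) (hU : YD v ≤ U) :
    p ≤ Real.exp (l * A + F + (7 + 9 * l) * U) := by
  have he := Pool.Agent.Helper29.QF.ee_pos l hv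
  have h1 := Pool.Agent.Helper29.QF.abs_log_ee l hv
  have hl : (0 : ℝ) ≤ l := Nat.cast_nonneg l
  have h2 : Real.exp (-((7 + 9 * l) * U)) ≤ ee l v := by
    rw [← Real.exp_log he]
    refine Real.exp_le_exp.2 ?_
    have h3 := (abs_le.1 h1).1
    have h4 : (7 + 9 * (l : ℝ)) * YD v ≤ (7 + 9 * l) * U := mul_le_mul_of_nonneg_left hU (by linarith)
    linarith
  have h3 : f ≤ Real.exp F := by
    rw [← Real.exp_log hf]
    exact Real.exp_le_exp.2 (abs_le.1 hF).2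
  have h4 : X ^ l ≤ Real.exp (l * A) := by
    rw [Real.exp_nat_mul]
    exact pow_le_pow_left₀ hX0 hX l
  have h5 : p * Real.exp (-((7 + 9 * l) * U)) ≤ Real.exp (l * A) * Real.exp F := by
    calc p * Real.exp (-((7 + 9 * l) * U)) ≤ p * ee l v := mul_le_mul_of_nonneg_left h2 hp
      _ ≤ X ^ l * f := hV
      _ ≤ Real.exp (l * A) * Real.exp F := mul_le_mul h4 h3 hf.le (Real.exp_pos _).le
  have h6 : p = (p * Real.exp (-((7 + 9 * l) * U))) * Real.exp ((7 + 9 * l) * U) := by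
    rw [mul_assoc, ← Real.exp_add]
    simp
  rw [h6]
  calc (p * Real.exp (-((7 + 9 * l) * U))) * Real.exp ((7 + 9 * l) * U)
      ≤ (Real.exp (l * A) * Real.exp F) * Real.exp ((7 + 9 * l) * U) :=
        mul_le_mul_of_nonneg_right h5 (Real.exp_pos _).le
    _ = Real.exp (l * A + F + (7 + 9 * l) * U) := by
        rw [← Real.exp_add, ← Real.exp_add]

private lemma re_log_YD {v : ℂ} (hv : ‖v‖ < 1) {U : ℝ} (hU : YD v ≤ U) :
    -1 ≤ Real.log (YD v) ∧ Real.log (YD v) ≤ U := by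
  have h1 := YD_lower hv
  constructor
  · have h2 : Real.log 0.8 ≤ Real.log (YD v) := Real.log_le_log (by norm_num) h1
    have h3 := Real.one_sub_inv_le_log_of_pos (x := 0.8) (by norm_num)
    norm_num at h3
    norm_num at h2
    linarith
  · have h2 := Real.log_le_sub_one_of_pos (x := YD v) (by linarith)
    linarith

theorem mid_of_rn {l : ℕ} (hl : 1 ≤ l) : ∃ y₀ : ℝ, 30 ≤ y₀ ∧ ∀ y : ℝ, y₀ ≤ y →
    ∀ (C₃ : ℝ) (m₀ : ℕ) (b₀ d₀ : ℂ[X]) (f₀ P₀ : ℂ → ℂ), St l C₃ y m₀ b₀ d₀ f₀ P₀ →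
    ∀ (j m : ℕ) (b d : ℂ[X]) (f P : ℂ → ℂ), (j : ℝ) ≤ y ^ 4 → Rn l y b₀ d₀ f₀ P₀ j m b d f P →
      X0 y * cR y ^ j ≤ Real.exp (2 * y ^ 16) → Mid l y (X0 y * cR y ^ j) m b d f P := by
  refine ⟨30, le_refl _, ?_⟩
  intro y hy C₃ m₀ b₀ d₀ f₀ P₀ h₀ j m b d f P hj h hX
  exact re_mid hl hy h₀ hj h hX

theorem Yend {l : ℕ} : ∃ y₀ : ℝ, 30 ≤ y₀ ∧ ∀ y : ℝ, y₀ ≤ y →
    ∀ (b₀ d₀ : ℂ[X]) (f₀ P₀ : ℂ → ℂ) (j m : ℕ) (b d : ℂ[X]) (f P : ℂ → ℂ), (j : ℝ) ≤ y ^ 4 →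
      Rn l y b₀ d₀ f₀ P₀ j m b d f P → ∀ z : ℂ, ‖z‖ = 1 →
        YD (Bq b d z) ≤ YD (Bq b₀ d₀ z) + 1 ∨ YD (Bq b d z) ≤ y ^ 112 := by
  refine ⟨30, le_refl _, ?_⟩
  intro y hy b₀ d₀ f₀ P₀ j m b d f P hj h z hz
  have hy1 : 1 ≤ y := by linarith
  rcases le_total (YD (Bq b₀ d₀ z)) (3 * y ^ 5) with hc | hc
  · right
    have h1 := h.cold z hz hc
    have h2 : y ^ 4 ≤ y ^ 6 := pow_le_pow_right₀ hy1 (by norm_num)
    have h3 : 25 * y ^ 6 ≤ y ^ 112 := by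
      have e : y ^ 112 = y ^ 106 * y ^ 6 := by rw [← pow_add]
      rw [e]
      refine mul_le_mul_of_nonneg_right ?_ (by positivity)
      calc (25 : ℝ) ≤ y := by linarith
        _ = y ^ 1 := (pow_one y).symm
        _ ≤ y ^ 106 := pow_le_pow_right₀ hy1 (by norm_num)
    linarith
  · left
    have h1 := (abs_le.1 (re_le_one hy hj (h.hotY z hz hc))).2
    linarith

theorem flog_diff {l : ℕ} : ∃ y₀ : ℝ, 30 ≤ y₀ ∧ ∀ y : ℝ, y₀ ≤ y →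
    ∀ (C₃ : ℝ) (m₀ : ℕ) (b₀ d₀ : ℂ[X]) (f₀ P₀ : ℂ → ℂ), St l C₃ y m₀ b₀ d₀ f₀ P₀ →
    ∀ (j m : ℕ) (b d : ℂ[X]) (f P : ℂ → ℂ), (j : ℝ) ≤ y ^ 4 →
      Rn l y b₀ d₀ f₀ P₀ j m b d f P → ∀ z : ℂ, ‖z‖ ≤ 1 →
        |Real.log ‖f z‖ - Real.log ‖f₀ z‖| ≤ 1 := by
  refine ⟨30, le_refl _, ?_⟩
  intro y hy C₃ m₀ b₀ d₀ f₀ P₀ h₀ j m b d f P hj h z hz
  exact re_flog hy h₀ hj h hz

theorem xi_diff {l : ℕ} : ∃ y₀ : ℝ, 30 ≤ y₀ ∧ ∀ y : ℝ, y₀ ≤ y →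
    ∀ (C₃ : ℝ) (m₀ : ℕ) (b₀ d₀ : ℂ[X]) (f₀ P₀ : ℂ → ℂ), St l C₃ y m₀ b₀ d₀ f₀ P₀ →
    ∀ (j m : ℕ) (b d : ℂ[X]) (f P : ℂ → ℂ), (j : ℝ) ≤ y ^ 4 →
      Rn l y b₀ d₀ f₀ P₀ j m b d f P → ∀ z : ℂ, ‖z‖ = 1 →
        |xi l b d f z - xi l b₀ d₀ f₀ z| ≤ y ^ 7 := by
  refine ⟨max 30 (351 + 477 * l), le_max_left _ _, ?_⟩
  intro y hy C₃ m₀ b₀ d₀ f₀ P₀ h₀ j m b d f P hj h z hz
  have hy30 : 30 ≤ y := (le_max_left _ _).trans hy
  have hyl : 351 + 477 * (l : ℝ) ≤ y := (le_max_right _ _).trans hy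
  have hy1 : 1 ≤ y := by linarith
  have hz1 := hz.le
  have hl : (0 : ℝ) ≤ l := Nat.cast_nonneg l
  have hpi := Real.pi_pos
  have hp := h.core.pair
  have hp₀ := h₀.core.pair
  have hB := Bq_lt hp hz1
  have hB₀ := Bq_lt hp₀ hz1
  have hY := YD_lower hB
  have hY₀ := YD_lower hB₀
  have hf := norm_pos_iff.2 (h.core.fne z hz1)
  have hf₀ := norm_pos_iff.2 (h₀.core.fne z hz1)
  have hJ := norm_pos_iff.2 (jj_ne hp l hz1)
  have hJ₀ := norm_pos_iff.2 (jj_ne hp₀ l hz1)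
  have e1 : xi l b d f z = Real.log ‖f z‖ + (l * (Real.log (2 * Real.pi) +
      Real.log (YD (Bq b d z))) - l * Real.log (dl b d z) - Real.log (ee l (Bq b d z))) := by
    unfold xi
    rw [norm_mul, Real.log_mul hf.ne' hJ.ne', log_jj hp l hz1,
      Real.log_mul (by positivity) (by linarith)]
  have e2 : xi l b₀ d₀ f₀ z = Real.log ‖f₀ z‖ + (l * (Real.log (2 * Real.pi) +
      Real.log (YD (Bq b₀ d₀ z))) - l * Real.log (dl b₀ d₀ z) -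
      Real.log (ee l (Bq b₀ d₀ z))) := by
    unfold xi
    rw [norm_mul, Real.log_mul hf₀.ne' hJ₀.ne', log_jj hp₀ l hz1,
      Real.log_mul (by positivity) (by linarith)]
  have hF := abs_le.1 (re_flog hy30 h₀ hj h hz1)
  have hd := dl_pos hp hz1
  have hd₀ := dl_pos hp₀ hz1
  have hD0 : 0 ≤ Real.log (dl b₀ d₀ z) - Real.log (dl b d z) := by
    have := Real.log_le_log hd (h.dlle z hz)
    linarith
  have h6 : 0 ≤ y ^ 6 := by positivity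
  have h61 : 1 ≤ y ^ 6 := one_le_pow₀ hy1
  have h7 : (351 + 477 * (l : ℝ)) * y ^ 6 ≤ y ^ 7 := by
    calc (351 + 477 * (l : ℝ)) * y ^ 6 ≤ y * y ^ 6 := mul_le_mul_of_nonneg_right hyl h6
      _ = y ^ 7 := by ring
  have hly : (l : ℝ) ≤ l * y ^ 6 := by nlinarith
  -- reduce to bounds of the three differences
  obtain ⟨D, hD1, hD2, hD3, hD4⟩ : ∃ D : ℝ, 0 ≤ D ∧
      |Real.log (YD (Bq b d z)) - Real.log (YD (Bq b₀ d₀ z))| ≤ 26 * y ^ 6 ∧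
      Real.log (dl b₀ d₀ z) - Real.log (dl b d z) ≤ y ^ 6 ∧
      |Real.log (ee l (Bq b d z)) - Real.log (ee l (Bq b₀ d₀ z))| ≤ (350 + 450 * l) * y ^ 6 := by
    rcases le_total (YD (Bq b₀ d₀ z)) (3 * y ^ 5) with hc | hc
    · have hcold := h.cold z hz hc
      have h46 : y ^ 4 ≤ y ^ 6 := pow_le_pow_right₀ hy1 (by norm_num)
      have h56 : 3 * y ^ 5 ≤ y ^ 6 := by
        calc 3 * y ^ 5 ≤ y * y ^ 5 := mul_le_mul_of_nonneg_right (by linarith) (by positivity)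
          _ = y ^ 6 := by ring
      have hU : YD (Bq b d z) ≤ 25 * y ^ 6 := by linarith
      have hU₀ : YD (Bq b₀ d₀ z) ≤ 25 * y ^ 6 := by linarith
      refine ⟨0, le_refl _, ?_, ?_, ?_⟩
      · have a1 := re_log_YD hB hU
        have a2 := re_log_YD hB₀ hU₀
        rw [abs_le]
        constructor <;> linarith [a1.1, a1.2, a2.1, a2.2]
      · have a1 : Real.log (dl b₀ d₀ z) ≤ j * Real.log y + Real.log (dl b d z) := by
          rw [← Real.log_pow, ← Real.log_mul (by positivity) hd.ne']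
          exact Real.log_le_log hd₀ (h.dlge z hz)
        have a2 : Real.log y ≤ y := by
          have := Real.log_le_sub_one_of_pos (x := y) (by linarith)
          linarith
        have a3 : (j : ℝ) * Real.log y ≤ y ^ 4 * y :=
          mul_le_mul hj a2 (Real.log_nonneg hy1) (by positivity)
        have a4 : y ^ 4 * y ≤ y ^ 6 := by
          calc y ^ 4 * y = y ^ 5 := by ring
            _ ≤ y ^ 6 := pow_le_pow_right₀ hy1 (by norm_num)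
        linarith
      · have a1 := Pool.Agent.Helper29.QF.abs_log_ee l hB
        have a2 := Pool.Agent.Helper29.QF.abs_log_ee l hB₀
        have a3 : (7 + 9 * (l : ℝ)) * YD (Bq b d z) ≤ (7 + 9 * l) * (25 * y ^ 6) :=
          mul_le_mul_of_nonneg_left hU (by linarith)
        have a4 : (7 + 9 * (l : ℝ)) * YD (Bq b₀ d₀ z) ≤ (7 + 9 * l) * (25 * y ^ 6) :=
          mul_le_mul_of_nonneg_left hU₀ (by linarith)
        have a5 := abs_le.1 a1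
        have a6 := abs_le.1 a2
        rw [abs_le]
        constructor <;> linarith [a5.1, a5.2, a6.1, a6.2]
    · have hhot := re_le_one hy30 hj (h.hotY z hz hc)
      have hhE := re_le_one hy30 hj (h.hotE z hz hc)
      have hhD := re_le_one hy30 hj (h.hotD z hz hc)
      have a0 : 1 ≤ y ^ 5 := one_le_pow₀ hy1
      have a1 := abs_le.1 hhot
      have a2 := re_log_abs (a := YD (Bq b d z)) (b := YD (Bq b₀ d₀ z)) (by linarith) (by linarith)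
        (by linarith [a1.1, a1.2]) (by linarith [a1.1, a1.2])
      refine ⟨0, le_refl _, by linarith, by linarith, ?_⟩
      have a3 : 0 ≤ (l : ℝ) * y ^ 6 := by positivity
      linarith
  have b1 := abs_le.1 hD2
  have b2 := abs_le.1 hD4
  have c1 : (l : ℝ) * (Real.log (YD (Bq b d z)) - Real.log (YD (Bq b₀ d₀ z))) ≤
      l * (26 * y ^ 6) := mul_le_mul_of_nonneg_left b1.2 hl
  have c2 : (l : ℝ) * (-(26 * y ^ 6)) ≤
      l * (Real.log (YD (Bq b d z)) - Real.log (YD (Bq b₀ d₀ z))) :=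
    mul_le_mul_of_nonneg_left b1.1 hl
  have c3 : (l : ℝ) * (Real.log (dl b₀ d₀ z) - Real.log (dl b d z)) ≤ l * y ^ 6 :=
    mul_le_mul_of_nonneg_left hD3 hl
  have c4 : 0 ≤ (l : ℝ) * (Real.log (dl b₀ d₀ z) - Real.log (dl b d z)) := mul_nonneg hl hD0
  rw [e1, e2, abs_le]
  constructor <;> linarith [hF.1, hF.2, b2.1, b2.2]

theorem closeR {l : ℕ} (hl : 1 ≤ l) : ∃ y₀ : ℝ, 30 ≤ y₀ ∧ ∀ y : ℝ, y₀ ≤ y →
    ∀ (C₃ : ℝ) (m₀ : ℕ) (b₀ d₀ : ℂ[X]) (f₀ P₀ : ℂ → ℂ), St l C₃ y m₀ b₀ d₀ f₀ P₀ →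
    ∀ (j m : ℕ) (b d : ℂ[X]) (f P : ℂ → ℂ), (j : ℝ) ≤ y ^ 4 → Rn l y b₀ d₀ f₀ P₀ j m b d f P →
      X0 y * cR y ^ j ≤ Real.exp (2 * y ^ 16) →
      Close (y ^ 300) (X0 y) b₀ d₀ f₀ P₀ b d f P := by
  refine ⟨max 30 (20 * l + 17), le_max_left _ _, ?_⟩
  intro y hy C₃ m₀ b₀ d₀ f₀ P₀ h₀ j m b d f P hj h hXu
  have hy30 : 30 ≤ y := (le_max_left _ _).trans hy
  have hyl : 20 * (l : ℝ) + 17 ≤ y := (le_max_right _ _).trans hy
  have hy1 : 1 ≤ y := by linarith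
  have hl0 : (0 : ℝ) ≤ l := Nat.cast_nonneg l
  have hp := h.core.pair
  have hp₀ := h₀.core.pair
  have hmid := re_mid hl hy30 h₀ hj h hXu
  have hE1 : 1 ≤ Real.exp (y ^ 16) := Real.one_le_exp (by positivity)
  have hX1 : 1 ≤ X0 y := by
    unfold X0
    have : 1 ≤ y ^ 720 := one_le_pow₀ hy1
    nlinarith
  have hA : 2 ≤ Real.exp (y ^ 300) := by
    have h1 : 1 ≤ y ^ 300 := one_le_pow₀ hy1
    have h2 := Real.add_one_le_exp (y ^ 300)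
    linarith
  -- bound of the exponents
  have hexp : 2 * Real.exp (l * (2 * y ^ 16) + 2 * y ^ 160 + (7 + 9 * l) * (2 * y ^ 128)) ≤
      Real.exp (y ^ 300) := by
    have h1 : (2 : ℝ) ≤ Real.exp 1 := by
      have := Real.add_one_le_exp (1 : ℝ)
      linarith
    calc 2 * Real.exp (l * (2 * y ^ 16) + 2 * y ^ 160 + (7 + 9 * l) * (2 * y ^ 128))
        ≤ Real.exp 1 * Real.exp (l * (2 * y ^ 16) + 2 * y ^ 160 + (7 + 9 * l) * (2 * y ^ 128)) :=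
          mul_le_mul_of_nonneg_right h1 (Real.exp_pos _).le
      _ = Real.exp (1 + (l * (2 * y ^ 16) + 2 * y ^ 160 + (7 + 9 * l) * (2 * y ^ 128))) := by
          rw [← Real.exp_add]
      _ ≤ Real.exp (y ^ 300) := by
          refine Real.exp_le_exp.2 ?_
          have a1 : y ^ 16 ≤ y ^ 160 := pow_le_pow_right₀ hy1 (by norm_num)
          have a2 : y ^ 128 ≤ y ^ 160 := pow_le_pow_right₀ hy1 (by norm_num)
          have a3 : 1 ≤ y ^ 160 := one_le_pow₀ hy1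
          have a4 : (l : ℝ) * (2 * y ^ 16) ≤ l * (2 * y ^ 160) :=
            mul_le_mul_of_nonneg_left (by linarith) hl0
          have a5 : (7 + 9 * (l : ℝ)) * (2 * y ^ 128) ≤ (7 + 9 * l) * (2 * y ^ 160) :=
            mul_le_mul_of_nonneg_left (by linarith) (by linarith)
          have a6 : (20 * (l : ℝ) + 17) * y ^ 160 ≤ y ^ 300 := by
            calc (20 * (l : ℝ) + 17) * y ^ 160 ≤ y * y ^ 160 :=
                  mul_le_mul_of_nonneg_right hyl (by positivity)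
              _ = y ^ 161 := by ring
              _ ≤ y ^ 300 := pow_le_pow_right₀ hy1 (by norm_num)
          linarith
  refine ⟨K0 y, ?_, fun z hz => ⟨?_, ?_, ?_⟩⟩
  · have h1 := kd_ge (y := y) hX1
    unfold K0
    push_cast
    linarith
  · have h1 := (div_Bq hp hp₀ h.dvb h.dvd).schwarz (M := 2) (fun w hw => by
      have := (Bq_lt hp hw.le).le
      have := (Bq_lt hp₀ hw.le).le
      have := norm_sub_le (Bq b d w) (Bq b₀ d₀ w)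
      linarith) hz
    exact h1.trans (mul_le_mul_of_nonneg_right hA (by positivity))
  · have h1 := h.fj z hz
    have h50 : 0 < y ^ 50 := by positivity
    have h4 : y ^ 4 ≤ y ^ 50 := pow_le_pow_right₀ hy1 (by norm_num)
    have hK : 0 ≤ ‖z‖ ^ K0 y := by positivity
    have hf := norm_nonneg (f₀ z)
    have h2 : ‖f z - f₀ z‖ * y ^ 50 ≤ (‖z‖ ^ K0 y * ‖f₀ z‖) * y ^ 50 := by
      calc ‖f z - f₀ z‖ * y ^ 50 ≤ j * ‖z‖ ^ K0 y * ‖f₀ z‖ := h1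
        _ = j * (‖z‖ ^ K0 y * ‖f₀ z‖) := by ring
        _ ≤ y ^ 50 * (‖z‖ ^ K0 y * ‖f₀ z‖) :=
            mul_le_mul_of_nonneg_right (hj.trans h4) (by positivity)
        _ = _ := by ring
    have h3 := le_of_mul_le_mul_right h2 h50
    calc ‖f z - f₀ z‖ ≤ 1 * (‖z‖ ^ K0 y * ‖f₀ z‖) := by linarith
      _ ≤ Real.exp (y ^ 300) * (‖z‖ ^ K0 y * ‖f₀ z‖) :=
          mul_le_mul_of_nonneg_right (by linarith) (by positivity)
      _ = _ := by ring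
  · have hG : AnalyticOnNhd ℂ (fun z => P₀ z / jj l b₀ d₀ z) (closedBall 0 1) := by
      intro w hw
      exact (h₀.core.anP w hw).div (jj_an hp₀ l w hw) (jj_ne hp₀ l (by simpa using hw))
    have hDv : Dv (K0 y) (fun z => P z - P₀ z) := by
      refine ((div_jj l hp hp₀ h.dvb h.dvd).mul hG).congr (fun w hw => ?_)
      have h1 := h.Pj w hw
      have h2 := jj_ne hp₀ l hw
      field_simp
      linear_combination h1
    refine hDv.schwarz (M := Real.exp (y ^ 300)) (fun w hw => ?_) hz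
    have hw1 := hw.le
    have hX0 : 0 ≤ X0 y * cR y ^ j := by
      have := hmid.Xlow
      have := Real.exp_pos (y ^ 16)
      linarith
    have b1 := re_Pbd (Bq_lt hp hw1) hX0 (norm_nonneg (P w))
      (norm_pos_iff.2 (h.core.fne w hw1)) (hmid.V w hw) hmid.Xup (hmid.flog w hw) (hmid.Ysup w hw)
    have b2 := re_Pbd (Bq_lt hp₀ hw1) (Real.exp_pos _).le (norm_nonneg (P₀ w))
      (norm_pos_iff.2 (h₀.core.fne w hw1)) (h₀.V w hw)
      (show Real.exp (y ^ 16) ≤ Real.exp (2 * y ^ 16) from Real.exp_le_exp.2 (by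
        have : 0 ≤ y ^ 16 := by positivity
        linarith))
      (show |Real.log ‖f₀ w‖| ≤ 2 * y ^ 160 from by
        have h1 := h₀.flog w hw
        have : 0 ≤ y ^ 160 := by positivity
        linarith)
      (show YD (Bq b₀ d₀ w) ≤ 2 * y ^ 128 from by
        have h1 := h₀.Ysup w hw
        have : 0 ≤ y ^ 128 := by positivity
        linarith)
    have b3 := norm_sub_le (P w) (P₀ w)
    linarith

end Pool.Agent.Helper81.QF
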