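import Pool.Agent.Helper81.QF.Run.RunEnd
import Pool.Agent.Helper58.QF.Orth
import Pool.Agent.Helper84.PD.Mean

/-!
# QF-R13: the mean of `xi^2` over the RUN phase (helper16)

`orth` (Helper58.QF.Orth) with `F = f₀ jj₀`, `G = f jj`, `K = K0 y`.
* `F`, `G` analytic and zero-free near the closed disc: `Core.anf`, `Core.fne`, `jj_an`, `jj_ne`.
* `hc`: only the existence of `C` matters. `G - F = (f - f₀) jj + f₀ (jj - jj₀)`; `|f - f₀| ≤ |z|^K |f₀|` (`Rn.fj`,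
  `j/y^50 ≤ 1`), `jj/jj₀` is bounded on the closed disc (continuous), `jj - jj₀ = z^K h` (`div_jj`), `h/jj₀` is bounded.
* `S = exp(y^16) y^130`: `f₀'/f₀` (`Core.fder`, `i = 1`, `X = exp(y^16)`) and `jj_deriv` with `s = exp(y^16)`, `U = y^128`.
* `S' = exp(2 y^16) y^130`: the same for `f`, `b`, `d` with `s = X0 y * cR y ^ j ≤ exp(2 y^16)`, `U = 2 y^128` (`Rn.Ybd`).
* `R = y^7` (`xi_diff`; `xi = log |f jj|`), the mean of the square of the difference is `≤ y^14` (`avg_mono`, `cont_xi`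
  of Helper84.PD.Mean).
* last term: `K0 y ≥ 5000000 exp(y^16) y^720` (`kd_ge`), `log(S + S' + 1) ≤ 4 y^16`, so
  `S (4 R log(..) + 1)/K ≤ y^130 (16 y^23 + 1)/y^720 ≤ 1`.
-/

set_option autoImplicit false

namespace Pool.Agent.Helper81.QF

open Polynomial Metric Complex
open Pool.Agent.Helper84.Lam Pool.Agent.Helper29.QF

/-- the logarithmic derivative of `f jj` -/
private theorem ld_le {l m : ℕ} (hl : 1 ≤ l) {Q U : ℝ} (hQ : 0 ≤ Q) {b d : ℂ[X]} {f P : ℂ → ℂ}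
    (h : Core l Q m b d f P) (hU : ∀ z : ℂ, ‖z‖ = 1 → YD (Bq b d z) ≤ U) {z : ℂ} (hz : ‖z‖ = 1) :
    ‖deriv (fun z => f z * jj l b d z) z‖ ≤
      Q * (1 + (8403 * l + 7) * U) * ‖f z * jj l b d z‖ := by
  have h1 := h.fder 1 hl z hz
  rw [iteratedDeriv_one, pow_one] at h1
  have h2 := jj_deriv h.pair l hQ h.speed hU hz.le
  have a1 := (h.anf z (by simp [hz])).differentiableAt
  have a2 := (Pool.Agent.Helper29.QF.jj_an h.pair l z (by simp [hz])).differentiableAt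
  have e : deriv (fun z => f z * jj l b d z) z =
      deriv f z * jj l b d z + f z * deriv (jj l b d) z := (a1.hasDerivAt.mul a2.hasDerivAt).deriv
  rw [e]
  calc ‖deriv f z * jj l b d z + f z * deriv (jj l b d) z‖
      ≤ ‖deriv f z‖ * ‖jj l b d z‖ + ‖f z‖ * ‖deriv (jj l b d) z‖ := by
        refine (norm_add_le _ _).trans ?_
        rw [norm_mul, norm_mul]
    _ ≤ Q * ‖f z‖ * ‖jj l b d z‖ + ‖f z‖ * ((8403 * l + 7) * U * Q * ‖jj l b d z‖) :=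
        add_le_add (mul_le_mul_of_nonneg_right h1 (norm_nonneg _))
          (mul_le_mul_of_nonneg_left h2 (norm_nonneg _))
    _ = Q * (1 + (8403 * l + 7) * U) * ‖f z * jj l b d z‖ := by
        rw [norm_mul]
        ring

/-- the differences are divisible by `z ^ K0` -/
private theorem close_ex {l : ℕ} {y : ℝ} (hy : 30 ≤ y) {m₀ : ℕ} {b₀ d₀ : ℂ[X]} {f₀ P₀ : ℂ → ℂ}
    {Q : ℝ} (h₀ : Core l Q m₀ b₀ d₀ f₀ P₀) {j m : ℕ} {b d : ℂ[X]} {f P : ℂ → ℂ}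
    (hj : (j : ℝ) ≤ y ^ 4) (h : Rn l y b₀ d₀ f₀ P₀ j m b d f P) :
    ∃ C : ℝ, ∀ z : ℂ, ‖z‖ ≤ 1 → ‖f z * jj l b d z - f₀ z * jj l b₀ d₀ z‖ ≤
      C * ‖z‖ ^ K0 y * ‖f₀ z * jj l b₀ d₀ z‖ := by
  obtain ⟨g, hg, hge⟩ := div_jj l h.core.pair h₀.pair h.dvb h.dvd
  have hne : ∀ z ∈ closedBall (0 : ℂ) 1, jj l b₀ d₀ z ≠ 0 := fun z hz =>
    Pool.Agent.Helper29.QF.jj_ne h₀.pair l (by simpa using hz)
  have c0 := (Pool.Agent.Helper29.QF.jj_an h₀.pair l).continuousOn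
  have c1 : ContinuousOn (fun z => jj l b d z / jj l b₀ d₀ z) (closedBall 0 1) :=
    (Pool.Agent.Helper29.QF.jj_an h.core.pair l).continuousOn.div c0 hne
  have c2 : ContinuousOn (fun z => g z / jj l b₀ d₀ z) (closedBall 0 1) :=
    hg.continuousOn.div c0 hne
  obtain ⟨M₁, hM₁⟩ := (isCompact_closedBall (0 : ℂ) 1).exists_bound_of_continuousOn c1
  obtain ⟨M₂, hM₂⟩ := (isCompact_closedBall (0 : ℂ) 1).exists_bound_of_continuousOn c2
  refine ⟨M₁ + M₂, fun z hz => ?_⟩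
  have hzb : z ∈ closedBall (0 : ℂ) 1 := by simpa using hz
  have hj0 : 0 < ‖jj l b₀ d₀ z‖ := norm_pos_iff.2 (hne z hzb)
  have u1 : ‖jj l b d z‖ ≤ M₁ * ‖jj l b₀ d₀ z‖ := by
    have := hM₁ z hzb
    rw [norm_div] at this
    exact (div_le_iff₀ hj0).1 this
  have u2 : ‖g z‖ ≤ M₂ * ‖jj l b₀ d₀ z‖ := by
    have := hM₂ z hzb
    rw [norm_div] at this
    exact (div_le_iff₀ hj0).1 this
  have hy1 : 1 ≤ y := by linarith
  have h50 : 0 < y ^ 50 := by positivity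
  have u3 : ‖f z - f₀ z‖ ≤ ‖z‖ ^ K0 y * ‖f₀ z‖ := by
    have h1 := h.fj z hz
    have h4 : (j : ℝ) ≤ y ^ 50 := hj.trans (pow_le_pow_right₀ hy1 (by norm_num))
    have h2 : (j : ℝ) * ‖z‖ ^ K0 y * ‖f₀ z‖ ≤ y ^ 50 * ‖z‖ ^ K0 y * ‖f₀ z‖ := by gcongr
    have h3 : ‖f z - f₀ z‖ * y ^ 50 ≤ (‖z‖ ^ K0 y * ‖f₀ z‖) * y ^ 50 := by
      refine (h1.trans h2).trans (le_of_eq ?_)
      ring
    exact le_of_mul_le_mul_right h3 h50
  have e : f z * jj l b d z - f₀ z * jj l b₀ d₀ z =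
      (f z - f₀ z) * jj l b d z + f₀ z * (z ^ K0 y * g z) := by
    rw [← hge z hz]
    ring
  rw [e]
  calc ‖(f z - f₀ z) * jj l b d z + f₀ z * (z ^ K0 y * g z)‖
      ≤ ‖f z - f₀ z‖ * ‖jj l b d z‖ + ‖f₀ z‖ * (‖z‖ ^ K0 y * ‖g z‖) := by
        refine (norm_add_le _ _).trans ?_
        rw [norm_mul, norm_mul, norm_mul, norm_pow]
    _ ≤ ‖z‖ ^ K0 y * ‖f₀ z‖ * (M₁ * ‖jj l b₀ d₀ z‖) +
        ‖f₀ z‖ * (‖z‖ ^ K0 y * (M₂ * ‖jj l b₀ d₀ z‖)) := by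
        gcongr
    _ = (M₁ + M₂) * ‖z‖ ^ K0 y * ‖f₀ z * jj l b₀ d₀ z‖ := by
        rw [norm_mul]
        ring

theorem xi_run {l : ℕ} (hl : 1 ≤ l) : ∃ y₀ : ℝ, 30 ≤ y₀ ∧ ∀ y : ℝ, y₀ ≤ y →
    ∀ (C₃ : ℝ) (m₀ : ℕ) (b₀ d₀ : ℂ[X]) (f₀ P₀ : ℂ → ℂ), St l C₃ y m₀ b₀ d₀ f₀ P₀ →
    ∀ (j m : ℕ) (b d : ℂ[X]) (f P : ℂ → ℂ), (j : ℝ) ≤ y ^ 4 → Rn l y b₀ d₀ f₀ P₀ j m b d f P →
      X0 y * cR y ^ j ≤ Real.exp (2 * y ^ 16) →
      Real.circleAverage (fun z => xi l b d f z ^ 2) 0 1 ≤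
        Real.circleAverage (fun z => xi l b₀ d₀ f₀ z ^ 2) 0 1 + y ^ 16 := by
  obtain ⟨y₀, hy₀, hxi⟩ := xi_diff (l := l)
  refine ⟨max y₀ (8403 * l + 20), hy₀.trans (le_max_left _ _), ?_⟩
  intro y hyy C₃ m₀ b₀ d₀ f₀ P₀ hS j m b d f P hj hR hX
  have hy0 : y₀ ≤ y := (le_max_left _ _).trans hyy
  have hyl : 8403 * (l : ℝ) + 20 ≤ y := (le_max_right _ _).trans hyy
  have hy : 30 ≤ y := hy₀.trans hy0
  have hy1 : 1 ≤ y := by linarith
  have hl0 : (0 : ℝ) ≤ l := Nat.cast_nonneg l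
  have hE : 1 ≤ Real.exp (y ^ 16) := Real.one_le_exp (by positivity)
  have hE0 : 0 < Real.exp (y ^ 16) := Real.exp_pos _
  have h128 : 1 ≤ y ^ 128 := one_le_pow₀ hy1
  -- the two bounds of the logarithmic derivatives
  have n1 : 1 + (8403 * l + 7) * y ^ 128 ≤ y ^ 129 := by
    have e : y ^ 129 = y * y ^ 128 := by ring
    rw [e]
    nlinarith
  have n2 : y ^ 129 ≤ y ^ 140 := pow_le_pow_right₀ hy1 (by norm_num)
  have n3 : 1 + (8403 * l + 7) * (2 * y ^ 128) ≤ y ^ 130 := by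
    have e : y ^ 130 = y * y ^ 129 := by ring
    have e2 : (0 : ℝ) < y ^ 129 := by positivity
    rw [e]
    nlinarith
  have n4 : y ^ 130 ≤ Real.exp (y ^ 16) := by
    have h2 : y ≤ Real.exp y := by linarith [Real.add_one_le_exp y]
    calc y ^ 130 ≤ Real.exp y ^ 130 := pow_le_pow_left₀ (by linarith) h2 130
      _ = Real.exp (130 * y) := by rw [← Real.exp_nat_mul]; norm_num
      _ ≤ Real.exp (y ^ 16) := by
          refine Real.exp_le_exp.2 ?_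
          have h5 : y ^ 2 ≤ y ^ 15 := pow_le_pow_right₀ hy1 (by norm_num)
          have h6 : y ^ 16 = y ^ 15 * y := by ring
          rw [h6]
          nlinarith
  have hX00 : 1 ≤ X0 y := by
    unfold X0
    have : 1 ≤ y ^ 720 := one_le_pow₀ hy1
    nlinarith
  have hcR : 0 ≤ cR y := by
    unfold cR
    positivity
  have hX0 : 0 ≤ X0 y * cR y ^ j := by positivity
  have hKy : Real.exp (y ^ 16) * y ^ 720 ≤ (K0 y : ℝ) := by
    have h1 := kd_ge (y := y) hX00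
    have h2 : (K0 y : ℝ) = 2 * (kd (nR (X0 y)) (pR y) : ℝ) := by
      unfold K0
      push_cast
      ring
    rw [h2]
    have h3 : Real.exp (y ^ 16) * y ^ 720 = X0 y := rfl
    rw [h3]
    linarith
  obtain ⟨C, hC⟩ := close_ex hy hS.core hj hR
  have aF : AnalyticOnNhd ℂ (fun z => f₀ z * jj l b₀ d₀ z) (closedBall 0 1) :=
    hS.core.anf.mul (Pool.Agent.Helper29.QF.jj_an hS.core.pair l)
  have aG : AnalyticOnNhd ℂ (fun z => f z * jj l b d z) (closedBall 0 1) :=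
    hR.core.anf.mul (Pool.Agent.Helper29.QF.jj_an hR.core.pair l)
  have nF : ∀ z : ℂ, ‖z‖ ≤ 1 → (fun z => f₀ z * jj l b₀ d₀ z) z ≠ 0 := fun z hz =>
    mul_ne_zero (hS.core.fne z hz) (Pool.Agent.Helper29.QF.jj_ne hS.core.pair l hz)
  have nG : ∀ z : ℂ, ‖z‖ ≤ 1 → (fun z => f z * jj l b d z) z ≠ 0 := fun z hz =>
    mul_ne_zero (hR.core.fne z hz) (Pool.Agent.Helper29.QF.jj_ne hR.core.pair l hz)
  have hlast := Pool.Agent.Helper58.QF.orth_y aF aG nF nG hC (by linarith) hKy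
    (S := Real.exp (y ^ 16) * (1 + (8403 * l + 7) * y ^ 128))
    (S' := X0 y * cR y ^ j * (1 + (8403 * l + 7) * (2 * y ^ 128))) (by positivity) (by positivity)
    (mul_le_mul_of_nonneg_left (n1.trans n2) hE0.le)
    (by
      have e : Real.exp (3 * y ^ 16) = Real.exp (2 * y ^ 16) * Real.exp (y ^ 16) := by
        rw [← Real.exp_add]
        ring_nf
      rw [e]
      exact mul_le_mul hX (n3.trans n4) (by positivity) (Real.exp_pos _).le)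
    (fun z hz => ld_le hl hE0.le hS.core hS.Ysup hz)
    (fun z hz => ld_le hl hX0 hR.core (fun w hw => Rn.Ybd hy hS hj hR hw) hz)
    (pow_le_pow_right₀ hy1 (by norm_num : 7 ≤ 100))
    (fun z hz => hxi y hy0 C₃ m₀ b₀ d₀ f₀ P₀ hS j m b d f P hj hR z hz)
  have cx := Pool.Agent.Helper84.PD.cont_xi l hR.core.pair hR.core.anf hR.core.fne
  have cx₀ := Pool.Agent.Helper84.PD.cont_xi l hS.core.pair hS.core.anf hS.core.fne
  have hmid : Real.circleAverage (fun z => (xi l b d f z - xi l b₀ d₀ f₀ z) ^ 2) 0 1 ≤ y ^ 14 := by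
    refine Real.circleAverage_mono_on_of_le_circle (Pool.Agent.Helper84.PD.ci ((cx.sub cx₀).pow 2))
      fun z hz => ?_
    have hz1 : ‖z‖ = 1 := by
      rw [abs_one] at hz
      simpa using hz
    have h1 := hxi y hy0 C₃ m₀ b₀ d₀ f₀ P₀ hS j m b d f P hj hR z hz1
    have h2 : |xi l b d f z - xi l b₀ d₀ f₀ z| ^ 2 ≤ (y ^ 7) ^ 2 :=
      pow_le_pow_left₀ (abs_nonneg _) h1 2
    rw [sq_abs] at h2
    calc (xi l b d f z - xi l b₀ d₀ f₀ z) ^ 2 ≤ (y ^ 7) ^ 2 := h2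
      _ = y ^ 14 := by ring
  have hlast' : Real.circleAverage (fun z => xi l b d f z ^ 2) 0 1 ≤
      Real.circleAverage (fun z => xi l b₀ d₀ f₀ z ^ 2) 0 1 +
      Real.circleAverage (fun z => (xi l b d f z - xi l b₀ d₀ f₀ z) ^ 2) 0 1 + 1 := hlast
  have hn : y ^ 14 + 1 ≤ y ^ 16 := by
    have h14 : 1 ≤ y ^ 14 := one_le_pow₀ hy1
    have e : y ^ 16 = y ^ 14 * (y * y) := by ring
    have h2 : 2 ≤ y * y := by nlinarith
    have h3 : y ^ 14 * 2 ≤ y ^ 14 * (y * y) := mul_le_mul_of_nonneg_left h2 (by positivity)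
    rw [e]
    linarith
  linarith

end Pool.Agent.Helper81.QF
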