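import Pool.Agent.Helper81.QF.Goals
import Pool.Agent.Helper81.QF.Run.Iter
import Pool.Agent.Helper81.QF.Run.RunEnd
import Pool.Agent.Helper81.QF.Run.RunXi

/-!
# MP_78803a, full answer: the RUN phase
-/

set_option autoImplicit false

namespace Pool.Agent.Helper81.QF

open Polynomial Metric Complex
open Pool.Agent.Helper84.Lam Pool.Agent.Helper29.QF

theorem run {l : ℕ} (hl : 1 ≤ l) (C₃ : ℝ) : RunGoal l C₃ := by
  obtain ⟨a₁, C₁, ha₁, hC₁, hiter⟩ := run_iter hl C₃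
  obtain ⟨a₂, ha₂, hfreq⟩ := freq_num
  obtain ⟨a₃, C', ha₃, hC', hratio⟩ := ratio_num C₁
  obtain ⟨a₄, ha₄, hmid⟩ := mid_of_rn hl
  obtain ⟨a₅, ha₅, hY⟩ := Yend (l := l)
  obtain ⟨a₆, ha₆, hf⟩ := flog_diff (l := l)
  obtain ⟨a₇, ha₇, hxi⟩ := xi_run hl
  obtain ⟨a₈, ha₈, hcl⟩ := closeR hl
  refine ⟨a₁ + a₂ + a₃ + a₄ + a₅ + a₆ + a₇ + a₈, C', by linarith, hC', ?_⟩
  intro y hy m b d f P hSt
  have hy1 : 1 ≤ y := by linarith
  obtain ⟨hN4, hlo, hhi⟩ := hfreq y (by linarith) _ rfl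
  obtain ⟨m', b', d', f', P', hRn, hτ⟩ := hiter y (by linarith) m b d f P hSt ⌈y ^ 3⌉₊ hN4
  have hr := hratio y (by linarith) _ rfl
  have hXpos : 0 < X0 y * cR y ^ ⌈y ^ 3⌉₊ := by
    have h0 : 0 < X0 y := by unfold X0; positivity
    have h1 : 0 < cR y := by
      have : 0 < (pR y : ℝ) := by
        have : 0 < pR y := by unfold pR; omega
        exact_mod_cast this
      unfold cR
      positivity
    positivity
  have hup : X0 y * cR y ^ ⌈y ^ 3⌉₊ ≤ Real.exp (2 * y ^ 16) := by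
    rw [← Real.log_le_iff_le_exp hXpos]
    have : y ^ 4 ≤ y ^ 16 := pow_le_pow_right₀ hy1 (by norm_num)
    linarith
  refine ⟨_, m', b', d', f', P', hmid y (by linarith) C₃ m b d f P hSt _ m' b' d' f' P' hN4 hRn hup,
    hlo, hhi, ?_, ?_, ?_, ?_, ?_⟩
  · exact hY y (by linarith) b d f P _ m' b' d' f' P' hN4 hRn
  · exact fun z hz => hf y (by linarith) C₃ m b d f P hSt _ m' b' d' f' P' hN4 hRn z hz.le
  · exact hr.trans hτ
  · exact hxi y (by linarith) C₃ m b d f P hSt _ m' b' d' f' P' hN4 hRn hup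
  · exact hcl y (by linarith) C₃ m b d f P hSt _ m' b' d' f' P' hN4 hRn hup

end Pool.Agent.Helper81.QF
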