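import Pool.Agent.Helper81.QF.Defs
import Pool.Agent.Helper29.QF.PairFacts
import Pool.Agent.Helper16.T78.RunStep

/-!
# QF-R6: the functions `f`, `P` after one Szego step (helper16)

`B = Bq b d`, `B' = Bq b' d'`, `P' = P jj'/jj` (`jj` zero-free and analytic near the closed disc, helper29's JJ.lean),
`F = P' Ps(B') - P Ps(B)`.
* `F = O(z^K)` at `0`: `b' - b`, `d' - d` are divisible by `z^K`, so `B' - B`, `jj' - jj`, `lamD B' - lamD B` are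
  `O(z^K)`; `F` is analytic near the closed disc, so `F = z^K h`, `h` analytic near the closed disc.
* On the circle `|P'| ee(B') = |P| ee(B) (YD B'/YD B)^l (dl/dl')^l` (modulus of `jj`), `|Ps| ≤ ee`: `|F| ≤ 2 ε K^l |f|`.
  By the weighted Schwarz lemma `|F| ≤ 2 ε K^l |f| |z|^K` on the closed disc.
* `|f'| ≤ X |f|` on the circle (`fder`, `i = 1`; if `l = 0` there is nothing to integrate, take `l ≥ 1`), so on the closed disc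
  (`f'/f` analytic). `wprim_iter_all'` with `R = 1`, `b = X`, `n = K`, `C = 2 ε K^l` (`2 X ≤ K + 1`): `δ` with
  `|δ^(i)| ≤ 2 ε K^l (4/(K+1))^(l-i) |f| |z|^K ≤ 2 ε 4^l K^i |f| |z|^K`.
* `f' = f + δ`.
-/

set_option autoImplicit false

namespace Pool.Agent.Helper81.QF

open Polynomial Metric Complex
open Pool.Agent.Helper84.Lam Pool.Agent.Helper29.QF

theorem fstep {l : ℕ} (hl : 1 ≤ l) {X₁ ε : ℝ} {m k K : ℕ} {b d g : ℂ[X]} {f P : ℂ → ℂ}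
    (h : Core l X₁ m b d f P) (hX : 1 ≤ X₁) (hK : 4 * X₁ ≤ K) (hg : (X ^ K : ℂ[X]) ∣ g)
    (hk : g.natDegree ≤ k) (hg1 : ∀ z : ℂ, ‖z‖ = 1 → ‖g.eval z‖ < 1) (hε0 : 0 ≤ ε)
    (hε : 2 * 4 ^ l * ε ≤ 1 / 2)
    (h1 : ∀ z : ℂ, ‖z‖ = 1 → ‖P z‖ * ee l (Bq b d z) ≤ ε * (K : ℝ) ^ l * ‖f z‖)
    (h2 : ∀ z : ℂ, ‖z‖ = 1 → ‖P z‖ * ee l (Bq b d z) *
      (YD (Bq (b + g * star m d) (d + g * star m b) z) / YD (Bq b d z)) ^ l *
      (dl b d z / dl (b + g * star m d) (d + g * star m b) z) ^ l ≤ ε * (K : ℝ) ^ l * ‖f z‖) :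
    ∃ f' P' : ℂ → ℂ, AnalyticOnNhd ℂ f' (closedBall 0 1) ∧ AnalyticOnNhd ℂ P' (closedBall 0 1) ∧
      (∀ z : ℂ, ‖z‖ ≤ 1 → f' z ≠ 0) ∧
      (∀ z : ℂ, ‖z‖ ≤ 1 → P' z * jj l b d z = P z * jj l (b + g * star m d) (d + g * star m b) z) ∧
      (∀ z : ℂ, ‖z‖ ≤ 1 → iteratedDeriv l f' z =
        P' z * Ps l (Bq (b + g * star m d) (d + g * star m b) z)) ∧
      (∀ z : ℂ, ‖z‖ ≤ 1 → ‖f' z - f z‖ ≤ 2 * 4 ^ l * ε * ‖z‖ ^ K * ‖f z‖) ∧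
      (∀ i ≤ l, ∀ z : ℂ, ‖z‖ = 1 → ‖iteratedDeriv i f' z - iteratedDeriv i f z‖ ≤
        2 * 4 ^ l * ε * (K : ℝ) ^ i * ‖f z‖) ∧
      f' 0 = 1 ∧ P' 0 = Pst l := by
  have hK0 : K ≠ 0 := by
    intro h0
    rw [h0, Nat.cast_zero] at hK
    linarith
  obtain ⟨f', P', -, -, a1, a2, a3, a4, a5, a6, a7, a8, a9, -⟩ :=
    Pool.Agent.Helper16.T78.run_step hl hK0 h hg hk hK hg1 hε0 h1 h2
  refine ⟨f', P', a1, a2, a9 (by linarith), a3, a4, fun z hz => ?_, fun i hi z hz => ?_, a7, ?_⟩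
  · refine (a6 z hz).trans (le_of_eq ?_)
    ring
  · refine (a5 i hi z hz.le).trans (le_of_eq ?_)
    rw [hz, one_pow]
    ring
  · rw [a8, h.P0]

end Pool.Agent.Helper81.QF
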