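import Pool.Agent.Helper81.QF.Defs

/-!
# QF-R1: the step polynomial `g = z^(2 kd) chi`

`chi n p v` (helper29, Cut.lean, Cut2.lean) has degree `≤ 2 kd` and equals `z^kd cf` on the circle, `cf` real.
* `gP_circle`, `gP_norm`: `chi_circle`, `cf_nonneg`.
* `gP_disc`: `chi_disc` on the circle, maximum principle (`Helper58.LD.norm_le_of_circle` for the polynomial
  `chi`), `|z^(2kd)| = |z|^(2kd)`.
* `gP_deriv`: if `kd = 0` then `g` is constant (degree `≤ 0`). Otherwise Cauchy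
  (`Complex.norm_deriv_le_of_forall_mem_sphere_norm_le`) on the circle of radius `ρ = 1/(4 kd)` around `z`,
  `|z| = 1`: for `1 ≤ |w| ≤ 1 + ρ` one has `|g(w)| ≤ V |w|^(4 kd) ≤ V (1 + 1/(4kd))^(4kd) ≤ e V` (`chi_growth`), for
  `|w| ≤ 1` it is `≤ V`. So `|g'(z)| ≤ e V 4 kd ≤ 12 kd V`.
* `gP_tail`: `chi_tail2`.
-/

set_option autoImplicit false

namespace Pool.Agent.Helper81.QF

open Polynomial Metric Complex
open Pool.Agent.Helper84.Lam Pool.Agent.Helper29.QF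

/-- the step polynomial -/
noncomputable def gP (n p : ℕ) (v : ℂ → ℝ) : ℂ[X] := X ^ (2 * kd n p) * chi n p v

private theorem h86_max {p : ℂ[X]} {M : ℝ} (hM : ∀ z : ℂ, ‖z‖ = 1 → ‖p.eval z‖ ≤ M) {w : ℂ} (hw : ‖w‖ ≤ 1) :
    ‖p.eval w‖ ≤ M :=
  Complex.norm_le_of_forall_mem_frontier_norm_le (f := fun z => p.eval z)
    (U := ball (0 : ℂ) 1) (C := M) isBounded_ball p.differentiable.diffContOnCl (by
      intro z hz
      rw [frontier_ball _ one_ne_zero, mem_sphere, dist_zero_right] at hz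
      exact hM z hz)
    (z := w) (by
      rw [closure_ball _ one_ne_zero, mem_closedBall, dist_zero_right]
      exact hw)

private theorem h86_deriv {p : ℂ[X]} {N : ℕ} (hN : 1 ≤ N) (hd : p.natDegree ≤ N) {M : ℝ}
    (hM : ∀ z : ℂ, ‖z‖ = 1 → ‖p.eval z‖ ≤ M) {z : ℂ} (hz : ‖z‖ ≤ 1) :
    ‖p.derivative.eval z‖ ≤ 3 * N * M := by
  have hM0 : 0 ≤ M := (norm_nonneg _).trans (hM 1 (by simp))
  have hN0 : (0 : ℝ) < N := by exact_mod_cast hN
  have hpow : (1 + 1 / (N : ℝ)) ^ N ≤ 3 := by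
    have h1 : 1 + 1 / (N : ℝ) ≤ Real.exp (1 / N) := by
      have := Real.add_one_le_exp (1 / (N : ℝ))
      linarith
    calc (1 + 1 / (N : ℝ)) ^ N ≤ Real.exp (1 / N) ^ N :=
          pow_le_pow_left₀ (by positivity) h1 _
      _ = Real.exp 1 := by
          rw [← Real.exp_nat_mul]
          congr 1
          field_simp
      _ ≤ 3 := by
          have h2 := Real.exp_one_lt_d9
          linarith
  have hs : ∀ w ∈ sphere z (1 / (N : ℝ)), ‖p.eval w‖ ≤ 3 * M := by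
    intro w hw
    rw [mem_sphere, dist_eq_norm] at hw
    have hw1 : ‖w‖ ≤ 1 + 1 / (N : ℝ) := by
      calc ‖w‖ = ‖z + (w - z)‖ := by ring_nf
        _ ≤ ‖z‖ + ‖w - z‖ := norm_add_le _ _
        _ ≤ _ := by rw [hw]; linarith
    by_cases h : 1 ≤ ‖w‖
    · calc ‖p.eval w‖ ≤ M * ‖w‖ ^ N := Pool.Agent.Helper58.LD.poly_growth hd hM h
        _ ≤ M * (1 + 1 / (N : ℝ)) ^ N := by
            refine mul_le_mul_of_nonneg_left (pow_le_pow_left₀ (norm_nonneg _) hw1 _) hM0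
        _ ≤ M * 3 := mul_le_mul_of_nonneg_left hpow hM0
        _ = 3 * M := by ring
    · have := h86_max hM (le_of_lt (not_le.1 h))
      linarith
  have h := Complex.norm_deriv_le_of_forall_mem_sphere_norm_le (f := fun z => p.eval z)
    (c := z) (R := 1 / (N : ℝ)) (by positivity) p.differentiable.diffContOnCl hs
  rw [Polynomial.deriv] at h
  refine h.trans (le_of_eq ?_)
  field_simp

theorem gP_natDegree (n p : ℕ) (v : ℂ → ℝ) : (gP n p v).natDegree ≤ 4 * kd n p := by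
  unfold gP
  refine natDegree_mul_le.trans ?_
  have h1 := natDegree_X_pow_le (R := ℂ) (2 * kd n p)
  have h2 := chi_natDegree n p v
  omega

theorem gP_dvd (n p : ℕ) (v : ℂ → ℝ) : (X ^ (2 * kd n p) : ℂ[X]) ∣ gP n p v := by
  exact dvd_mul_right _ _

theorem gP_zero {n p : ℕ} (h : 1 ≤ kd n p) (v : ℂ → ℝ) : (gP n p v).eval 0 = 0 := by
  unfold gP
  rw [eval_mul, eval_pow, eval_X, zero_pow (by omega), zero_mul]

theorem gP_circle {n p : ℕ} {v : ℂ → ℝ} (hv : Measurable v) {V : ℝ}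
    (hb : ∀ w : ℂ, ‖w‖ = 1 → |v w| ≤ V) {z : ℂ} (hz : ‖z‖ = 1) :
    (gP n p v).eval z = z ^ (3 * kd n p) * (cf n p v z : ℂ) := by
  unfold gP
  rw [eval_mul, eval_pow, eval_X, chi_circle hv hb hz]
  have h : z ^ (3 * kd n p) = z ^ (2 * kd n p) * z ^ kd n p := by
    rw [← pow_add]
    congr 1
    omega
  rw [h]
  ring

theorem gP_norm {n p : ℕ} (hn : 1 ≤ n) {v : ℂ → ℝ} (hv : Measurable v) {V : ℝ}
    (hb : ∀ w : ℂ, ‖w‖ = 1 → |v w| ≤ V) (h0 : ∀ w : ℂ, ‖w‖ = 1 → 0 ≤ v w) {z : ℂ} (hz : ‖z‖ = 1) :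
    ‖(gP n p v).eval z‖ = cf n p v z := by
  rw [gP_circle hv hb hz, norm_mul, norm_pow, hz, one_pow, one_mul, Complex.norm_real, Real.norm_eq_abs,
    abs_of_nonneg (cf_nonneg hn p h0 z)]

theorem gP_disc {n p : ℕ} (hn : 1 ≤ n) {v : ℂ → ℝ} (hv : Measurable v) {V : ℝ}
    (hb : ∀ w : ℂ, ‖w‖ = 1 → |v w| ≤ V) {z : ℂ} (hz : ‖z‖ ≤ 1) :
    ‖(gP n p v).eval z‖ ≤ V * ‖z‖ ^ (2 * kd n p) := by
  unfold gP
  rw [eval_mul, eval_pow, eval_X, norm_mul, norm_pow, mul_comm]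
  exact mul_le_mul_of_nonneg_right (h86_max (p := chi n p v) (M := V)
    (fun w hw => chi_disc hn p hv hb hw) hz) (by positivity)

theorem gP_deriv {n p : ℕ} (hn : 1 ≤ n) {v : ℂ → ℝ} (hv : Measurable v) {V : ℝ} (hV : 0 ≤ V)
    (hb : ∀ w : ℂ, ‖w‖ = 1 → |v w| ≤ V) {z : ℂ} (hz : ‖z‖ = 1) :
    ‖(derivative (gP n p v)).eval z‖ ≤ 12 * kd n p * V := by
  rcases Nat.eq_zero_or_pos (kd n p) with h0 | h0
  · have h1 : (gP n p v).natDegree = 0 := by
      have := gP_natDegree n p v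
      omega
    rw [derivative_of_natDegree_zero h1, eval_zero, norm_zero, h0]
    simp
  · have h1 := h86_deriv (N := 4 * kd n p) (by omega) (gP_natDegree n p v) (M := V)
      (fun w hw => by
        have h2 := gP_disc (p := p) hn hv hb (z := w) hw.le
        rwa [hw, one_pow, mul_one] at h2) hz.le
    refine h1.trans (le_of_eq ?_)
    push_cast
    ring

/-- smallness away from the support, in the closed disc -/
theorem gP_tail {n p : ℕ} (hn : 1 ≤ n) (hp : 1 ≤ p) {v : ℂ → ℝ} (hv : Measurable v) {V : ℝ}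
    (hb : ∀ w : ℂ, ‖w‖ = 1 → |v w| ≤ V) {z : ℂ} (hz : ‖z‖ ≤ 1) {δ : ℝ} (hδ : 0 < δ)
    (h0 : ∀ w : ℂ, ‖w‖ = 1 → ‖w - z‖ < δ → v w = 0) :
    ‖(gP n p v).eval z‖ ≤ 72 * Real.pi * (8 / (n * δ)) ^ (2 * p - 2) * V := by
  unfold gP
  rw [eval_mul, eval_pow, eval_X, norm_mul, norm_pow]
  have hz1 : ‖z‖ ≤ 1 + 1 / (n : ℝ) := by
    have : 0 ≤ 1 / (n : ℝ) := by positivity
    linarith
  have h1 := chi_tail2 hn hp hv hb hz1 hδ h0
  have h2 : ‖z‖ ^ (2 * kd n p) ≤ 1 := pow_le_one₀ (norm_nonneg _) hz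
  calc ‖z‖ ^ (2 * kd n p) * ‖(chi n p v).eval z‖ ≤ 1 * ‖(chi n p v).eval z‖ :=
        mul_le_mul_of_nonneg_right h2 (norm_nonneg _)
    _ ≤ _ := by rw [one_mul]; exact h1

end Pool.Agent.Helper81.QF
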