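import Pool.Agent.Helper81.QF.Run.G
import Pool.Agent.Helper29.QF.PairFacts

/-!
# QF-R2: parameters of a RUN step and the cut-off

`r = 1 - 1/y`, threshold `y^5`, `p = ⌈1000 log y⌉ + 2`, `n = ⌈3000000 X⌉`, `δ = 1/(140000 X)`,
`v = r` on `{|z| = 1, YD(B z) ≤ y^5}`, `0` elsewhere.

* `vR_meas`: the set `{z | ‖z‖ = 1 ∧ YD (Bq b d z) ≤ y^5}` is closed: it is the intersection of the compact sphere with a
  closed condition on a function continuous on the sphere (`Bq_an` gives continuity, `YD = Yf ∘ cy` is continuous on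
  the disc; `YD w = w'...`: `th2, th3, th4` are differentiable (`diff_th2` etc., Asym.lean), `cy` is continuous for
  `‖w‖ < 1`; use `IsClosed` of `{x ∈ s | f x ≤ c}` for `s` closed and `f` continuous on `s`
  (`ContinuousOn.preimage_isClosed_of_isClosed`)).
* `near_ratio`: `ps (B z) (B w) ≤ X ‖z - w‖ < 1/140000` (`ps_lip`, the speed bound), `L4` (Facts.lean):
  `|log YD(B w) - log YD(B z)| ≤ 6700/140000 < 0.05`, and `exp 0.05 ≤ 1.06`, `exp (-0.05) ≥ 0.94`.
* `tail_small`: `n δ ≥ 3000000/140000 ≥ 21`, so `8/(n δ) ≤ 1/2` and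
  `(1/2)^(2p-2) = 4^(-(p-1)) ≤ exp(-1386 log y)` for `p - 1 ≥ 1000 log y + 1`; `72 π 2 ≤ y^300` for `y ≥ 3`.
* `cf_small`: if `1.1 y^5 ≤ YD(B z)` then `v = 0` on `{‖w‖ = 1, ‖w - z‖ < δ}` (`near_ratio`): `cf_local` with
  `c = c' = 0` (`V = r ≤ 1`), `cf_nonneg`.
* `cf_big`: if `YD(B z) ≤ 0.9 y^5` then `v = r` there: `cf_local` with `c = c' = r`.
-/

set_option autoImplicit false

namespace Pool.Agent.Helper81.QF

open Polynomial Metric Complex
open Pool.Agent.Helper84.Lam Pool.Agent.Helper29.QF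

noncomputable def pR (y : ℝ) : ℕ := ⌈1000 * Real.log y⌉₊ + 2
noncomputable def nR (X : ℝ) : ℕ := ⌈3000000 * X⌉₊
noncomputable def rR (y : ℝ) : ℝ := 1 - 1 / y
/-- growth factor of the frequencies -/
noncomputable def cR (y : ℝ) : ℝ := 40000000 * pR y * y
/-- the function behind the cut-off -/
noncomputable def vR (y : ℝ) (b d : ℂ[X]) : ℂ → ℝ :=
  Set.indicator {z : ℂ | ‖z‖ = 1 ∧ YD (Bq b d z) ≤ y ^ 5} (fun _ => rR y)

variable {m : ℕ} {b d : ℂ[X]} {y X : ℝ}

private theorem YD_cont {w : ℂ} (h : ‖w‖ < 1) : ContinuousAt YD w := by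
  have hc : ContinuousAt cy w := (hasDerivAt_cy h).continuousAt
  have hp := cy_im_pos h
  have h2 : ContinuousAt (fun u => th2 (cy u)) w :=
    ContinuousAt.comp (f := cy) (g := th2) (diff_th2 hp).continuousAt hc
  have h3 : ContinuousAt (fun u => th3 (cy u)) w :=
    ContinuousAt.comp (f := cy) (g := th3) (diff_th3 hp).continuousAt hc
  have h4 : ContinuousAt (fun u => th4 (cy u)) w :=
    ContinuousAt.comp (f := cy) (g := th4) (diff_th4 hp).continuousAt hc
  have h1 : ContinuousAt (fun u => (cy u).im) w :=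
    ContinuousAt.comp (f := cy) (g := Complex.im) Complex.continuous_im.continuousAt hc
  exact h1.mul (((h2.norm.pow 4).add (h3.norm.pow 4)).add (h4.norm.pow 4))

theorem vR_meas (h : Pair m b d) : Measurable (vR y b d) := by
  have hc : ContinuousOn (fun z => YD (Bq b d z)) (sphere (0 : ℂ) 1) := by
    intro z hz
    have hz1 : ‖z‖ = 1 := by simpa using hz
    have hB : ContinuousAt (Bq b d) z := (Bq_an h z (by simp [hz1])).continuousAt
    exact (ContinuousAt.comp (f := Bq b d) (g := YD) (YD_cont (Bq_lt h hz1.le)) hB).continuousWithinAt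
  have hcl := hc.preimage_isClosed_of_isClosed isClosed_sphere (isClosed_Iic (a := y ^ 5))
  have he : {z : ℂ | ‖z‖ = 1 ∧ YD (Bq b d z) ≤ y ^ 5} =
      sphere (0 : ℂ) 1 ∩ (fun z => YD (Bq b d z)) ⁻¹' Set.Iic (y ^ 5) := by
    ext z
    constructor
    · rintro ⟨h1, h2⟩
      exact ⟨by simpa using h1, h2⟩
    · rintro ⟨h1, h2⟩
      exact ⟨by simpa using h1, h2⟩
  unfold vR
  rw [he]
  exact measurable_const.indicator hcl.measurableSet

private theorem rR_nonneg (hy : 1 ≤ y) : 0 ≤ rR y := by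
  unfold rR
  have : 1 / y ≤ 1 := by
    rw [div_le_one (by linarith)]
    exact hy
  linarith

private theorem rR_le_one (hy : 1 ≤ y) : rR y ≤ 1 := by
  unfold rR
  have : 0 ≤ 1 / y := by
    apply div_nonneg zero_le_one
    linarith
  linarith

theorem vR_nonneg (hy : 1 ≤ y) (w : ℂ) : 0 ≤ vR y b d w := by
  unfold vR
  exact Set.indicator_nonneg (fun _ _ => rR_nonneg hy) w

theorem vR_le (hy : 1 ≤ y) (w : ℂ) : |vR y b d w| ≤ rR y := by
  rw [abs_of_nonneg (vR_nonneg hy w)]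
  unfold vR
  exact Set.indicator_le_self' (fun _ _ => rR_nonneg hy) w

private theorem vR_eq {w : ℂ} (hw : ‖w‖ = 1) (h : YD (Bq b d w) ≤ y ^ 5) : vR y b d w = rR y := by
  unfold vR
  exact Set.indicator_of_mem (s := {z : ℂ | ‖z‖ = 1 ∧ YD (Bq b d z) ≤ y ^ 5}) ⟨hw, h⟩ _

private theorem vR_eq_zero {w : ℂ} (h : y ^ 5 < YD (Bq b d w)) : vR y b d w = 0 := by
  unfold vR
  exact Set.indicator_of_notMem (s := {z : ℂ | ‖z‖ = 1 ∧ YD (Bq b d z) ≤ y ^ 5})
    (fun hm => absurd hm.2 (not_le.2 h)) _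

private theorem nR_ge (X : ℝ) : 3000000 * X ≤ (nR X : ℝ) := Nat.le_ceil _

private theorem nR_one (hX : 1 ≤ X) : 1 ≤ nR X := by
  have h1 := nR_ge X
  have h2 : (1 : ℝ) ≤ (nR X : ℝ) := by linarith
  exact_mod_cast h2

private theorem pR_one (y : ℝ) : 1 ≤ pR y := by
  unfold pR
  omega

/-- the height changes by at most 6 percent on arcs of length `1/(140000 X)` -/
theorem near_ratio (h : Pair m b d) (hX : 0 < X)
    (hs : ∀ z : ℂ, ‖z‖ = 1 → ‖nN b d z‖ + ‖vV b d z‖ ≤ X * dl b d z) {z w : ℂ} (hz : ‖z‖ ≤ 1)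
    (hw : ‖w‖ ≤ 1) (hzw : ‖w - z‖ < 1 / (140000 * X)) :
    0.94 * YD (Bq b d z) ≤ YD (Bq b d w) ∧ YD (Bq b d w) ≤ 1.06 * YD (Bq b d z) := by
  have h1 : ps (Bq b d z) (Bq b d w) ≤ X * ‖z - w‖ :=
    ps_lip h hX.le (fun u hu => (le_add_of_nonneg_right (norm_nonneg _)).trans (hs u hu)) hz hw
  have h2 : X * ‖z - w‖ < 1 / 140000 := by
    rw [norm_sub_rev]
    calc X * ‖w - z‖ < X * (1 / (140000 * X)) := mul_lt_mul_of_pos_left hzw hX
      _ = 1 / 140000 := by field_simp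
  have hBz := Bq_lt h hz
  have hBw := Bq_lt h hw
  have h3 := L4 hBz hBw (by linarith)
  have h4 : |Real.log (YD (Bq b d w)) - Real.log (YD (Bq b d z))| ≤ 0.048 := by
    refine h3.trans ?_
    nlinarith
  rw [abs_le] at h4
  have hYz : 0 < YD (Bq b d z) := lt_of_lt_of_le (by norm_num) (YD_lower hBz)
  have hYw : 0 < YD (Bq b d w) := lt_of_lt_of_le (by norm_num) (YD_lower hBw)
  have l1 : Real.log 0.94 ≤ -0.06 := by
    have := Real.log_le_sub_one_of_pos (show (0 : ℝ) < 0.94 by norm_num)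
    linarith
  have l2 : (0.05 : ℝ) ≤ Real.log 1.06 := by
    have := Real.one_sub_inv_le_log_of_pos (show (0 : ℝ) < 1.06 by norm_num)
    refine le_trans ?_ this
    norm_num
  constructor
  · rw [← Real.log_le_log_iff (by positivity) hYw, Real.log_mul (by norm_num) hYz.ne']
    linarith [h4.1]
  · rw [← Real.log_le_log_iff hYw (by positivity), Real.log_mul (by norm_num) hYz.ne']
    linarith [h4.2]

theorem tail_small (hy : 3 ≤ y) (hX : 1 ≤ X) :
    72 * Real.pi * (8 / ((nR X : ℝ) * (1 / (140000 * X)))) ^ (2 * pR y - 2) * 2 ≤ 1 / y ^ 1000 := by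
  have hX0 : 0 < X := by linarith
  have hy0 : 0 < y := by linarith
  have h1 := nR_ge X
  have hnd : 21 ≤ (nR X : ℝ) * (1 / (140000 * X)) := by
    rw [mul_one_div, le_div_iff₀ (by positivity)]
    nlinarith
  have hq0 : 0 ≤ 8 / ((nR X : ℝ) * (1 / (140000 * X))) := by positivity
  have hq : 8 / ((nR X : ℝ) * (1 / (140000 * X))) ≤ 1 / 2 := by
    rw [div_le_div_iff₀ (by linarith) (by norm_num)]
    linarith
  set N := ⌈1000 * Real.log y⌉₊ with hN
  have hp : 2 * pR y - 2 = 2 * (N + 1) := by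
    unfold pR
    omega
  have hNl : 1000 * Real.log y ≤ (N : ℝ) := Nat.le_ceil _
  have hlog : 0 < Real.log y := Real.log_pos (by linarith)
  have h4N : y ^ 1005 ≤ (4 : ℝ) ^ N := by
    rw [← Real.log_le_log_iff (by positivity) (by positivity), Real.log_pow, Real.log_pow]
    have hl4 : (1.386 : ℝ) ≤ Real.log 4 := by
      have e4 : (4 : ℝ) = 2 ^ 2 := by norm_num
      rw [e4, Real.log_pow]
      have := Real.log_two_gt_d9
      push_cast
      linarith
    push_cast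
    calc (1005 : ℝ) * Real.log y ≤ (1000 * Real.log y) * 1.386 := by linarith
      _ ≤ (N : ℝ) * Real.log 4 := mul_le_mul hNl hl4 (by norm_num) (Nat.cast_nonneg _)
  have hpow : (8 / ((nR X : ℝ) * (1 / (140000 * X)))) ^ (2 * pR y - 2) ≤ 1 / (4 * 4 ^ N) := by
    rw [hp]
    calc (8 / ((nR X : ℝ) * (1 / (140000 * X)))) ^ (2 * (N + 1)) ≤ (1 / 2) ^ (2 * (N + 1)) :=
          pow_le_pow_left₀ hq0 hq _
      _ = 1 / (4 * 4 ^ N) := by
          rw [pow_mul, pow_succ]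
          have e : ((1 : ℝ) / 2) ^ 2 = 1 / 4 := by norm_num
          rw [e, one_div_pow]
          field_simp
  have hy5 : (243 : ℝ) ≤ y ^ 5 := by
    calc (243 : ℝ) = 3 ^ 5 := by norm_num
      _ ≤ y ^ 5 := pow_le_pow_left₀ (by norm_num) hy 5
  have h1005 : y ^ 1005 = y ^ 1000 * y ^ 5 := by rw [← pow_add]
  have hY : 0 < y ^ 1000 := by positivity
  have h4p : 0 < (4 : ℝ) ^ N := by positivity
  have hpi := Real.pi_lt_d2
  have hpi0 := Real.pi_pos
  calc 72 * Real.pi * (8 / ((nR X : ℝ) * (1 / (140000 * X)))) ^ (2 * pR y - 2) * 2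
      ≤ 72 * Real.pi * (1 / (4 * 4 ^ N)) * 2 := by
        gcongr
    _ = 36 * Real.pi / 4 ^ N := by
        field_simp
        norm_num
    _ ≤ 1 / y ^ 1000 := by
        rw [div_le_div_iff₀ h4p hY, one_mul]
        rw [h1005] at h4N
        have h5 : y ^ 1000 * 243 ≤ y ^ 1000 * y ^ 5 := mul_le_mul_of_nonneg_left hy5 hY.le
        nlinarith

private theorem tail_nonneg (X y : ℝ) (hX : 1 ≤ X) :
    0 ≤ 72 * Real.pi * (8 / ((nR X : ℝ) * (1 / (140000 * X)))) ^ (2 * pR y - 2) := by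
  have := Real.pi_pos
  positivity

theorem cf_small (h : Pair m b d) (hy : 3 ≤ y) (hX : 1 ≤ X)
    (hs : ∀ z : ℂ, ‖z‖ = 1 → ‖nN b d z‖ + ‖vV b d z‖ ≤ X * dl b d z) {z : ℂ} (hz : ‖z‖ = 1)
    (hY : 1.1 * y ^ 5 ≤ YD (Bq b d z)) : cf (nR X) (pR y) (vR y b d) z ≤ 1 / y ^ 1000 := by
  have hX0 : 0 < X := by linarith
  have hy1 : 1 ≤ y := by linarith
  have hy5 : 0 < y ^ 5 := by positivity
  have h1 := (cf_local (nR_one hX) (pR_one y) (vR_meas (y := y) h) (V := rR y) (c := 0) (c' := 0)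
    (fun u _ => vR_le hy1 u) hz (δ := 1 / (140000 * X)) (by positivity) (fun w hw hd => by
      have h2 := (near_ratio h hX0 hs hz.le hw.le hd).1
      have h3 : vR y b d w = 0 := vR_eq_zero (by nlinarith)
      rw [h3]
      exact ⟨le_rfl, le_rfl⟩)).2
  have h4 := tail_small hy hX
  have h5 := tail_nonneg X y hX
  have h6 := rR_le_one hy1
  have h7 := rR_nonneg hy1
  refine h1.trans ?_
  rw [zero_add, abs_zero, add_zero]
  refine le_trans ?_ h4
  exact mul_le_mul_of_nonneg_left (by linarith) h5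

theorem cf_big (h : Pair m b d) (hy : 3 ≤ y) (hX : 1 ≤ X)
    (hs : ∀ z : ℂ, ‖z‖ = 1 → ‖nN b d z‖ + ‖vV b d z‖ ≤ X * dl b d z) {z : ℂ} (hz : ‖z‖ = 1)
    (hY : YD (Bq b d z) ≤ 0.9 * y ^ 5) : rR y - 1 / y ^ 1000 ≤ cf (nR X) (pR y) (vR y b d) z := by
  have hX0 : 0 < X := by linarith
  have hy1 : 1 ≤ y := by linarith
  have hy5 : 0 < y ^ 5 := by positivity
  have h1 := (cf_local (nR_one hX) (pR_one y) (vR_meas (y := y) h) (V := rR y) (c := rR y)
    (c' := rR y) (fun u _ => vR_le hy1 u) hz (δ := 1 / (140000 * X)) (by positivity)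
    (fun w hw hd => by
      have h2 := (near_ratio h hX0 hs hz.le hw.le hd).2
      have h3 : vR y b d w = rR y := vR_eq hw (by nlinarith)
      rw [h3]
      exact ⟨le_rfl, le_rfl⟩)).1
  have h4 := tail_small hy hX
  have h5 := tail_nonneg X y hX
  have h6 := rR_le_one hy1
  have h7 := rR_nonneg hy1
  refine le_trans ?_ h1
  rw [abs_of_nonneg h7]
  have h8 : 72 * Real.pi * (8 / ((nR X : ℝ) * (1 / (140000 * X)))) ^ (2 * pR y - 2) *
      (rR y + rR y) ≤ 1 / y ^ 1000 := by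
    refine le_trans ?_ h4
    exact mul_le_mul_of_nonneg_left (by linarith) h5
  linarith

/-- `0 ≤ cf ≤ r` -/
theorem cf_range (h : Pair m b d) (hy : 1 ≤ y) (hX : 1 ≤ X) {z : ℂ} (hz : ‖z‖ = 1) :
    0 ≤ cf (nR X) (pR y) (vR y b d) z ∧ cf (nR X) (pR y) (vR y b d) z ≤ rR y := by
  refine ⟨cf_nonneg (nR_one hX) _ (fun u _ => vR_nonneg hy u) z, ?_⟩
  exact cf_le (nR_one hX) _ (vR_meas h) (fun u _ => vR_le hy u)
    (fun u _ => (le_abs_self _).trans (vR_le hy u)) hz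

end Pool.Agent.Helper81.QF
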