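import Pool.Agent.Helper81.QF.Defs
import Pool.Agent.Helper29.QF.EE

/-!
# QF-R4: pointwise effect of a pseudo-hyperbolic step of size `t` on the functions of `B`

`|w|, |v| < 1`, `ps w v ≤ t ≤ 1/100`.
* `YD_small`: `L4` (Facts.lean): `|log YD v - log YD w| ≤ 6700 t`; if `6700 t ≤ 1` then
  `|YD v - YD w| ≤ YD w (e^(6700t) - 1) ≤ 13400 t YD w`.
* `HHl_small`: `HHl = 3 Hl - Re LL - Re L1`; `|LL v - LL w|, |L1 v - L1 w| ≤ 82 t YD w` (`LL_lip`, `L1_lip`).
  `Hl = log(1 + |λ| + |1-λ|)` with `|λ| = e^(Re LL)`, `|1-λ| = e^(Re L1)`: `|Hl v - Hl w| ≤ 82 t YD w` (each of the three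
  summands changes at most by the factor `e^(±82 t YD w)`). Total `≤ 5 * 82 t YD w`.
* `ee_small`: `log ee = Re L1 + l Hl` (`hD = exp Hl`): `≤ (l + 1) 82 t YD w`.
* `YD_jump`: `T_L5`: `YD v (1 - ps v w) ≤ 12 YD w`, `ps` symmetric, `1 - ps ≥ 1/y`.
-/

set_option autoImplicit false

namespace Pool.Agent.Helper81.QF

open Polynomial Metric Complex
open Pool.Agent.Helper84.Lam Pool.Agent.Helper29.QF

variable {w v : ℂ} {t : ℝ}

theorem ps_symm (w v : ℂ) : ps w v = ps v w := by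
  unfold ps
  have e : ‖1 - (starRingEnd ℂ) w * v‖ = ‖1 - (starRingEnd ℂ) v * w‖ := by
    rw [← Complex.norm_conj (1 - (starRingEnd ℂ) w * v)]
    congr 1
    simp only [map_sub, map_one, map_mul, Complex.conj_conj]
    ring
  rw [e, norm_sub_rev]

theorem hD_eq (v : ℂ) : hD v = Real.exp (Hl v) := by
  unfold hD Hl
  rw [Real.exp_log (by positivity)]

theorem ee_pos (l : ℕ) (hv : ‖v‖ < 1) : 0 < ee l v := by
  have h1 : 0 < ‖1 - lamD v‖ := norm_pos_iff.2 (sub_ne_zero.2 (lamD_ne_one hv).symm)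
  have h2 : 0 < hD v := by
    rw [hD_eq]
    exact Real.exp_pos _
  exact mul_pos h1 (pow_pos h2 l)

theorem log_ee (l : ℕ) (hv : ‖v‖ < 1) : Real.log (ee l v) = (L1 v).re + l * Hl v := by
  have h1 : 0 < ‖1 - lamD v‖ := norm_pos_iff.2 (sub_ne_zero.2 (lamD_ne_one hv).symm)
  unfold ee
  rw [hD_eq, Real.log_mul h1.ne' (pow_ne_zero _ (Real.exp_pos _).ne'), Real.log_pow, Real.log_exp,
    re_L1 hv]

theorem YD_small (hw : ‖w‖ < 1) (hv : ‖v‖ < 1) (h : ps w v ≤ t) (ht : t ≤ 1 / 6700) :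
    |YD v - YD w| ≤ 13400 * t * YD w := by
  have h1 := L4 hw hv (h.trans (by linarith))
  have hYw : 0 < YD w := by linarith [YD_lower hw]
  have hYv : 0 < YD v := by linarith [YD_lower hv]
  set x : ℝ := Real.log (YD v) - Real.log (YD w) with hx
  have h2 : YD v = YD w * Real.exp x := by
    rw [hx, Real.exp_sub, Real.exp_log hYv, Real.exp_log hYw]
    field_simp
  have h3 : |x| ≤ 6700 * t := h1.trans (by linarith)
  have h4 : |Real.exp x - 1| ≤ 2 * |x| := Real.abs_exp_sub_one_le (h3.trans (by linarith))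
  have h5 : YD v - YD w = YD w * (Real.exp x - 1) := by
    rw [h2]
    ring
  rw [h5, abs_mul, abs_of_pos hYw]
  calc YD w * |Real.exp x - 1| ≤ YD w * (2 * (6700 * t)) :=
        mul_le_mul_of_nonneg_left (h4.trans (by linarith)) hYw.le
    _ = 13400 * t * YD w := by ring

private theorem LL_sm (hw : ‖w‖ < 1) (hv : ‖v‖ < 1) (h : ps w v ≤ t) (ht : t ≤ 1 / 6700) :
    |(LL v).re - (LL w).re| ≤ 82 * t * YD w := by
  have h1 := LL_lip hw hv (h.trans (by linarith))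
  have h2 := Complex.abs_re_le_norm (LL v - LL w)
  rw [Complex.sub_re] at h2
  have hYw : 0 < YD w := by linarith [YD_lower hw]
  have h3 : YD w * ps w v ≤ YD w * t := mul_le_mul_of_nonneg_left h hYw.le
  refine (h2.trans h1).trans ?_
  linarith

private theorem L1_sm (hw : ‖w‖ < 1) (hv : ‖v‖ < 1) (h : ps w v ≤ t) (ht : t ≤ 1 / 6700) :
    |(L1 v).re - (L1 w).re| ≤ 82 * t * YD w := by
  have h1 := L1_lip hw hv (h.trans (by linarith))
  have h2 := Complex.abs_re_le_norm (L1 v - L1 w)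
  rw [Complex.sub_re] at h2
  have hYw : 0 < YD w := by linarith [YD_lower hw]
  have h3 : YD w * ps w v ≤ YD w * t := mul_le_mul_of_nonneg_left h hYw.le
  refine (h2.trans h1).trans ?_
  linarith

private theorem log_sum_le {a b a' b' D : ℝ} (ha : 0 < a) (hb : 0 < b) (ha' : 0 < a') (hb' : 0 < b')
    (hD : 0 ≤ D) (h1 : Real.log a ≤ Real.log a' + D) (h2 : Real.log b ≤ Real.log b' + D) :
    Real.log (1 + a + b) ≤ Real.log (1 + a' + b') + D := by
  have e1 : a ≤ a' * Real.exp D := by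
    have := Real.exp_le_exp.2 h1
    rwa [Real.exp_add, Real.exp_log ha, Real.exp_log ha'] at this
  have e2 : b ≤ b' * Real.exp D := by
    have := Real.exp_le_exp.2 h2
    rwa [Real.exp_add, Real.exp_log hb, Real.exp_log hb'] at this
  have e3 : 1 ≤ Real.exp D := Real.one_le_exp hD
  have e4 : 1 + a + b ≤ (1 + a' + b') * Real.exp D := by linarith
  have e5 := Real.log_le_log (by linarith : 0 < 1 + a + b) e4
  rwa [Real.log_mul (by linarith : (0 : ℝ) < 1 + a' + b').ne' (Real.exp_pos _).ne',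
    Real.log_exp] at e5

theorem Hl_small (hw : ‖w‖ < 1) (hv : ‖v‖ < 1) (h : ps w v ≤ t) (ht : t ≤ 1 / 6700) :
    |Hl v - Hl w| ≤ 82 * t * YD w := by
  have h1 := LL_sm hw hv h ht
  have h2 := L1_sm hw hv h ht
  rw [re_LL hv, re_LL hw] at h1
  rw [re_L1 hv, re_L1 hw] at h2
  have a1 : 0 < ‖lamD v‖ := norm_pos_iff.2 (lamD_ne_zero hv)
  have a2 : 0 < ‖lamD w‖ := norm_pos_iff.2 (lamD_ne_zero hw)
  have b1 : 0 < ‖1 - lamD v‖ := norm_pos_iff.2 (sub_ne_zero.2 (lamD_ne_one hv).symm)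
  have b2 : 0 < ‖1 - lamD w‖ := norm_pos_iff.2 (sub_ne_zero.2 (lamD_ne_one hw).symm)
  have hD0 : 0 ≤ 82 * t * YD w := (abs_nonneg _).trans h1
  rw [abs_le] at h1 h2 ⊢
  unfold Hl
  constructor
  · have := log_sum_le a2 b2 a1 b1 hD0 (by linarith [h1.1]) (by linarith [h2.1])
    linarith
  · have := log_sum_le a1 b1 a2 b2 hD0 (by linarith [h1.2]) (by linarith [h2.2])
    linarith

theorem HHl_small (hw : ‖w‖ < 1) (hv : ‖v‖ < 1) (h : ps w v ≤ t) (ht : t ≤ 1 / 6700) :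
    |HHl v - HHl w| ≤ 410 * t * YD w := by
  have h1 := LL_sm hw hv h ht
  have h2 := L1_sm hw hv h ht
  have h3 := Hl_small hw hv h ht
  unfold HHl
  rw [abs_le] at h1 h2 h3 ⊢
  constructor <;> linarith [h1.1, h1.2, h2.1, h2.2, h3.1, h3.2]

theorem ee_small (l : ℕ) (hw : ‖w‖ < 1) (hv : ‖v‖ < 1) (h : ps w v ≤ t) (ht : t ≤ 1 / 6700) :
    |Real.log (ee l v) - Real.log (ee l w)| ≤ 82 * (l + 1) * t * YD w := by
  have h2 := L1_sm hw hv h ht
  have h3 := Hl_small hw hv h ht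
  have hl : (0 : ℝ) ≤ l := Nat.cast_nonneg l
  rw [log_ee l hv, log_ee l hw]
  have e : (L1 v).re + l * Hl v - ((L1 w).re + l * Hl w) =
      ((L1 v).re - (L1 w).re) + l * (Hl v - Hl w) := by ring
  rw [e]
  refine (abs_add_le _ _).trans ?_
  rw [abs_mul, abs_of_nonneg hl]
  have h4 := mul_le_mul_of_nonneg_left h3 hl
  calc |(L1 v).re - (L1 w).re| + l * |Hl v - Hl w| ≤ 82 * t * YD w + l * (82 * t * YD w) :=
        add_le_add h2 h4
    _ = 82 * (l + 1) * t * YD w := by ring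

theorem YD_jump {y : ℝ} (hy : 1 ≤ y) (hw : ‖w‖ < 1) (hv : ‖v‖ < 1) (h : ps w v ≤ 1 - 1 / y) :
    YD v ≤ 12 * y * YD w := by
  have h1 := T_L5 hv hw
  rw [ps_symm v w] at h1
  have hYv : 0 < YD v := by linarith [YD_lower hv]
  have hy0 : 0 < y := by linarith
  have h2 : YD v * (1 / y) ≤ 12 * YD w := by
    refine le_trans ?_ h1
    exact mul_le_mul_of_nonneg_left (by linarith) hYv.le
  have h3 : YD v = YD v * (1 / y) * y := by field_simp
  rw [h3]
  calc YD v * (1 / y) * y ≤ 12 * YD w * y := mul_le_mul_of_nonneg_right h2 hy0.le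
    _ = 12 * y * YD w := by ring

/-- `Hl` and `ee` are controlled by the height -/
theorem Hl_bd (hv : ‖v‖ < 1) : 0 ≤ Hl v ∧ Hl v ≤ 9 * YD v := by
  exact ⟨log_hD_nonneg v, log_hD_le hv⟩

theorem log_ee_bd (l : ℕ) (hv : ‖v‖ < 1) : |Real.log (ee l v)| ≤ (9 * l + 7) * YD v := by
  refine (abs_log_ee l hv).trans (le_of_eq ?_)
  ring

/-- `|Ψ| ≤ e^ψ` -/
theorem Ps_le (l : ℕ) (v : ℂ) : ‖Ps l v‖ ≤ ee l v := by
  exact Ps_le_ee l v

end Pool.Agent.Helper81.QF
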