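import Pool.Agent.Helper81.QF.Run.Step1
import Pool.Agent.Helper81.QF.Run.Small

/-!
# QF-R5: the state inside the RUN phase, relative to its start

`(m₀, b₀, d₀, f₀, P₀)` is the state `St l C₃ y` at the start of the cycle, `j` the number of RUN steps made,
`X = exp (y^16) y^720 (cR y)^j`, `K₀ = 2 kd (nR X₀) (pR y)`, `X₀ = exp (y^16) y^720`.

* `Core.mono`: all fields of `Core` are monotone in `X` (`X ≥ 1`, `dl > 0` by `dl_pos`).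
* `rn_zero`: `Core.mono`; all other fields are trivial for `j = 0`.
-/

set_option autoImplicit false

namespace Pool.Agent.Helper81.QF

open Polynomial Metric Complex
open Pool.Agent.Helper84.Lam Pool.Agent.Helper29.QF

/-- first frequency bound of the cycle -/
noncomputable def X0 (y : ℝ) : ℝ := Real.exp (y ^ 16) * y ^ 720
noncomputable def K0 (y : ℝ) : ℕ := 2 * kd (nR (X0 y)) (pR y)

structure Rn (l : ℕ) (y : ℝ) (b₀ d₀ : ℂ[X]) (f₀ P₀ : ℂ → ℂ) (j : ℕ) (m : ℕ) (b d : ℂ[X])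
    (f P : ℂ → ℂ) : Prop where
  core : Core l (X0 y * cR y ^ j) m b d f P
  dvb : (X ^ K0 y : ℂ[X]) ∣ b - b₀
  dvd : (X ^ K0 y : ℂ[X]) ∣ d - d₀
  dlle : ∀ z : ℂ, ‖z‖ = 1 → dl b d z ≤ dl b₀ d₀ z
  dlge : ∀ z : ℂ, ‖z‖ = 1 → dl b₀ d₀ z ≤ y ^ j * dl b d z
  Pj : ∀ z : ℂ, ‖z‖ ≤ 1 → P z * jj l b₀ d₀ z = P₀ z * jj l b d z
  fj : ∀ z : ℂ, ‖z‖ ≤ 1 → ‖f z - f₀ z‖ * y ^ 50 ≤ j * ‖z‖ ^ K0 y * ‖f₀ z‖
  cold : ∀ z : ℂ, ‖z‖ = 1 → YD (Bq b₀ d₀ z) ≤ 3 * y ^ 5 → YD (Bq b d z) ≤ 24 * y ^ 6 + j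
  hotY : ∀ z : ℂ, ‖z‖ = 1 → 3 * y ^ 5 ≤ YD (Bq b₀ d₀ z) →
    |YD (Bq b d z) - YD (Bq b₀ d₀ z)| * y ^ 50 ≤ j
  hotH : ∀ z : ℂ, ‖z‖ = 1 → 3 * y ^ 5 ≤ YD (Bq b₀ d₀ z) →
    |HHl (Bq b d z) - HHl (Bq b₀ d₀ z)| * y ^ 50 ≤ j
  hotE : ∀ z : ℂ, ‖z‖ = 1 → 3 * y ^ 5 ≤ YD (Bq b₀ d₀ z) →
    |Real.log (ee l (Bq b d z)) - Real.log (ee l (Bq b₀ d₀ z))| * y ^ 50 ≤ j
  hotD : ∀ z : ℂ, ‖z‖ = 1 → 3 * y ^ 5 ≤ YD (Bq b₀ d₀ z) →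
    (Real.log (dl b₀ d₀ z) - Real.log (dl b d z)) * y ^ 50 ≤ j

theorem Core.mono {l : ℕ} {X X' : ℝ} {m : ℕ} {b d : ℂ[X]} {f P : ℂ → ℂ} (h : Core l X m b d f P)
    (hX : 1 ≤ X) (hXX : X ≤ X') : Core l X' m b d f P := by
  refine ⟨h.pair, h.b0, h.deg.trans hXX, fun z hz => (h.speed z hz).trans ?_, h.wup, h.anf, h.anP,
    h.fne, h.eq, fun i hi z hz => (h.fder i hi z hz).trans ?_, h.f0, h.P0⟩
  · exact mul_le_mul_of_nonneg_right hXX (dl_pos h.pair hz.le).le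
  · exact mul_le_mul_of_nonneg_right (pow_le_pow_left₀ (by linarith) hXX i) (norm_nonneg _)

theorem rn_zero {l : ℕ} {C₃ y : ℝ} (hy : 1 ≤ y) {m : ℕ} {b₀ d₀ : ℂ[X]} {f₀ P₀ : ℂ → ℂ}
    (h : St l C₃ y m b₀ d₀ f₀ P₀) : Rn l y b₀ d₀ f₀ P₀ 0 m b₀ d₀ f₀ P₀ := by
  have hy0 : 0 ≤ y := by linarith
  have h1 : 1 ≤ Real.exp (y ^ 16) := Real.one_le_exp (by positivity)
  have h2 : Real.exp (y ^ 16) ≤ X0 y * cR y ^ 0 := by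
    unfold X0
    rw [pow_zero, mul_one]
    have : 1 ≤ y ^ 720 := one_le_pow₀ hy
    nlinarith
  refine ⟨h.core.mono h1 h2, by simp, by simp, fun _ _ => le_rfl, fun z _ => by simp,
    fun _ _ => rfl, fun z _ => by simp, fun z _ hY => ?_, fun z _ _ => by simp,
    fun z _ _ => by simp, fun z _ _ => by simp, fun z _ _ => by simp⟩
  have h3 : y ^ 5 ≤ y ^ 6 := pow_le_pow_right₀ hy (by norm_num)
  have h4 : 0 ≤ y ^ 6 := by positivity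
  push_cast
  linarith

/-- the height is bounded during the phase -/
theorem Rn.Ybd {l : ℕ} {C₃ y : ℝ} (hy : 30 ≤ y) {m₀ : ℕ} {b₀ d₀ : ℂ[X]} {f₀ P₀ : ℂ → ℂ}
    (h₀ : St l C₃ y m₀ b₀ d₀ f₀ P₀) {j m : ℕ} {b d : ℂ[X]} {f P : ℂ → ℂ} (hj : (j : ℝ) ≤ y ^ 4)
    (h : Rn l y b₀ d₀ f₀ P₀ j m b d f P) {z : ℂ} (hz : ‖z‖ = 1) :
    YD (Bq b d z) ≤ 2 * y ^ 128 := by
  have hy1 : 1 ≤ y := by linarith
  have h6 : y ^ 6 ≤ y ^ 120 := pow_le_pow_right₀ hy1 (by norm_num)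
  have h4 : y ^ 4 ≤ y ^ 50 := pow_le_pow_right₀ hy1 (by norm_num)
  have h4' : y ^ 4 ≤ y ^ 120 := pow_le_pow_right₀ hy1 (by norm_num)
  have h8 : 30 * y ^ 120 ≤ y ^ 128 := by
    have e : y ^ 128 = y ^ 8 * y ^ 120 := by rw [← pow_add]
    rw [e]
    refine mul_le_mul_of_nonneg_right ?_ (by positivity)
    calc (30 : ℝ) ≤ y := hy
      _ = y ^ 1 := (pow_one y).symm
      _ ≤ y ^ 8 := pow_le_pow_right₀ hy1 (by norm_num)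
  have h120 : 1 ≤ y ^ 120 := one_le_pow₀ hy1
  rcases le_total (YD (Bq b₀ d₀ z)) (3 * y ^ 5) with hc | hc
  · have := h.cold z hz hc
    linarith
  · have h1 := h.hotY z hz hc
    have h2 : |YD (Bq b d z) - YD (Bq b₀ d₀ z)| ≤ 1 := by
      have h50 : 0 < y ^ 50 := by positivity
      by_contra hcon
      push Not at hcon
      have : y ^ 50 < |YD (Bq b d z) - YD (Bq b₀ d₀ z)| * y ^ 50 := by nlinarith
      linarith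
    have h3 := (abs_le.1 h2).2
    have h5 := h₀.Ysup z hz
    linarith

/-- `f` and `f₀` are comparable -/
theorem Rn.fbd {l : ℕ} {y : ℝ} (hy : 30 ≤ y) {b₀ d₀ : ℂ[X]} {f₀ P₀ : ℂ → ℂ}
    {j m : ℕ} {b d : ℂ[X]} {f P : ℂ → ℂ} (hj : (j : ℝ) ≤ y ^ 4)
    (h : Rn l y b₀ d₀ f₀ P₀ j m b d f P) {z : ℂ} (hz : ‖z‖ ≤ 1) :
    ‖f z‖ ≤ 2 * ‖f₀ z‖ ∧ ‖f₀ z‖ ≤ 2 * ‖f z‖ := by
  have hy1 : 1 ≤ y := by linarith
  have hf := norm_nonneg (f₀ z)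
  have h1 := h.fj z hz
  have h2 : ‖z‖ ^ K0 y ≤ 1 := pow_le_one₀ (norm_nonneg _) hz
  have h3 : (j : ℝ) * ‖z‖ ^ K0 y * ‖f₀ z‖ ≤ y ^ 4 * ‖f₀ z‖ := by
    refine mul_le_mul_of_nonneg_right ?_ hf
    calc (j : ℝ) * ‖z‖ ^ K0 y ≤ j * 1 := mul_le_mul_of_nonneg_left h2 (Nat.cast_nonneg j)
      _ ≤ y ^ 4 := by linarith
  have h4 : 4 * y ^ 4 ≤ y ^ 50 := by
    have e : y ^ 50 = y ^ 46 * y ^ 4 := by rw [← pow_add]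
    rw [e]
    refine mul_le_mul_of_nonneg_right ?_ (by positivity)
    calc (4 : ℝ) ≤ y := by linarith
      _ = y ^ 1 := (pow_one y).symm
      _ ≤ y ^ 46 := pow_le_pow_right₀ hy1 (by norm_num)
  have h5 : ‖f z - f₀ z‖ ≤ ‖f₀ z‖ / 4 := by
    have h50 : 0 < y ^ 4 := by positivity
    have h6 : ‖f z - f₀ z‖ * (4 * y ^ 4) ≤ y ^ 4 * ‖f₀ z‖ :=
      (mul_le_mul_of_nonneg_left h4 (norm_nonneg _)).trans (h1.trans h3)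
    have h7 : y ^ 4 * (4 * ‖f z - f₀ z‖) ≤ y ^ 4 * ‖f₀ z‖ := by linarith
    have h8 := le_of_mul_le_mul_left h7 h50
    linarith
  have h6 : ‖f z‖ ≤ ‖f₀ z‖ + ‖f z - f₀ z‖ := by
    calc ‖f z‖ = ‖f₀ z + (f z - f₀ z)‖ := by ring_nf
      _ ≤ _ := norm_add_le _ _
  have h7 : ‖f₀ z‖ ≤ ‖f z‖ + ‖f z - f₀ z‖ := by
    calc ‖f₀ z‖ = ‖f z - (f z - f₀ z)‖ := by ring_nf
      _ ≤ _ := norm_sub_le _ _
  exact ⟨by linarith, by linarith⟩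

end Pool.Agent.Helper81.QF
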