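import Pool.Agent.Helper81.QF.Run.Sizes
import Pool.Agent.Helper81.QF.Run.FStep

/-!
# QF-R9: one RUN step, `Rn j → Rn (j+1)`

`X = X0 y * cR y ^ j`, `b' = bR y X m b d`, `d' = dR y X m b d`, `K = 2 kd (nR X) (pR y)`, `c = cfR y X b d z`.
Numbers (`y ≥ y₀(l)`): `X ≥ 1`, `cR y ≥ y`, `K ≥ 5000000 X ≥ 4 X`, `K ≥ K0 y` (`X ≥ X0 y`, `nR` monotone),
`K ≤ 6000000 p X` (`kd_le`), `ε = 1/y^580`, the hypotheses `h1`, `h2` of `fstep` are `sizes`.
Put `η = 2 4^l ε ≤ 1/y^60`. Apply `fstep` with `g = gR y X b d`, `k = 4 kd`.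
Fields of `Rn (j+1)`:
* `core`: `pairR, bR_zero, degR, speedR` (`cR y * X = X0 y * cR y^(j+1)`), `dlR` (`0 ≤ 1 - c² ≤ 1`), `fstep`; `fder`: `i = 0` trivial;
  `i ≥ 1`: `|f'^(i)| ≤ X^i |f| + η K^i |f|`, `|f| ≤ 2|f'|`, `≤ 2 (7000000 p X)^i |f'| ≤ (cR y X)^i |f'|`.
* `dvb, dvd`: `b' - b₀ = (b - b₀) + g * star m d`, `X^(K0) ∣ X^K ∣ g`.
* `dlle, dlge`: `dlR`.   * `Pj`: multiply, cancel `jj l b d z ≠ 0`.
* `fj`: `|f' - f₀| ≤ η |z|^K |f| + |f - f₀|`, `|z|^K ≤ |z|^(K0)`, `|f| ≤ 2 |f₀|`, `2 η y^50 ≤ 1`.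
* `cold`: if `1.1 y^5 ≤ YD B` then `c ≤ y^(-1000)` (`cf_small`), `YD_small` with `t = y^(-1000)`: `YD B' ≤ YD B + 1`. Otherwise
  `YD B' ≤ 12 y 1.1 y^5 ≤ 24 y^6`.
* `hot*`: `YD B ≥ 3 y^5 - 1 ≥ 1.1 y^5`, so `c ≤ y^(-1000)`; `YD_small, HHl_small, ee_small` with `YD B ≤ 2 y^128`; each change times
  `y^50` is `≤ 1`; `log dl - log dl' = -log(1 - c²) ≤ 2 c²`.
-/

set_option autoImplicit false

namespace Pool.Agent.Helper81.QF

open Polynomial Metric Complex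
open Pool.Agent.Helper84.Lam Pool.Agent.Helper29.QF

private theorem h54_small {y a Y : ℝ} (hy : 30 ≤ y) (ha : a ≤ y ^ 8) (hY0 : 0 ≤ Y)
    (hY : Y ≤ 2 * y ^ 128) : a * (1 / y ^ 1000) * Y * y ^ 50 ≤ 1 := by
  have hy0 : 0 < y := by linarith
  have hy1 : 1 ≤ y := by linarith
  have e : a * (1 / y ^ 1000) * Y * y ^ 50 = a * Y * y ^ 50 / y ^ 1000 := by ring
  rw [e, div_le_one (by positivity)]
  calc a * Y * y ^ 50 ≤ y ^ 8 * (2 * y ^ 128) * y ^ 50 := by
        refine mul_le_mul_of_nonneg_right ?_ (by positivity)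
        exact mul_le_mul ha hY hY0 (by positivity)
    _ = 2 * y ^ 186 := by ring
    _ ≤ y ^ 814 * y ^ 186 := by
        refine mul_le_mul_of_nonneg_right ?_ (by positivity)
        calc (2 : ℝ) ≤ y ^ 1 := by rw [pow_one]; linarith
          _ ≤ y ^ 814 := pow_le_pow_right₀ hy1 (by norm_num)
    _ = y ^ 1000 := by rw [← pow_add]

private theorem h54_pR (y : ℝ) : (2 : ℝ) ≤ pR y := by
  unfold pR
  push_cast
  have : (0 : ℝ) ≤ (⌈1000 * Real.log y⌉₊ : ℝ) := Nat.cast_nonneg _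
  linarith

private theorem h54_cR {y : ℝ} (hy : 1 ≤ y) : 1 ≤ cR y := by
  unfold cR
  have := h54_pR y
  nlinarith

private theorem h54_X0 {y : ℝ} (hy : 1 ≤ y) : 1 ≤ X0 y := by
  unfold X0
  have h1 : 1 ≤ Real.exp (y ^ 16) := Real.one_le_exp (by positivity)
  have h2 : 1 ≤ y ^ 720 := one_le_pow₀ hy
  nlinarith

private theorem h54_X {y : ℝ} (hy : 1 ≤ y) (j : ℕ) : X0 y ≤ X0 y * cR y ^ j := by
  have h1 : 1 ≤ cR y ^ j := one_le_pow₀ (h54_cR hy)
  have h2 := h54_X0 hy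
  nlinarith

private theorem h54_K {y : ℝ} (hy : 1 ≤ y) (j : ℕ) :
    K0 y ≤ 2 * kd (nR (X0 y * cR y ^ j)) (pR y) := by
  have h1 : nR (X0 y) ≤ nR (X0 y * cR y ^ j) := by
    unfold nR
    exact Nat.ceil_mono (by linarith [h54_X hy j])
  unfold K0 kd
  have h2 : nR (X0 y) - 1 ≤ nR (X0 y * cR y ^ j) - 1 := Nat.sub_le_sub_right h1 1
  exact Nat.mul_le_mul_left 2 (Nat.mul_le_mul_left _ h2)

private theorem h54_pow {a b : ℝ} (ha : 0 ≤ a) (hb : 0 ≤ b) {i : ℕ} (hi : 1 ≤ i) :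
    a ^ i + b ^ i ≤ (a + b) ^ i := by
  induction i, hi using Nat.le_induction with
  | base => simp
  | succ n hn ih =>
    have h1 : 0 ≤ a ^ n := by positivity
    have h2 : 0 ≤ b ^ n := by positivity
    calc a ^ (n + 1) + b ^ (n + 1) ≤ (a ^ n + b ^ n) * (a + b) := by
          rw [pow_succ, pow_succ]
          nlinarith [mul_nonneg h1 hb, mul_nonneg h2 ha]
      _ ≤ (a + b) ^ n * (a + b) := mul_le_mul_of_nonneg_right ih (by linarith)
      _ = (a + b) ^ (n + 1) := (pow_succ _ _).symm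

theorem run_step {l : ℕ} (hl : 1 ≤ l) : ∃ y₀ : ℝ, 30 ≤ y₀ ∧ ∀ y : ℝ, y₀ ≤ y →
    ∀ (C₃ : ℝ) (m₀ : ℕ) (b₀ d₀ : ℂ[X]) (f₀ P₀ : ℂ → ℂ), St l C₃ y m₀ b₀ d₀ f₀ P₀ →
    ∀ (j m : ℕ) (b d : ℂ[X]) (f P : ℂ → ℂ), (j : ℝ) + 1 ≤ y ^ 4 → Rn l y b₀ d₀ f₀ P₀ j m b d f P →
      ∃ f' P' : ℂ → ℂ, Rn l y b₀ d₀ f₀ P₀ (j + 1) (mR y (X0 y * cR y ^ j) m)
        (bR y (X0 y * cR y ^ j) m b d) (dR y (X0 y * cR y ^ j) m b d) f' P' := by
  obtain ⟨y₁, hy₁, hS⟩ := sizes hl
  refine ⟨max y₁ (max (4 ^ l) (l + 1)), hy₁.trans (le_max_left _ _), ?_⟩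
  intro y hy C₃ m₀ b₀ d₀ f₀ P₀ h₀ j m b d f P hj h
  have hyy₁ : y₁ ≤ y := (le_max_left _ _).trans hy
  have hy4 : (4 : ℝ) ^ l ≤ y := (le_max_left _ _).trans ((le_max_right _ _).trans hy)
  have hyl : (l : ℝ) + 1 ≤ y := (le_max_right _ _).trans ((le_max_right _ _).trans hy)
  have hy30 : 30 ≤ y := hy₁.trans hyy₁
  have hy0 : 0 < y := by linarith
  have hy1 : 1 ≤ y := by linarith
  have hy3 : 3 ≤ y := by linarith
  have hj4 : (j : ℝ) ≤ y ^ 4 := by linarith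
  have hXX := h54_X hy1 j
  have hX : 1 ≤ X0 y * cR y ^ j := (h54_X0 hy1).trans hXX
  have hK0 := h54_K hy1 j
  have hSz := hS y hyy₁ C₃ m₀ b₀ d₀ f₀ P₀ h₀ j m b d f P hj h
  have hXe : X0 y * cR y ^ (j + 1) = cR y * (X0 y * cR y ^ j) := by ring
  have hYb := fun {z : ℂ} (hz : ‖z‖ = 1) => Rn.Ybd hy30 h₀ hj4 h hz
  have hfb := fun {z : ℂ} (hz : ‖z‖ ≤ 1) => Rn.fbd hy30 hj4 h hz
  have hcore := h.core
  -- `X` is now a variable
  generalize hXdef : X0 y * cR y ^ j = X at hXX hX hK0 hSz hXe hcore ⊢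
  set K : ℕ := 2 * kd (nR X) (pR y) with hKdef
  have hp := hcore.pair
  have hKge : 5000000 * X ≤ (K : ℝ) := by
    have := kd_ge (y := y) hX
    rw [hKdef]
    push_cast
    exact this
  have hKle : (K : ℝ) ≤ 6000000 * pR y * X := by
    have := kd_le (y := y) hX
    rw [hKdef]
    push_cast
    linarith
  have hp2 := h54_pR y
  -- the cut-off
  have hc := fun {z : ℂ} (hz : ‖z‖ = 1) => cf_range hp hy1 hX hz
  have hr : rR y < 1 := by
    unfold rR
    have : 0 < 1 / y := by positivity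
    linarith
  -- constants
  have hε0 : (0 : ℝ) ≤ 1 / y ^ 580 := by positivity
  have hη : 2 * 4 ^ l * (1 / y ^ 580) * y ^ 51 ≤ 1 := by
    have e : 2 * 4 ^ l * (1 / y ^ 580) * y ^ 51 = 2 * 4 ^ l * y ^ 51 / y ^ 580 := by ring
    rw [e, div_le_one (by positivity)]
    calc 2 * (4 : ℝ) ^ l * y ^ 51 ≤ y * y * y ^ 51 := by
          refine mul_le_mul_of_nonneg_right ?_ (by positivity)
          exact mul_le_mul (by linarith) hy4 (by positivity) hy0.le
      _ = y ^ 53 := by ring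
      _ ≤ y ^ 580 := pow_le_pow_right₀ hy1 (by norm_num)
  set η : ℝ := 2 * 4 ^ l * (1 / y ^ 580) with hηdef
  have hη0 : 0 ≤ η := by positivity
  have hy51 : 2 * y ^ 50 ≤ y ^ 51 := by
    have : y ^ 51 = y * y ^ 50 := by ring
    rw [this]
    exact mul_le_mul_of_nonneg_right (by linarith) (by positivity)
  have hη50 : 2 * η * y ^ 50 ≤ 1 := by
    calc 2 * η * y ^ 50 = η * (2 * y ^ 50) := by ring
      _ ≤ η * y ^ 51 := mul_le_mul_of_nonneg_left hy51 hη0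
      _ ≤ 1 := hη
  have hη2 : η ≤ 1 / 2 := by
    have : 1 ≤ y ^ 50 := one_le_pow₀ hy1
    nlinarith
  obtain ⟨f', P', anf', anP', fne', Pj', eq', fd', fder', f0', P0'⟩ :=
    fstep hl (X₁ := X) (ε := 1 / y ^ 580) (m := m) (k := 4 * kd (nR X) (pR y)) (K := K) (b := b) (d := d)
      (g := gR y X b d) (f := f) (P := P) hcore hX (by linarith) (gP_dvd _ _ _)
      (gP_natDegree _ _ _) (fun z hz => by
        rw [gR_norm hp hy1 hX hz]
        exact lt_of_le_of_lt (hc hz).2 hr) hε0 hη2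
      (fun z hz => (hSz z hz).1) (fun z hz => (hSz z hz).2)
  have hbe : bR y X m b d = b + gR y X b d * star m d := rfl
  have hde : dR y X m b d = d + gR y X b d * star m b := rfl
  rw [← hbe, ← hde] at Pj'
  rw [← hbe, ← hde] at eq'
  have hp' := pairR hp hy1 hX
  -- pointwise facts on the circle
  have hdl := fun {z : ℂ} (hz : ‖z‖ = 1) => dlR hp hy1 hX hz
  have hdl0 := fun {z : ℂ} (hz : ‖z‖ = 1) => dl_pos hp hz.le
  have hc2 : ∀ {z : ℂ}, ‖z‖ = 1 → 1 / y ≤ 1 - cfR y X b d z ^ 2 ∧ 1 - cfR y X b d z ^ 2 ≤ 1 := by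
    intro z hz
    have h1 := hc hz
    have h2 : cfR y X b d z ≤ 1 - 1 / y := h1.2
    have h3 : 0 ≤ cfR y X b d z := h1.1
    have h4 : cfR y X b d z ≤ 1 := by linarith [show 0 < 1 / y by positivity]
    constructor
    · nlinarith
    · nlinarith [sq_nonneg (cfR y X b d z)]
  have hfin : ∀ {z : ℂ}, ‖z‖ ≤ 1 → ‖f z‖ ≤ 2 * ‖f' z‖ := by
    intro z hz
    have h1 := fd' z hz
    have h2 : ‖z‖ ^ K ≤ 1 := pow_le_one₀ (norm_nonneg _) hz
    have h3 : η * ‖z‖ ^ K * ‖f z‖ ≤ 1 / 2 * ‖f z‖ := by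
      refine mul_le_mul_of_nonneg_right ?_ (norm_nonneg _)
      calc η * ‖z‖ ^ K ≤ η * 1 := mul_le_mul_of_nonneg_left h2 hη0
        _ ≤ 1 / 2 := by linarith
    have h4 : ‖f z‖ ≤ ‖f' z‖ + ‖f' z - f z‖ := by
      calc ‖f z‖ = ‖f' z - (f' z - f z)‖ := by ring_nf
        _ ≤ _ := norm_sub_le _ _
    linarith
  have hB := fun {z : ℂ} (hz : ‖z‖ = 1) => Bq_lt hp hz.le
  have hB' := fun {z : ℂ} (hz : ‖z‖ = 1) => Bq_lt hp' hz.le
  have hcs := fun {z : ℂ} (hz : ‖z‖ = 1) (hY : 1.1 * y ^ 5 ≤ YD (Bq b d z)) =>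
    cf_small hp hy3 hX hcore.speed hz hY
  have hps := fun {z : ℂ} (hz : ‖z‖ = 1) => psR hp hy1 hX hz
  have ht : (1 : ℝ) / y ^ 1000 ≤ 1 / 6700 := by
    refine one_div_le_one_div_of_le (by norm_num) ?_
    calc (6700 : ℝ) ≤ 30 ^ 3 := by norm_num
      _ ≤ y ^ 3 := pow_le_pow_left₀ (by norm_num) hy30 3
      _ ≤ y ^ 1000 := pow_le_pow_right₀ hy1 (by norm_num)
  have hpsS : ∀ {z : ℂ}, ‖z‖ = 1 → 1.1 * y ^ 5 ≤ YD (Bq b d z) →
      ps (Bq b d z) (Bq (bR y X m b d) (dR y X m b d) z) ≤ 1 / y ^ 1000 := by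
    intro z hz hY
    rw [hps hz]
    exact hcs hz hY
  have hY0 : ∀ {z : ℂ}, ‖z‖ = 1 → 0 ≤ YD (Bq b d z) := by
    intro z hz
    have := YD_lower (hB hz)
    linarith
  have hy8 : (13400 : ℝ) ≤ y ^ 8 := by
    calc (13400 : ℝ) ≤ 30 ^ 3 := by norm_num
      _ ≤ y ^ 3 := pow_le_pow_left₀ (by norm_num) hy30 3
      _ ≤ y ^ 8 := pow_le_pow_right₀ hy1 (by norm_num)
  have hy50 : 1 ≤ y ^ 50 := one_le_pow₀ hy1
  have hYch : ∀ {z : ℂ}, ‖z‖ = 1 → 1.1 * y ^ 5 ≤ YD (Bq b d z) →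
      |YD (Bq (bR y X m b d) (dR y X m b d) z) - YD (Bq b d z)| * y ^ 50 ≤ 1 := by
    intro z hz hY
    have h1 := YD_small (hB hz) (hB' hz) (hpsS hz hY) ht
    exact (mul_le_mul_of_nonneg_right h1 (by positivity)).trans
      (h54_small hy30 hy8 (hY0 hz) (hYb hz))
  have hHot : ∀ {z : ℂ}, ‖z‖ = 1 → 3 * y ^ 5 ≤ YD (Bq b₀ d₀ z) → 1.1 * y ^ 5 ≤ YD (Bq b d z) := by
    intro z hz hY
    have h1 := h.hotY z hz hY
    have h2 : |YD (Bq b d z) - YD (Bq b₀ d₀ z)| ≤ 1 := by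
      have h4' : y ^ 4 ≤ y ^ 50 := pow_le_pow_right₀ hy1 (by norm_num)
      by_contra hcon
      push Not at hcon
      have : y ^ 50 < |YD (Bq b d z) - YD (Bq b₀ d₀ z)| * y ^ 50 := by nlinarith
      linarith
    have h3 := (abs_le.1 h2).1
    have h5 : 1 ≤ y ^ 5 := one_le_pow₀ hy1
    linarith
  refine ⟨f', P', ⟨hp', bR_zero hp hX hcore.b0, ?_, ?_, ?_, anf', anP', fne', eq', ?_, f0', P0'⟩,
    ?_, ?_, ?_, ?_, ?_, ?_, ?_, ?_, ?_, ?_, ?_⟩
  · -- deg
    rw [hXe]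
    exact degR hy3 hX hcore.deg
  · -- speed
    intro z hz
    rw [hXe]
    exact speedR hp hy3 hX hcore.deg hcore.speed hz
  · -- wup
    intro z hz
    rw [hdl hz]
    have h1 := hcore.wup z hz
    have h2 := hc2 hz
    have h3 := hdl0 hz
    nlinarith
  · -- fder
    intro i hi z hz
    rcases Nat.eq_zero_or_pos i with h0 | h0
    · rw [h0, iteratedDeriv_zero, pow_zero, one_mul]
    · have h1 := fder' i hi z hz
      have h2 := hcore.fder i hi z hz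
      have h3 := hfin hz.le
      have h4 : ‖iteratedDeriv i f' z‖ ≤ ‖iteratedDeriv i f z‖ +
          ‖iteratedDeriv i f' z - iteratedDeriv i f z‖ := by
        calc ‖iteratedDeriv i f' z‖ = ‖iteratedDeriv i f z +
              (iteratedDeriv i f' z - iteratedDeriv i f z)‖ := by ring_nf
          _ ≤ _ := norm_add_le _ _
      have h5 : (K : ℝ) ^ i ≤ (6000000 * pR y * X) ^ i :=
        pow_le_pow_left₀ (Nat.cast_nonneg K) hKle i
      have h6 : 2 * X ^ i + (6000000 * pR y * X) ^ i ≤ (cR y * X) ^ i := by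
        calc 2 * X ^ i + (6000000 * pR y * X) ^ i ≤ (2 * X) ^ i + (6000000 * pR y * X) ^ i := by
              rw [mul_pow 2 X i]
              have h7 : (2 : ℝ) ≤ 2 ^ i := by
                calc (2 : ℝ) = 2 ^ 1 := (pow_one _).symm
                  _ ≤ 2 ^ i := pow_le_pow_right₀ (by norm_num) h0
              have h8 : 0 ≤ X ^ i := by positivity
              nlinarith
          _ ≤ (2 * X + 6000000 * pR y * X) ^ i := h54_pow (by positivity) (by positivity) h0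
          _ ≤ (cR y * X) ^ i := by
              refine pow_le_pow_left₀ (by positivity) ?_ i
              have h9 : 2 + 6000000 * (pR y : ℝ) ≤ cR y := by
                unfold cR
                nlinarith
              calc 2 * X + 6000000 * (pR y : ℝ) * X = (2 + 6000000 * (pR y : ℝ)) * X := by ring
                _ ≤ cR y * X := mul_le_mul_of_nonneg_right h9 (by linarith)
      have hXi : 0 ≤ X ^ i := by positivity
      have hKi : 0 ≤ (6000000 * (pR y : ℝ) * X) ^ i := by positivity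
      rw [hXe]
      calc ‖iteratedDeriv i f' z‖ ≤ X ^ i * ‖f z‖ + η * (K : ℝ) ^ i * ‖f z‖ := by linarith
        _ ≤ (X ^ i + 1 / 2 * (6000000 * pR y * X) ^ i) * ‖f z‖ := by
            rw [add_mul]
            refine add_le_add le_rfl (mul_le_mul_of_nonneg_right ?_ (norm_nonneg _))
            exact mul_le_mul hη2 h5 (by positivity) (by norm_num)
        _ ≤ (X ^ i + 1 / 2 * (6000000 * pR y * X) ^ i) * (2 * ‖f' z‖) :=
            mul_le_mul_of_nonneg_left h3 (by positivity)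
        _ = (2 * X ^ i + (6000000 * pR y * X) ^ i) * ‖f' z‖ := by ring
        _ ≤ (cR y * X) ^ i * ‖f' z‖ := mul_le_mul_of_nonneg_right h6 (norm_nonneg _)
  · -- dvb
    have h1 : (Polynomial.X ^ K0 y : ℂ[X]) ∣ gR y X b d := (pow_dvd_pow _ hK0).trans (gP_dvd _ _ _)
    have h2 : bR y X m b d - b₀ = (b - b₀) + gR y X b d * star m d := by
      rw [hbe]
      ring
    rw [h2]
    exact dvd_add h.dvb (h1.mul_right _)
  · -- dvd
    have h1 : (Polynomial.X ^ K0 y : ℂ[X]) ∣ gR y X b d := (pow_dvd_pow _ hK0).trans (gP_dvd _ _ _)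
    have h2 : dR y X m b d - d₀ = (d - d₀) + gR y X b d * star m b := by
      rw [hde]
      ring
    rw [h2]
    exact dvd_add h.dvd (h1.mul_right _)
  · -- dlle
    intro z hz
    rw [hdl hz]
    have h1 := h.dlle z hz
    have h2 := hc2 hz
    have h3 := hdl0 hz
    nlinarith
  · -- dlge
    intro z hz
    rw [hdl hz]
    have h1 := h.dlge z hz
    have h2 := hc2 hz
    have h3 := hdl0 hz
    have h4 : 1 ≤ y * (1 - cfR y X b d z ^ 2) := by
      have h5 := mul_le_mul_of_nonneg_left h2.1 hy0.le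
      have h6 : y * (1 / y) = 1 := by field_simp
      linarith
    calc dl b₀ d₀ z ≤ y ^ j * dl b d z := h1
      _ ≤ y ^ j * ((y * (1 - cfR y X b d z ^ 2)) * dl b d z) := by
          refine mul_le_mul_of_nonneg_left ?_ (by positivity)
          nlinarith
      _ = y ^ (j + 1) * ((1 - cfR y X b d z ^ 2) * dl b d z) := by ring
  · -- Pj
    intro z hz
    have h1 := h.Pj z hz
    have h2 := Pj' z hz
    have h3 := jj_ne hp l hz
    apply mul_right_cancel₀ h3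
    calc P' z * jj l b₀ d₀ z * jj l b d z = P' z * jj l b d z * jj l b₀ d₀ z := by ring
      _ = P z * jj l b₀ d₀ z * jj l (bR y X m b d) (dR y X m b d) z := by rw [h2]; ring
      _ = P₀ z * jj l (bR y X m b d) (dR y X m b d) z * jj l b d z := by rw [h1]; ring
  · -- fj
    intro z hz
    have h1 := h.fj z hz
    have h2 := fd' z hz
    have h3 := (hfb hz).1
    have h4 : ‖z‖ ^ K ≤ ‖z‖ ^ K0 y := pow_le_pow_of_le_one (norm_nonneg _) hz hK0
    have h5 : ‖f' z - f₀ z‖ ≤ ‖f' z - f z‖ + ‖f z - f₀ z‖ := by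
      calc ‖f' z - f₀ z‖ = ‖(f' z - f z) + (f z - f₀ z)‖ := by ring_nf
        _ ≤ _ := norm_add_le _ _
    have h6 : ‖f' z - f z‖ * y ^ 50 ≤ ‖z‖ ^ K0 y * ‖f₀ z‖ := by
      calc ‖f' z - f z‖ * y ^ 50 ≤ (η * ‖z‖ ^ K * ‖f z‖) * y ^ 50 :=
            mul_le_mul_of_nonneg_right h2 (by positivity)
        _ ≤ (η * ‖z‖ ^ K0 y * (2 * ‖f₀ z‖)) * y ^ 50 := by
            refine mul_le_mul_of_nonneg_right ?_ (by positivity)
            exact mul_le_mul (mul_le_mul_of_nonneg_left h4 hη0) h3 (norm_nonneg _) (by positivity)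
        _ = (2 * η * y ^ 50) * (‖z‖ ^ K0 y * ‖f₀ z‖) := by ring
        _ ≤ 1 * (‖z‖ ^ K0 y * ‖f₀ z‖) := mul_le_mul_of_nonneg_right hη50 (by positivity)
        _ = _ := one_mul _
    push_cast
    calc ‖f' z - f₀ z‖ * y ^ 50 ≤ (‖f' z - f z‖ + ‖f z - f₀ z‖) * y ^ 50 :=
          mul_le_mul_of_nonneg_right h5 (by positivity)
      _ = ‖f' z - f z‖ * y ^ 50 + ‖f z - f₀ z‖ * y ^ 50 := by ring
      _ ≤ ‖z‖ ^ K0 y * ‖f₀ z‖ + j * ‖z‖ ^ K0 y * ‖f₀ z‖ := add_le_add h6 h1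
      _ = (j + 1) * ‖z‖ ^ K0 y * ‖f₀ z‖ := by ring
  · -- cold
    intro z hz hY
    have h1 := h.cold z hz hY
    push_cast
    by_cases h2 : 1.1 * y ^ 5 ≤ YD (Bq b d z)
    · have h3 := hYch hz h2
      have h4 := (le_abs_self (YD (Bq (bR y X m b d) (dR y X m b d) z) - YD (Bq b d z)))
      have h5 := abs_nonneg (YD (Bq (bR y X m b d) (dR y X m b d) z) - YD (Bq b d z))
      nlinarith
    · push Not at h2
      have h3 := YD_jump hy1 (hB hz) (hB' hz) (by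
        rw [hps hz]
        exact (hc hz).2)
      have h4 : 12 * y * YD (Bq b d z) ≤ 12 * y * (1.1 * y ^ 5) :=
        mul_le_mul_of_nonneg_left h2.le (by positivity)
      have h5 : 12 * y * (1.1 * y ^ 5) = 13.2 * y ^ 6 := by ring
      have h6 : 0 ≤ y ^ 6 := by positivity
      have h7 : (0 : ℝ) ≤ j := Nat.cast_nonneg j
      linarith
  · -- hotY
    intro z hz hY
    have h1 := h.hotY z hz hY
    have h2 := hYch hz (hHot hz hY)
    push_cast
    have h3 := abs_sub_le (YD (Bq (bR y X m b d) (dR y X m b d) z)) (YD (Bq b d z))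
      (YD (Bq b₀ d₀ z))
    calc _ ≤ (|YD (Bq (bR y X m b d) (dR y X m b d) z) - YD (Bq b d z)| +
          |YD (Bq b d z) - YD (Bq b₀ d₀ z)|) * y ^ 50 :=
          mul_le_mul_of_nonneg_right h3 (by positivity)
      _ ≤ _ := by rw [add_mul]; linarith
  · -- hotH
    intro z hz hY
    have h1 := h.hotH z hz hY
    have hh := hHot hz hY
    have h2 := HHl_small (hB hz) (hB' hz) (hpsS hz hh) ht
    have h2' := (mul_le_mul_of_nonneg_right h2 (show 0 ≤ y ^ 50 by positivity)).trans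
      (h54_small hy30 (by linarith) (hY0 hz) (hYb hz))
    push_cast
    have h3 := abs_sub_le (HHl (Bq (bR y X m b d) (dR y X m b d) z)) (HHl (Bq b d z))
      (HHl (Bq b₀ d₀ z))
    calc _ ≤ (|HHl (Bq (bR y X m b d) (dR y X m b d) z) - HHl (Bq b d z)| +
          |HHl (Bq b d z) - HHl (Bq b₀ d₀ z)|) * y ^ 50 :=
          mul_le_mul_of_nonneg_right h3 (by positivity)
      _ ≤ _ := by rw [add_mul]; linarith
  · -- hotE
    intro z hz hY
    have h1 := h.hotE z hz hY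
    have hh := hHot hz hY
    have h2 := ee_small l (hB hz) (hB' hz) (hpsS hz hh) ht
    have h8 : 82 * ((l : ℝ) + 1) ≤ y ^ 8 := by
      have h9 : (82 : ℝ) ≤ y ^ 7 := by
        calc (82 : ℝ) ≤ 30 ^ 2 := by norm_num
          _ ≤ y ^ 2 := pow_le_pow_left₀ (by norm_num) hy30 2
          _ ≤ y ^ 7 := pow_le_pow_right₀ hy1 (by norm_num)
      calc 82 * ((l : ℝ) + 1) ≤ y ^ 7 * y := mul_le_mul h9 hyl (by positivity) (by positivity)
        _ = y ^ 8 := by ring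
    have h2' := (mul_le_mul_of_nonneg_right h2 (show 0 ≤ y ^ 50 by positivity)).trans
      (h54_small hy30 h8 (hY0 hz) (hYb hz))
    push_cast
    have h3 := abs_sub_le (Real.log (ee l (Bq (bR y X m b d) (dR y X m b d) z)))
      (Real.log (ee l (Bq b d z))) (Real.log (ee l (Bq b₀ d₀ z)))
    calc _ ≤ (|Real.log (ee l (Bq (bR y X m b d) (dR y X m b d) z)) - Real.log (ee l (Bq b d z))| +
          |Real.log (ee l (Bq b d z)) - Real.log (ee l (Bq b₀ d₀ z))|) * y ^ 50 :=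
          mul_le_mul_of_nonneg_right h3 (by positivity)
      _ ≤ _ := by rw [add_mul]; linarith
  · -- hotD
    intro z hz hY
    have h1 := h.hotD z hz hY
    have hh := hHot hz hY
    have h2 : cfR y X b d z ≤ 1 / y ^ 1000 := hcs hz hh
    have h3 : 0 ≤ cfR y X b d z := (hc hz).1
    have h4 : cfR y X b d z ^ 2 ≤ 1 / y ^ 1000 := by
      have h5 : cfR y X b d z ≤ 1 := by linarith
      nlinarith
    have h6 := hc2 hz
    have h7 : 0 < 1 - cfR y X b d z ^ 2 := lt_of_lt_of_le (by positivity) h6.1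
    have h8 : -(2 * cfR y X b d z ^ 2) ≤ Real.log (1 - cfR y X b d z ^ 2) := by
      have h9 := Real.one_sub_inv_le_log_of_pos h7
      refine le_trans ?_ h9
      have h10 : (1 - cfR y X b d z ^ 2)⁻¹ ≤ 1 + 2 * cfR y X b d z ^ 2 := by
        rw [inv_le_iff_one_le_mul₀ h7]
        have h11 : cfR y X b d z ^ 2 ≤ 1 / 2 := by linarith
        nlinarith [sq_nonneg (cfR y X b d z)]
      linarith
    rw [hdl hz, Real.log_mul h7.ne' (hdl0 hz).ne']
    push_cast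
    have h12 : 2 * cfR y X b d z ^ 2 * y ^ 50 ≤ 1 := by
      have h13 := h54_small hy30 (a := 2) (Y := 1) (by linarith) (by norm_num) (by
        have : 1 ≤ y ^ 128 := one_le_pow₀ hy1
        linarith)
      calc 2 * cfR y X b d z ^ 2 * y ^ 50 ≤ 2 * (1 / y ^ 1000) * y ^ 50 :=
            mul_le_mul_of_nonneg_right (by linarith) (by positivity)
        _ = 2 * (1 / y ^ 1000) * 1 * y ^ 50 := by ring
        _ ≤ 1 := h13
    nlinarith

end Pool.Agent.Helper81.QF
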