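import Pool.Agent.Helper81.QF.Run.Rn
import Pool.Agent.Helper29.QF.JJ
import Pool.Agent.Helper29.QF.EE

/-!
# QF-R8: sizes in one RUN step

`X = X0 y * cR y ^ j`, `b' = bR y X m b d`, `d' = dR y X m b d`, `K = 2 kd (nR X) (pR y)`, `c = cfR y X b d z`.
Numbers (`y ≥ y₀(l)`): `X ≥ 1`, `cR y ≥ y`, `K ≥ 5000000 X ≥ 4 X`, `K ≥ K0 y` (`X ≥ X0 y`, `nR` monotone),
`K ≤ 6000000 p X` (`kd_le`).

`sizes`: from `jj_norm` for `(b, d)`, `(b₀, d₀)` and `P jj₀ = P₀ jj`: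
 `|P| ee(B) = |P₀| ee(B₀) (YD B/YD B₀)^l (dl₀/dl)^l ≤ (exp(y^16) 2.5 y^128 y^j)^l |f₀|` (`St.V`, `Rn.Ybd`, `YD ≥ 0.8`, `dlge`), and the same for
 `(b', d')`: `|P| ee(B) (YD B'/YD B)^l (dl/dl')^l = |P₀| ee(B₀) (YD B'/YD B₀)^l (dl₀/dl')^l ≤ (exp(y^16) 30 y^129 y^(j+1))^l |f₀|`
 (`YD B' ≤ 12 y YD B` by `psR`, `cf_range`, `YD_jump`; `dl ≤ y dl'` because `1 - c² ≥ 1 - r² ≥ 1/y`).
 As `K ≥ 5000000 exp(y^16) y^720 y^j` and `|f₀| ≤ 2|f|` both are `≤ ε K^l |f|` with `ε = 1/y^580` (`l ≥ 1`).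
-/

set_option autoImplicit false

namespace Pool.Agent.Helper81.QF

open Polynomial Metric Complex
open Pool.Agent.Helper84.Lam Pool.Agent.Helper29.QF

variable {m : ℕ} {b d : ℂ[X]} {y X : ℝ}

private theorem s39_pow1000 (hy : 30 ≤ y) : 1 / y ^ 1000 ≤ 1 / (2 * y) := by
  have hy0 : 0 < y := by linarith
  have h1 : 2 * y ≤ y ^ 1000 := by
    have e : y ^ 1000 = y ^ 998 * y * y := by ring
    have h2 : 1 ≤ y ^ 998 := one_le_pow₀ (by linarith)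
    rw [e]
    nlinarith [mul_pos hy0 hy0]
  exact one_div_le_one_div_of_le (by positivity) h1

/-- progress at active places -/
theorem progR {m : ℕ} {b d : ℂ[X]} {y X : ℝ} (h : Pair m b d) (hy : 30 ≤ y) (hX : 1 ≤ X)
    (hs : ∀ z : ℂ, ‖z‖ = 1 → ‖nN b d z‖ + ‖vV b d z‖ ≤ X * dl b d z) {z : ℂ} (hz : ‖z‖ = 1)
    (hY : YD (Bq b d z) ≤ 0.9 * y ^ 5) :
    dl (bR y X m b d) (dR y X m b d) z ≤ 3 / y * dl b d z := by
  have hy0 : 0 < y := by linarith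
  have hc := cf_big h (by linarith) hX hs hz hY
  have hc' := (cf_range (X := X) h (by linarith : (1 : ℝ) ≤ y) hX hz).2
  have hw : 0 < dl b d z := dl_pos h hz.le
  rw [dlR h (by linarith) hX hz]
  refine mul_le_mul_of_nonneg_right ?_ hw.le
  have h1 := s39_pow1000 hy
  have e1 : 1 / (2 * y) = 1 / y / 2 := by ring
  have e3 : 3 / y = 3 * (1 / y) := by ring
  have hu : 0 < 1 / y := by positivity
  have hu1 : 1 / y ≤ 1 / 30 := one_div_le_one_div_of_le (by norm_num) hy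
  rw [e1] at h1
  rw [e3]
  unfold cfR
  unfold rR at hc hc'
  set u := 1 / y with hu'
  set c := cf (nR X) (pR y) (vR y b d) z
  have h2 : 1 - 3 / 2 * u ≤ c := by linarith
  nlinarith

private theorem s39_fin {l : ℕ} (hl : 1 ≤ l) (hy : 30 ≤ y) {A M K f f₀ : ℝ} (hM : 0 ≤ M)
    (hA : A ≤ M ^ l * f₀) (hf : f₀ ≤ 2 * f) (hf0 : 0 ≤ f) (hK : 2 * y ^ 580 * M ≤ K) :
    A ≤ 1 / y ^ 580 * K ^ l * f := by
  have hy1 : 1 ≤ y := by linarith
  have hp : 0 < y ^ 580 := by positivity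
  have hp1 : 1 ≤ y ^ 580 := one_le_pow₀ hy1
  have h1 : (2 * y ^ 580) * M ^ l ≤ K ^ l := by
    calc (2 * y ^ 580) * M ^ l ≤ (2 * y ^ 580) ^ l * M ^ l := by
          refine mul_le_mul_of_nonneg_right ?_ (pow_nonneg hM l)
          calc 2 * y ^ 580 = (2 * y ^ 580) ^ 1 := (pow_one _).symm
            _ ≤ (2 * y ^ 580) ^ l := pow_le_pow_right₀ (by linarith) hl
      _ = (2 * y ^ 580 * M) ^ l := (mul_pow (2 * y ^ 580) M l).symm
      _ ≤ K ^ l := pow_le_pow_left₀ (by positivity) hK l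
  have h2 : A ≤ M ^ l * (2 * f) := hA.trans (mul_le_mul_of_nonneg_left hf (pow_nonneg hM l))
  have h3 : M ^ l * (2 * f) ≤ 1 / y ^ 580 * K ^ l * f := by
    have e : M ^ l * (2 * f) = 1 / y ^ 580 * ((2 * y ^ 580) * M ^ l) * f := by
      field_simp
    rw [e]
    exact mul_le_mul_of_nonneg_right (mul_le_mul_of_nonneg_left h1 (by positivity)) hf0
  exact h2.trans h3

/-- the exact size -/
private theorem s39_exact {l m m₀ : ℕ} {b d b₀ d₀ : ℂ[X]} {f₀ P P₀ : ℂ → ℂ} {E : ℝ} (h : Pair m b d)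
    (h₀ : Pair m₀ b₀ d₀) {z : ℂ} (hz : ‖z‖ ≤ 1)
    (hP : P z * jj l b₀ d₀ z = P₀ z * jj l b d z)
    (hV : ‖P₀ z‖ * ee l (Bq b₀ d₀ z) ≤ E ^ l * ‖f₀ z‖) {R : ℝ} (hR : 0 ≤ R) (hE : 0 ≤ E)
    {Q : ℝ} (hQ : YD (Bq b d z) / YD (Bq b₀ d₀ z) * (dl b₀ d₀ z / dl b d z) * R ≤ Q) :
    ‖P z‖ * ee l (Bq b d z) * R ^ l ≤ (E * Q) ^ l * ‖f₀ z‖ := by
  have j1 := jj_norm h l hz
  have j0 := jj_norm h₀ l hz
  have n1 : ‖P z‖ * ‖jj l b₀ d₀ z‖ = ‖P₀ z‖ * ‖jj l b d z‖ := by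
    rw [← norm_mul, ← norm_mul, hP]
  have hj0 : 0 < ‖jj l b₀ d₀ z‖ := norm_pos_iff.2 (jj_ne h₀ l hz)
  have hY0 : 0 < YD (Bq b₀ d₀ z) := lt_of_lt_of_le (by norm_num) (YD_lower (Bq_lt h₀ hz))
  have hY1 : 0 < YD (Bq b d z) := lt_of_lt_of_le (by norm_num) (YD_lower (Bq_lt h hz))
  have hw0 : 0 < dl b₀ d₀ z := dl_pos h₀ hz
  have hw1 : 0 < dl b d z := dl_pos h hz
  have hpi := Real.pi_pos
  set a := ‖P z‖
  set a0 := ‖P₀ z‖
  set J0 := ‖jj l b₀ d₀ z‖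
  set J := ‖jj l b d z‖
  set e := ee l (Bq b d z)
  set e0 := ee l (Bq b₀ d₀ z)
  set w := dl b d z
  set w0 := dl b₀ d₀ z
  set Y := YD (Bq b d z)
  set Y0 := YD (Bq b₀ d₀ z)
  have key : a * e = a0 * e0 * (Y / Y0 * (w0 / w)) ^ l := by
    have h1 : (a * e) * (J0 * e0 * w0 ^ l) * w ^ l = (a0 * e0) * (J * e * w ^ l) * w0 ^ l := by
      calc (a * e) * (J0 * e0 * w0 ^ l) * w ^ l = (a * J0) * (e * e0 * w0 ^ l * w ^ l) := by ring
        _ = (a0 * J) * (e * e0 * w0 ^ l * w ^ l) := by rw [n1]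
        _ = (a0 * e0) * (J * e * w ^ l) * w0 ^ l := by ring
    rw [j0, j1] at h1
    have hA : 0 < (2 * Real.pi * Y0) ^ l := by positivity
    have hB : 0 < w ^ l := by positivity
    have h2 : a * e = (a0 * e0) * (2 * Real.pi * Y) ^ l * w0 ^ l / ((2 * Real.pi * Y0) ^ l * w ^ l) := by
      rw [eq_div_iff (by positivity)]
      linarith [h1]
    have hC : (2 * Real.pi) ^ l ≠ 0 := by positivity
    have e1 : (2 * Real.pi * Y) ^ l = (2 * Real.pi) ^ l * Y ^ l := mul_pow _ _ _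
    have e2 : (2 * Real.pi * Y0) ^ l = (2 * Real.pi) ^ l * Y0 ^ l := mul_pow _ _ _
    have e3 : (Y / Y0 * (w0 / w)) ^ l = Y ^ l / Y0 ^ l * (w0 ^ l / w ^ l) := by
      rw [mul_pow, div_pow, div_pow]
    rw [h2, e1, e2, e3]
    field_simp
  have hq0 : 0 ≤ Y / Y0 * (w0 / w) * R := by positivity
  calc a * e * R ^ l = a0 * e0 * (Y / Y0 * (w0 / w) * R) ^ l := by
        rw [key, mul_pow (Y / Y0 * (w0 / w)) R]
        ring
    _ ≤ (E ^ l * ‖f₀ z‖) * (Y / Y0 * (w0 / w) * R) ^ l :=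
        mul_le_mul_of_nonneg_right hV (pow_nonneg hq0 l)
    _ ≤ (E ^ l * ‖f₀ z‖) * Q ^ l :=
        mul_le_mul_of_nonneg_left (pow_le_pow_left₀ hq0 hQ l)
          (mul_nonneg (pow_nonneg hE l) (norm_nonneg _))
    _ = (E * Q) ^ l * ‖f₀ z‖ := by rw [mul_pow]; ring

private theorem s39_cR (hy : 30 ≤ y) : y ≤ cR y := by
  unfold cR
  have h1 : (2 : ℝ) ≤ (pR y : ℝ) := by
    unfold pR
    push_cast
    have : (0 : ℝ) ≤ (⌈1000 * Real.log y⌉₊ : ℝ) := Nat.cast_nonneg _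
    linarith
  have h2 : 0 < y := by linarith
  nlinarith

/-- sizes before and after the step -/
theorem sizes {l : ℕ} (hl : 1 ≤ l) : ∃ y₀ : ℝ, 30 ≤ y₀ ∧ ∀ y : ℝ, y₀ ≤ y →
    ∀ (C₃ : ℝ) (m₀ : ℕ) (b₀ d₀ : ℂ[X]) (f₀ P₀ : ℂ → ℂ), St l C₃ y m₀ b₀ d₀ f₀ P₀ →
    ∀ (j m : ℕ) (b d : ℂ[X]) (f P : ℂ → ℂ), (j : ℝ) + 1 ≤ y ^ 4 → Rn l y b₀ d₀ f₀ P₀ j m b d f P →
    ∀ z : ℂ, ‖z‖ = 1 →
      ‖P z‖ * ee l (Bq b d z) ≤ 1 / y ^ 580 *
        ((2 * kd (nR (X0 y * cR y ^ j)) (pR y) : ℕ) : ℝ) ^ l * ‖f z‖ ∧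
      ‖P z‖ * ee l (Bq b d z) *
        (YD (Bq (bR y (X0 y * cR y ^ j) m b d) (dR y (X0 y * cR y ^ j) m b d) z) /
          YD (Bq b d z)) ^ l *
        (dl b d z / dl (bR y (X0 y * cR y ^ j) m b d) (dR y (X0 y * cR y ^ j) m b d) z) ^ l ≤
        1 / y ^ 580 * ((2 * kd (nR (X0 y * cR y ^ j)) (pR y) : ℕ) : ℝ) ^ l * ‖f z‖ := by
  refine ⟨30, le_rfl, ?_⟩
  intro y hy C₃ m₀ b₀ d₀ f₀ P₀ h₀ j m b d f P hj hR z hz
  have hy0 : 0 < y := by linarith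
  have hy1 : 1 ≤ y := by linarith
  have hj' : (j : ℝ) ≤ y ^ 4 := by linarith
  have hE1 : 1 ≤ Real.exp (y ^ 16) := Real.one_le_exp (by positivity)
  have hcR := s39_cR hy
  set X := X0 y * cR y ^ j with hXdef
  have hcj : y ^ j ≤ cR y ^ j := pow_le_pow_left₀ hy0.le hcR j
  have hyj : 1 ≤ y ^ j := one_le_pow₀ hy1
  have h720 : 1 ≤ y ^ 720 := one_le_pow₀ hy1
  have hX0 : 1 ≤ X0 y := by
    unfold X0
    nlinarith
  have hXlow : Real.exp (y ^ 16) * y ^ 720 * y ^ j ≤ X := by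
    rw [hXdef]
    unfold X0
    exact mul_le_mul_of_nonneg_left hcj (by positivity)
  have hX : 1 ≤ X := by
    rw [hXdef]
    have : 1 ≤ cR y ^ j := hyj.trans hcj
    nlinarith
  have hp := hR.core.pair
  have hp0 := h₀.core.pair
  have hpair' := pairR (X := X) hp hy1 hX
  have hf := (hR.fbd hy hj' hz.le).2
  have hYb := hR.Ybd hy h₀ hj' hz
  have hY0 : 0.8 ≤ YD (Bq b₀ d₀ z) := YD_lower (Bq_lt hp0 hz.le)
  have hY1 : 0.8 ≤ YD (Bq b d z) := YD_lower (Bq_lt hp hz.le)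
  have hY0p : 0 < YD (Bq b₀ d₀ z) := by linarith
  have hY1p : 0 < YD (Bq b d z) := by linarith
  have hw0 : 0 < dl b₀ d₀ z := dl_pos hp0 hz.le
  have hw1 : 0 < dl b d z := dl_pos hp hz.le
  have hdl := hR.dlge z hz
  have hkd : 5000000 * X ≤ ((2 * kd (nR X) (pR y) : ℕ) : ℝ) := by
    push_cast
    exact kd_ge hX
  have q1 : YD (Bq b d z) / YD (Bq b₀ d₀ z) ≤ 2.5 * y ^ 128 := by
    rw [div_le_iff₀ hY0p]
    have : 0 < y ^ 128 := by positivity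
    nlinarith
  have q2 : dl b₀ d₀ z / dl b d z ≤ y ^ j := by
    rw [div_le_iff₀ hw1]
    exact hdl
  have q1' : 0 ≤ YD (Bq b d z) / YD (Bq b₀ d₀ z) := by positivity
  have q2' : 0 ≤ dl b₀ d₀ z / dl b d z := by positivity
  have q12 : YD (Bq b d z) / YD (Bq b₀ d₀ z) * (dl b₀ d₀ z / dl b d z) ≤
      2.5 * y ^ 128 * y ^ j := mul_le_mul q1 q2 q2' (by positivity)
  have hV := h₀.V z hz
  have hpow : ∀ c : ℝ, 0 ≤ c → c ≤ 100 → 2 * y ^ 580 * (Real.exp (y ^ 16) * (c * y ^ 130 * y ^ j)) ≤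
      ((2 * kd (nR X) (pR y) : ℕ) : ℝ) := by
    intro c hc0 hc
    refine le_trans ?_ hkd
    have e1 : y ^ 720 = y ^ 10 * (y ^ 580 * y ^ 130) := by ring
    have h10 : 1 ≤ y ^ 10 := one_le_pow₀ hy1
    have hW : 0 ≤ Real.exp (y ^ 16) * (y ^ 580 * y ^ 130) * y ^ j := by positivity
    have h1 : Real.exp (y ^ 16) * (y ^ 580 * y ^ 130) * y ^ j ≤ X := by
      refine le_trans ?_ hXlow
      rw [e1]
      have h2 : y ^ 580 * y ^ 130 ≤ y ^ 10 * (y ^ 580 * y ^ 130) :=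
        le_mul_of_one_le_left (by positivity) h10
      exact mul_le_mul_of_nonneg_right (mul_le_mul_of_nonneg_left h2 (by positivity))
        (by positivity)
    calc 2 * y ^ 580 * (Real.exp (y ^ 16) * (c * y ^ 130 * y ^ j))
        = (2 * c) * (Real.exp (y ^ 16) * (y ^ 580 * y ^ 130) * y ^ j) := by ring
      _ ≤ (2 * 100) * (Real.exp (y ^ 16) * (y ^ 580 * y ^ 130) * y ^ j) :=
          mul_le_mul_of_nonneg_right (by linarith) hW
      _ ≤ 5000000 * X := by nlinarith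
  have hy2 : 1 ≤ y ^ 2 := one_le_pow₀ hy1
  constructor
  · have h1 := s39_exact (E := Real.exp (y ^ 16)) hp hp0 hz.le (hR.Pj z hz.le) hV (R := 1)
      zero_le_one (by positivity) (Q := 2.5 * y ^ 130 * y ^ j) (by
        rw [mul_one]
        refine q12.trans ?_
        have h2 : y ^ 128 ≤ y ^ 130 := pow_le_pow_right₀ hy1 (by norm_num)
        have h3 : 0 ≤ y ^ j := by positivity
        nlinarith)
    rw [one_pow, mul_one] at h1
    exact s39_fin hl hy (by positivity) h1 hf (norm_nonneg _) (hpow 2.5 (by norm_num) (by norm_num))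
  · set b' := bR y X m b d
    set d' := dR y X m b d
    have hY'p : 0 < YD (Bq b' d' z) :=
      lt_of_lt_of_le (by norm_num) (YD_lower (Bq_lt hpair' hz.le))
    have hw'p : 0 < dl b' d' z := dl_pos hpair' hz.le
    have hcf := cf_range (X := X) hp hy1 hX hz
    have hps := psR (X := X) hp hy1 hX hz
    have hjump := YD_jump hy1 (Bq_lt hp hz.le) (Bq_lt hpair' hz.le) (by
      have : cfR y X b d z ≤ 1 - 1 / y := hcf.2
      linarith [hps])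
    have hdl' := dlR (X := X) hp hy1 hX hz
    have r1 : YD (Bq b' d' z) / YD (Bq b d z) ≤ 12 * y := by
      rw [div_le_iff₀ hY1p]
      linarith
    have r2 : dl b d z / dl b' d' z ≤ y := by
      rw [div_le_iff₀ hw'p]
      have h1 : 1 / y ≤ 1 - cfR y X b d z ^ 2 := by
        have h2 : cfR y X b d z ≤ 1 - 1 / y := hcf.2
        have h3 : 0 ≤ cfR y X b d z := hcf.1
        have h4 : 0 < 1 / y := by positivity
        nlinarith
      have h5 : 1 ≤ y * (1 - cfR y X b d z ^ 2) := by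
        have : y * (1 / y) = 1 := by field_simp
        nlinarith
      calc dl b d z = 1 * dl b d z := (one_mul _).symm
        _ ≤ (y * (1 - cfR y X b d z ^ 2)) * dl b d z := mul_le_mul_of_nonneg_right h5 hw1.le
        _ = y * dl b' d' z := by rw [hdl']; ring
    have r1' : 0 ≤ YD (Bq b' d' z) / YD (Bq b d z) := by positivity
    have r2' : 0 ≤ dl b d z / dl b' d' z := by positivity
    have r12 : YD (Bq b' d' z) / YD (Bq b d z) * (dl b d z / dl b' d' z) ≤ 12 * y * y :=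
      mul_le_mul r1 r2 r2' (by positivity)
    have h1 := s39_exact (E := Real.exp (y ^ 16)) hp hp0 hz.le (hR.Pj z hz.le) hV
      (R := YD (Bq b' d' z) / YD (Bq b d z) * (dl b d z / dl b' d' z))
      (mul_nonneg r1' r2') (by positivity) (Q := 30 * y ^ 130 * y ^ j) (by
        calc YD (Bq b d z) / YD (Bq b₀ d₀ z) * (dl b₀ d₀ z / dl b d z) *
              (YD (Bq b' d' z) / YD (Bq b d z) * (dl b d z / dl b' d' z))
            ≤ (2.5 * y ^ 128 * y ^ j) * (12 * y * y) :=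
              mul_le_mul q12 r12 (mul_nonneg r1' r2') (by positivity)
          _ = 30 * y ^ 130 * y ^ j := by ring)
    rw [mul_pow (YD (Bq b' d' z) / YD (Bq b d z)), ← mul_assoc] at h1
    exact s39_fin hl hy (by positivity) h1 hf (norm_nonneg _) (hpow 30 (by norm_num) (by norm_num))

end Pool.Agent.Helper81.QF
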