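import Pool.Agent.Helper81.QF.Run.Par

/-!
# QF-R3: the pair after one RUN step

`g = gP (nR X) (pR y) (vR y b d)`, `b' = b + g * star m d`, `d' = d + g * star m b`, `m' = m + 4 kd`.
* `pair'`: `Pair.step` (Szego.lean) with `k = 4 kd` (`gP_natDegree`, `gP_zero`, `gP_norm`, `cf_range`, `rR y < 1`).
* `kd_le`, `kd_ge`: `kd = p (n - 1)`, `n = ⌈3000000 X⌉`: `3000000 X - 1 ≤ n - 1 ≤ 3000000 X`, `2 ≤ p`.
  So `5000000 X ≤ 2 * kd`, and `kd ≤ 3000000 p X`.
* `dl'`: `step_identity` and `gP_norm` (`dl b d z = ‖d z‖² - ‖b z‖²`).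
* `speed'`: `speed_step` with `s = X`: the factor is `((1 + |g|) X + |g'| + m |g|)/(1 - |g|) ≤ (2 X + 12 kd + X) y`
  (`|g| ≤ rR y = 1 - 1/y`, `|g'| ≤ 12 kd` (`gP_deriv`, `V = rR y ≤ 1`), `m ≤ X`)
  `≤ (3 + 36000000 p) X y ≤ 40000000 p y X = cR y * X` (`p ≥ 2`).
* `deg'`: `m + 4 kd ≤ X + 12000000 p X ≤ cR y * X`.
-/

set_option autoImplicit false

namespace Pool.Agent.Helper81.QF

open Polynomial Metric Complex
open Pool.Agent.Helper84.Lam Pool.Agent.Helper29.QF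

/-- the polynomial of a RUN step -/
noncomputable def gR (y X : ℝ) (b d : ℂ[X]) : ℂ[X] := gP (nR X) (pR y) (vR y b d)
noncomputable def bR (y X : ℝ) (m : ℕ) (b d : ℂ[X]) : ℂ[X] := b + gR y X b d * star m d
noncomputable def dR (y X : ℝ) (m : ℕ) (b d : ℂ[X]) : ℂ[X] := d + gR y X b d * star m b
noncomputable def mR (y X : ℝ) (m : ℕ) : ℕ := m + 4 * kd (nR X) (pR y)
/-- `|g|` on the circle -/
noncomputable def cfR (y X : ℝ) (b d : ℂ[X]) (z : ℂ) : ℝ := cf (nR X) (pR y) (vR y b d) z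

variable {m : ℕ} {b d : ℂ[X]} {y X : ℝ}

private theorem nR_one1 (hX : 1 ≤ X) : 1 ≤ nR X := by
  have h1 : 3000000 * X ≤ (nR X : ℝ) := Nat.le_ceil _
  have h2 : (1 : ℝ) ≤ (nR X : ℝ) := by linarith
  exact_mod_cast h2

private theorem pR_two (y : ℝ) : (2 : ℝ) ≤ (pR y : ℝ) := by
  have : 2 ≤ pR y := by
    unfold pR
    omega
  exact_mod_cast this

private theorem kd_cast (hX : 1 ≤ X) :
    (kd (nR X) (pR y) : ℝ) = (pR y : ℝ) * ((nR X : ℝ) - 1) := by
  unfold kd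
  rw [Nat.cast_mul, Nat.cast_sub (nR_one1 hX), Nat.cast_one]

private theorem rR_nn (hy : 1 ≤ y) : 0 ≤ rR y := by
  unfold rR
  have : 1 / y ≤ 1 := by
    rw [div_le_one (by linarith)]
    exact hy
  linarith

private theorem rR_le1 (hy : 1 ≤ y) : rR y ≤ 1 := by
  unfold rR
  have : 0 ≤ 1 / y := by
    apply div_nonneg zero_le_one
    linarith
  linarith

private theorem rR_lt1 (hy : 1 ≤ y) : rR y < 1 := by
  unfold rR
  have : 0 < 1 / y := by
    apply div_pos zero_lt_one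
    linarith
  linarith

theorem kd_ge (hX : 1 ≤ X) : 5000000 * X ≤ 2 * (kd (nR X) (pR y) : ℝ) := by
  rw [kd_cast hX]
  have h1 : 3000000 * X ≤ (nR X : ℝ) := Nat.le_ceil _
  have h2 := pR_two y
  have h3 : 2500000 * X ≤ (nR X : ℝ) - 1 := by linarith
  have h4 : (0 : ℝ) ≤ (nR X : ℝ) - 1 := by linarith
  nlinarith [mul_le_mul_of_nonneg_right h2 h4]

theorem kd_le (hX : 1 ≤ X) : (kd (nR X) (pR y) : ℝ) ≤ 3000000 * pR y * X := by
  rw [kd_cast hX]
  have h1 : (nR X : ℝ) < 3000000 * X + 1 := Nat.ceil_lt_add_one (by linarith)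
  have h2 := pR_two y
  have h3 : (pR y : ℝ) * ((nR X : ℝ) - 1) ≤ (pR y : ℝ) * (3000000 * X) :=
    mul_le_mul_of_nonneg_left (by linarith) (by linarith)
  linarith

theorem gR_norm (h : Pair m b d) (hy : 1 ≤ y) (hX : 1 ≤ X) {z : ℂ} (hz : ‖z‖ = 1) :
    ‖(gR y X b d).eval z‖ = cfR y X b d z :=
  gP_norm (nR_one1 hX) (vR_meas h) (V := rR y) (fun w _ => vR_le hy w) (fun w _ => vR_nonneg hy w) hz

private theorem gR_lt (h : Pair m b d) (hy : 1 ≤ y) (hX : 1 ≤ X) {z : ℂ} (hz : ‖z‖ = 1) :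
    ‖(gR y X b d).eval z‖ < 1 := by
  rw [gR_norm h hy hX hz]
  exact lt_of_le_of_lt (cf_range h hy hX hz).2 (rR_lt1 hy)

private theorem gR_zero (hX : 1 ≤ X) : (gR y X b d).eval 0 = 0 := by
  refine gP_zero ?_ _
  have h1 := kd_ge (y := y) hX
  have h2 : (0 : ℝ) < (kd (nR X) (pR y) : ℝ) := by linarith
  exact_mod_cast h2

theorem pairR (h : Pair m b d) (hy : 1 ≤ y) (hX : 1 ≤ X) :
    Pair (mR y X m) (bR y X m b d) (dR y X m b d) :=
  Pair.step (k := 4 * kd (nR X) (pR y)) h (gP_natDegree _ _ _) (gR_zero hX) (fun _ hz => gR_lt h hy hX hz)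

theorem bR_zero (h : Pair m b d) (hX : 1 ≤ X) (hb : b.eval 0 = 0) :
    (bR y X m b d).eval 0 = 0 := by
  unfold bR
  rw [eval_add, eval_mul, hb, gR_zero hX, zero_mul, add_zero]

theorem dlR (h : Pair m b d) (hy : 1 ≤ y) (hX : 1 ≤ X) {z : ℂ} (hz : ‖z‖ = 1) :
    dl (bR y X m b d) (dR y X m b d) z = (1 - cfR y X b d z ^ 2) * dl b d z := by
  rw [← gR_norm h hy hX hz]
  exact step_identity h.db h.dd hz

theorem speedR (h : Pair m b d) (hy : 3 ≤ y) (hX : 1 ≤ X) (hm : (m : ℝ) ≤ X)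
    (hs : ∀ z : ℂ, ‖z‖ = 1 → ‖nN b d z‖ + ‖vV b d z‖ ≤ X * dl b d z) {z : ℂ} (hz : ‖z‖ = 1) :
    ‖nN (bR y X m b d) (dR y X m b d) z‖ + ‖vV (bR y X m b d) (dR y X m b d) z‖ ≤
      cR y * X * dl (bR y X m b d) (dR y X m b d) z := by
  have hy1 : 1 ≤ y := by linarith
  have h1 := speed_step (g := gR y X b d) h.db h.dd hz (h.lt z hz) (gR_lt h hy1 hX hz) (hs z hz)
  refine h1.trans (mul_le_mul_of_nonneg_right ?_ (dl_pos (pairR h hy1 hX) hz.le).le)
  have hx0 := norm_nonneg ((gR y X b d).eval z)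
  have hxr : ‖(gR y X b d).eval z‖ ≤ 1 - 1 / y := by
    rw [gR_norm h hy1 hX hz]
    exact (cf_range h hy1 hX hz).2
  have hyi : 0 < 1 / y := by
    apply div_pos zero_lt_one
    linarith
  have hg : ‖(derivative (gR y X b d)).eval z‖ ≤ 12 * kd (nR X) (pR y) * rR y :=
    gP_deriv (nR_one1 hX) (vR_meas h) (rR_nn hy1) (fun w _ => vR_le hy1 w) hz
  have hk0 : (0 : ℝ) ≤ (kd (nR X) (pR y) : ℝ) := Nat.cast_nonneg _
  have hg' : ‖(derivative (gR y X b d)).eval z‖ ≤ 12 * kd (nR X) (pR y) := by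
    have := mul_le_mul_of_nonneg_left (rR_le1 hy1) (by positivity : (0 : ℝ) ≤ 12 * kd (nR X) (pR y))
    linarith
  have hk := kd_le (y := y) hX
  have hp := pR_two y
  set x := ‖(gR y X b d).eval z‖
  set G := ‖(derivative (gR y X b d)).eval z‖
  have hx1 : x ≤ 1 := by linarith
  have hden : 0 < 1 - x := by linarith
  have hm0 : (0 : ℝ) ≤ m := Nat.cast_nonneg _
  have hnum : (1 + x) * X + G + m * x ≤ 40000000 * pR y * X := by
    have e1 : (1 + x) * X ≤ 2 * X := mul_le_mul_of_nonneg_right (by linarith) (by linarith)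
    have e2 : (m : ℝ) * x ≤ X := by
      calc (m : ℝ) * x ≤ m * 1 := mul_le_mul_of_nonneg_left hx1 hm0
        _ ≤ X := by linarith
    have e3 : 2 * X ≤ pR y * X := mul_le_mul_of_nonneg_right hp (by linarith)
    have e4 : 0 ≤ (pR y : ℝ) * X := by positivity
    linarith
  rw [div_le_iff₀ hden]
  have hA : 0 ≤ 40000000 * (pR y : ℝ) * X := by positivity
  have hyx : 1 ≤ y * (1 - x) := by
    have e5 : y * (1 / y) = 1 := by
      rw [mul_one_div, div_self]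
      linarith
    have e6 : y * (1 / y) ≤ y * (1 - x) := mul_le_mul_of_nonneg_left (by linarith) (by linarith)
    linarith
  calc (1 + x) * X + G + m * x ≤ 40000000 * pR y * X := hnum
    _ = 40000000 * pR y * X * 1 := by ring
    _ ≤ 40000000 * pR y * X * (y * (1 - x)) := mul_le_mul_of_nonneg_left hyx hA
    _ = cR y * X * (1 - x) := by
        unfold cR
        ring

theorem degR (hy : 3 ≤ y) (hX : 1 ≤ X) (hm : (m : ℝ) ≤ X) : (mR y X m : ℝ) ≤ cR y * X := by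
  have hk := kd_le (y := y) hX
  have hp := pR_two y
  have e : (mR y X m : ℝ) = m + 4 * kd (nR X) (pR y) := by
    unfold mR
    push_cast
    ring
  rw [e]
  have e3 : 2 * X ≤ pR y * X := mul_le_mul_of_nonneg_right hp (by linarith)
  have e4 : 0 ≤ (pR y : ℝ) * X := by positivity
  have e5 : 40000000 * (pR y * X) * 1 ≤ 40000000 * (pR y * X) * y :=
    mul_le_mul_of_nonneg_left (by linarith) (by linarith)
  have e6 : cR y * X = 40000000 * (pR y * X) * y := by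
    unfold cR
    ring
  rw [e6]
  linarith

/-- the pseudo-hyperbolic step on the circle -/
theorem psR (h : Pair m b d) (hy : 1 ≤ y) (hX : 1 ≤ X) {z : ℂ} (hz : ‖z‖ = 1) :
    ps (Bq b d z) (Bq (bR y X m b d) (dR y X m b d) z) = cfR y X b d z := by
  rw [← gR_norm h hy hX hz]
  exact step_ps_circle h hz (gR_lt h hy hX hz)

end Pool.Agent.Helper81.QF
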